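import Pool.Agent.E8helper43.HS.Sl
import Pool.Agent.Y119.HY.Gal

/-!
# Products of special linear groups

A group of tuples of matrices which is normalised by the exponentials of regular nilpotent matrices and which contains the tuples
of transvections contains all tuples of matrices of determinant one, if the transvections are not related.
-/

set_option autoImplicit false
set_option maxHeartbeats 4000000

open Matrix

namespace Pool.Agent.E8helper43.HS

open Pool.Agent.Y119.HY (E E_neg E_zero E_mul_neg E_add)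

/-! ### polynomial families -/

/-- the leading coefficient of `E (1 / c) x` -/
lemma pol_top {n m : ℕ} {N : Matrix (Fin n) (Fin n) ℂ} (hm : n ≤ m) (hn : 1 ≤ n) (x : Fin n → ℂ) :
    ∃ P : Fin n → Polynomial ℂ, (∀ c : ℂ, c ≠ 0 → (fun i => (P i).eval c) = c ^ (m - 1) • (E N c⁻¹ *ᵥ x)) ∧
      (fun i => (P i).eval 0) = if n = m then ((m - 1).factorial : ℂ)⁻¹ • (N ^ (n - 1) *ᵥ x) else 0 := by
  refine ⟨fun i => ∑ l ∈ Finset.range n, Polynomial.C ((N ^ l *ᵥ x) i / (l.factorial : ℂ)) * Polynomial.X ^ (m - 1 - l),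
    fun c hc => ?_, ?_⟩
  · funext i
    simp only
    rw [Polynomial.eval_finsetSum, Pi.smul_apply]
    unfold E
    rw [Matrix.sum_mulVec, Finset.sum_apply, smul_eq_mul, Finset.mul_sum]
    refine Finset.sum_congr rfl fun l hl => ?_
    rw [Finset.mem_range] at hl
    simp only [Polynomial.eval_mul, Polynomial.eval_C, Polynomial.eval_pow, Polynomial.eval_X, smul_mulVec, Pi.smul_apply,
      smul_eq_mul, inv_pow]
    have h1 : c ^ (m - 1) = c ^ (m - 1 - l) * c ^ l := by rw [← pow_add]; congr 1; omega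
    rw [h1]
    field_simp
  · funext i
    simp only
    rw [Polynomial.eval_finsetSum]
    split_ifs with h
    · rw [Finset.sum_eq_single (n - 1)]
      · subst h
        simp [div_eq_inv_mul]
      · intro l hl hl'
        rw [Finset.mem_range] at hl
        simp only [Polynomial.eval_mul, Polynomial.eval_C, Polynomial.eval_pow, Polynomial.eval_X]
        rw [zero_pow (by omega), mul_zero]
      · intro h'
        exact absurd (Finset.mem_range.2 (by omega)) h'
    · refine Finset.sum_eq_zero fun l hl => ?_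
      rw [Finset.mem_range] at hl
      simp only [Polynomial.eval_mul, Polynomial.eval_C, Polynomial.eval_pow, Polynomial.eval_X]
      rw [zero_pow (by omega), mul_zero]

variable {r : ℕ} {n : Fin r → ℕ}

/-- tuples of matrices -/
abbrev Tp (n : Fin r → ℕ) : Type := ∀ a, Matrix (Fin (n a)) (Fin (n a)) ℂ

/-- tuples of vectors -/
abbrev Tv (n : Fin r → ℕ) : Type := ∀ a, Fin (n a) → ℂ

/-- tuples of transvections -/
noncomputable def TT (x ξ : Tv n) (κ : Fin r → ℂ) : Tp n := fun a => tr (x a) (ξ a) (κ a)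

/-- the coefficients such that the tuples of transvections are in `S` -/
def KK (S : Submonoid (Tp n)) (x ξ : Tv n) (h : ∀ a, ξ a ⬝ᵥ x a = 0) : Submodule ℂ (Fin r → ℂ) where
  carrier := {κ | ∀ s : ℂ, TT x ξ (s • κ) ∈ S}
  add_mem' := by
    intro κ κ' hκ hκ' s
    have h1 : TT x ξ (s • (κ + κ')) = TT x ξ (s • κ) * TT x ξ (s • κ') := by
      funext a
      show tr (x a) (ξ a) (s * (κ a + κ' a)) = tr (x a) (ξ a) (s * κ a) * tr (x a) (ξ a) (s * κ' a)
      rw [tr_mul _ _ _ (h a), ← add_smul, tr_smul_right, one_mul, mul_add]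
    rw [h1]
    exact mul_mem (hκ s) (hκ' s)
  zero_mem' := by
    intro s
    have h1 : TT x ξ (s • 0) = 1 := by
      funext a
      show tr (x a) (ξ a) (s * 0) = 1
      unfold tr
      rw [mul_zero, zero_smul, add_zero]
    rw [h1]
    exact one_mem _
  smul_mem' := by
    intro c κ hκ s
    rw [smul_smul]
    exact hκ _

lemma mem_KK {S : Submonoid (Tp n)} {x ξ : Tv n} {h : ∀ a, ξ a ⬝ᵥ x a = 0} {κ : Fin r → ℂ} :
    κ ∈ KK S x ξ h ↔ ∀ s : ℂ, TT x ξ (s • κ) ∈ S := Iff.rfl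

/-- the assumptions -/
structure BH (N : Tp n) (v φ : Tv n) (S : Submonoid (Tp n)) : Prop where
  hn : ∀ a, 2 ≤ n a
  nil : ∀ a, N a ^ n a = 0
  zero : ∀ a, φ a ⬝ᵥ v a = 0
  reg : ∀ a, φ a ⬝ᵥ (N a ^ (n a - 1) *ᵥ v a) ≠ 0
  top : ∀ a x, N a ^ (n a - 1) *ᵥ x =
    ((φ a ⬝ᵥ (N a ^ (n a - 1) *ᵥ x)) / (φ a ⬝ᵥ (N a ^ (n a - 1) *ᵥ v a))) • (N a ^ (n a - 1) *ᵥ v a)
  conj : ∀ c : ℂ, ∀ g ∈ S, (fun a => E (N a) c * g a * E (N a) (-c)) ∈ S
  closed : ∀ M : ∀ a, Matrix (Fin (n a)) (Fin (n a)) (Polynomial ℂ),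
    (∀ c : ℂ, c ≠ 0 → (fun a => (M a).map (Polynomial.eval c)) ∈ S) → (fun a => (M a).map (Polynomial.eval 0)) ∈ S

variable {N : Tp n} {v φ : Tv n} {S : Submonoid (Tp n)}

/-- the polynomial families of transvections -/
lemma TT_closed (hS : BH N v φ S) (P R : ∀ a, Fin (n a) → Polynomial ℂ) (κ : Fin r → ℂ)
    (h : ∀ c : ℂ, c ≠ 0 → TT (fun a i => (P a i).eval c) (fun a i => (R a i).eval c) κ ∈ S) :
    TT (fun a i => (P a i).eval 0) (fun a i => (R a i).eval 0) κ ∈ S := by
  set M : ∀ a, Matrix (Fin (n a)) (Fin (n a)) (Polynomial ℂ) :=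
    fun a => 1 + (Polynomial.C (κ a) : Polynomial ℂ) • vecMulVec (P a) (R a) with hM
  have hMe : ∀ c : ℂ, (fun a => (M a).map (Polynomial.eval c)) =
      TT (fun a i => (P a i).eval c) (fun a i => (R a i).eval c) κ := by
    intro c
    funext a
    ext l k
    unfold TT tr
    rw [hM]
    simp only [Matrix.map_apply, Matrix.add_apply, Matrix.smul_apply, smul_eq_mul, vecMulVec_apply,
      Polynomial.eval_add, Polynomial.eval_mul, Polynomial.eval_C]
    congr 1
    rw [Matrix.one_apply, Matrix.one_apply]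
    split_ifs <;> simp
  rw [← hMe]
  refine hS.closed M fun c hc => ?_
  rw [hMe]
  exact h c hc

/-- the highest weight vectors -/
noncomputable def ee (N : Tp n) (v : Tv n) : Tv n := fun a => N a ^ (n a - 1) *ᵥ v a

/-- the lowest weight functionals -/
noncomputable def ps (N : Tp n) (φ : Tv n) : Tv n := fun a => φ a ᵥ* N a ^ (n a - 1)

/-- the pairings -/
noncomputable def kk (N : Tp n) (v φ : Tv n) (a : Fin r) : ℂ := φ a ⬝ᵥ (N a ^ (n a - 1) *ᵥ v a)

lemma ps_dot (a : Fin r) (x : Fin (n a) → ℂ) : ps N φ a ⬝ᵥ x = φ a ⬝ᵥ (N a ^ (n a - 1) *ᵥ x) := by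
  unfold ps
  rw [← dotProduct_mulVec]

lemma ps_ee (hS : BH N v φ S) (a : Fin r) : ps N φ a ⬝ᵥ ee N v a = 0 := by
  rw [ps_dot]
  unfold ee
  have := hS.hn a
  rw [mulVec_mulVec, ← pow_add, pow_eq_zero_of_le (by omega) (hS.nil a), zero_mulVec, dotProduct_zero]

lemma top' (hS : BH N v φ S) (a : Fin r) (ξ : Fin (n a) → ℂ) :
    ξ ᵥ* N a ^ (n a - 1) = ((ξ ⬝ᵥ ee N v a) / kk N v φ a) • ps N φ a := by
  refine funext fun i => ?_
  have h1 : (ξ ᵥ* N a ^ (n a - 1)) ⬝ᵥ Pi.single i 1 = (((ξ ⬝ᵥ ee N v a) / kk N v φ a) • ps N φ a) ⬝ᵥ Pi.single i 1 := by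
    rw [← dotProduct_mulVec, hS.top a, dotProduct_smul, smul_dotProduct, ps_dot]
    unfold kk ee
    simp only [smul_eq_mul]
    ring
  rwa [dotProduct_single, dotProduct_single, mul_one, mul_one] at h1

/-- conjugation by the exponentials -/
lemma TT_E (hS : BH N v φ S) (c : ℂ) {x ξ : Tv n} {κ : Fin r → ℂ} (h : TT x ξ κ ∈ S) :
    TT (fun a => E (N a) c *ᵥ x a) (fun a => ξ a ᵥ* E (N a) (-c)) κ ∈ S := by
  have h1 := hS.conj c _ h
  have e1 : (fun a => E (N a) c * TT x ξ κ a * E (N a) (-c)) =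
      TT (fun a => E (N a) c *ᵥ x a) (fun a => ξ a ᵥ* E (N a) (-c)) κ := by
    funext a
    exact tr_conj (E_mul_neg (hS.nil a) c) _ _ _
  rwa [e1] at h1

lemma neg_pow_mulVec {n : ℕ} (M : Matrix (Fin n) (Fin n) ℂ) (k : ℕ) (x : Fin n → ℂ) :
    (-M) ^ k *ᵥ x = (-1 : ℂ) ^ k • (M ^ k *ᵥ x) := by
  induction k generalizing x with
  | zero => simp
  | succ k ih =>
    rw [pow_succ, ← mulVec_mulVec, ih, neg_mulVec, mulVec_neg, mulVec_mulVec, ← pow_succ, pow_succ (-1 : ℂ), smul_neg,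
      mul_neg_one, neg_smul]

lemma tr_zero (n : ℕ) (x ξ : Fin n → ℂ) : tr x ξ 0 = 1 := by
  unfold tr
  rw [zero_smul, add_zero]

/-- **the leading terms** -/
lemma lead (hS : BH N v φ S) {m : ℕ} {x ξ : Tv n} (hxξ : ∀ a, ξ a ⬝ᵥ x a = 0) {κ : Fin r → ℂ}
    (hm : ∀ a, κ a ≠ 0 → n a ≤ m) (hκ : κ ∈ KK S x ξ hxξ) :
    (fun a => if n a = m then κ a * ((ps N φ a ⬝ᵥ x a) * (ξ a ⬝ᵥ ee N v a)) / kk N v φ a ^ 2 else 0) ∈
      KK S (ee N v) (ps N φ) (ps_ee hS) := by
  classical
  rw [mem_KK]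
  intro s
  have hkk : ∀ a, kk N v φ a ≠ 0 := hS.reg
  have hf : ((m - 1).factorial : ℂ) ≠ 0 := by exact_mod_cast (m - 1).factorial_ne_zero
  have hP : ∀ a, ∃ P : Fin (n a) → Polynomial ℂ, κ a ≠ 0 →
      (∀ c : ℂ, c ≠ 0 → (fun i => (P i).eval c) = c ^ (m - 1) • (E (N a) c⁻¹ *ᵥ x a)) ∧
      (fun i => (P i).eval 0) = if n a = m then ((m - 1).factorial : ℂ)⁻¹ • (N a ^ (n a - 1) *ᵥ x a) else 0 := by
    intro a
    by_cases h : κ a = 0
    · exact ⟨0, fun h' => absurd h h'⟩
    · obtain ⟨P, hP⟩ := pol_top (N := N a) (hm a h) (by have := hS.hn a; omega) (x a)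
      exact ⟨P, fun _ => hP⟩
  have hR : ∀ a, ∃ P : Fin (n a) → Polynomial ℂ, κ a ≠ 0 →
      (∀ c : ℂ, c ≠ 0 → (fun i => (P i).eval c) = c ^ (m - 1) • (ξ a ᵥ* E (N a) (-c⁻¹))) ∧
      (fun i => (P i).eval 0) = if n a = m then (((m - 1).factorial : ℂ)⁻¹ * (-1) ^ (m - 1)) • (ξ a ᵥ* N a ^ (n a - 1))
        else 0 := by
    intro a
    by_cases h : κ a = 0
    · exact ⟨0, fun h' => absurd h h'⟩
    · obtain ⟨P, hP1, hP2⟩ := pol_top (N := -(N a).transpose) (hm a h) (by have := hS.hn a; omega) (ξ a)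
      refine ⟨P, fun _ => ⟨fun c hc => ?_, ?_⟩⟩
      · rw [hP1 c hc, E_neg, ← vecMul_E]
      · rw [hP2]
        by_cases h' : n a = m
        · have e5 : (-1 : ℂ) ^ (n a - 1) = (-1) ^ (m - 1) := by rw [h']
          rw [if_pos h', if_pos h', neg_pow_mulVec, smul_smul, ← transpose_pow, mulVec_transpose, e5]
        · rw [if_neg h', if_neg h']
  choose P hP using hP
  choose R hR using hR
  set s' : ℂ := s * ((m - 1).factorial : ℂ) ^ 2 * (-1) ^ (m - 1) with hs'
  have h1 := TT_closed hS P R (s' • κ) (fun c hc => by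
    have h2 : TT (fun a i => (P a i).eval c) (fun a i => (R a i).eval c) (s' • κ) =
        TT (fun a => E (N a) c⁻¹ *ᵥ x a) (fun a => ξ a ᵥ* E (N a) (-c⁻¹)) ((s' * c ^ (m - 1) * c ^ (m - 1)) • κ) := by
      funext a
      show tr (fun i => (P a i).eval c) (fun i => (R a i).eval c) (s' * κ a) =
        tr (E (N a) c⁻¹ *ᵥ x a) (ξ a ᵥ* E (N a) (-c⁻¹)) (s' * c ^ (m - 1) * c ^ (m - 1) * κ a)
      by_cases h : κ a = 0
      · rw [h, mul_zero, mul_zero, tr_zero, tr_zero]
      · rw [(hP a h).1 c hc, (hR a h).1 c hc, tr_smul_left, tr_smul_right]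
        congr 1
        ring
    rw [h2]
    exact TT_E hS c⁻¹ (hκ _))
  have h3 : TT (ee N v) (ps N φ)
      (s • fun a => if n a = m then κ a * ((ps N φ a ⬝ᵥ x a) * (ξ a ⬝ᵥ ee N v a)) / kk N v φ a ^ 2 else 0) =
      TT (fun a i => (P a i).eval 0) (fun a i => (R a i).eval 0) (s' • κ) := by
    funext a
    show tr (ee N v a) (ps N φ a) (s * (if n a = m then κ a * ((ps N φ a ⬝ᵥ x a) * (ξ a ⬝ᵥ ee N v a)) / kk N v φ a ^ 2
      else 0)) = tr (fun i => (P a i).eval 0) (fun i => (R a i).eval 0) (s' * κ a)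
    by_cases h : κ a = 0
    · rw [h, zero_mul, zero_div, ite_self, mul_zero, mul_zero, tr_zero, tr_zero]
    · rw [(hP a h).2, (hR a h).2]
      by_cases h' : n a = m
      · rw [if_pos h', if_pos h', if_pos h', hS.top a, top' hS]
        have e1 : N a ^ (n a - 1) *ᵥ v a = ee N v a := rfl
        have e2 : φ a ⬝ᵥ (N a ^ (n a - 1) *ᵥ x a) = ps N φ a ⬝ᵥ x a := (ps_dot a _).symm
        have e3 : φ a ⬝ᵥ ee N v a = kk N v φ a := rfl
        rw [e1, e2, e3, smul_smul, smul_smul, tr_smul_left, tr_smul_right]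
        congr 1
        rw [hs']
        have h4 : ((-1 : ℂ)) ^ (m - 1) * (-1) ^ (m - 1) = 1 := by
          rw [← mul_pow]
          norm_num
        have := hkk a
        field_simp
        linear_combination (-(s * (ps N φ a ⬝ᵥ x a) * (ξ a ⬝ᵥ ee N v a))) * h4
      · rw [if_neg h', if_neg h', if_neg h', mul_zero, tr_zero]
        unfold tr
        rw [zero_vecMulVec, smul_zero, add_zero]
  rw [h3]
  exact h1

/-- **the quadratic terms** -/
lemma quad (hS : BH N v φ S) {x ξ : Tv n} (hxξ : ∀ a, ξ a ⬝ᵥ x a = 0) {κ : Fin r → ℂ} {J : Finset (Fin r)}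
    (hJ : ∀ s : ℂ, TT x ξ (fun a => if a ∈ J then s else 0) ∈ S) (hκJ : ∀ a, κ a ≠ 0 → a ∈ J)
    (hκ : κ ∈ KK S (ee N v) (ps N φ) (ps_ee hS)) :
    (fun a => κ a * ((ps N φ a ⬝ᵥ x a) * (ξ a ⬝ᵥ ee N v a))) ∈ KK S x ξ hxξ := by
  classical
  rw [mem_KK]
  intro s
  -- the conjugates
  have h1 : ∀ c : ℂ, c ≠ 0 → TT (fun a => c • ee N v a + (ξ a ⬝ᵥ ee N v a) • x a)
      (fun a => c • ps N φ a + (-(ps N φ a ⬝ᵥ x a)) • ξ a) ((-s) • κ) ∈ S := by
    intro c hc
    have h2 : TT (fun a => c • ee N v a + (ξ a ⬝ᵥ ee N v a) • x a)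
      (fun a => c • ps N φ a + (-(ps N φ a ⬝ᵥ x a)) • ξ a) ((-s) • κ) = TT x ξ (fun a => if a ∈ J then c⁻¹ else 0) *
        TT (ee N v) (ps N φ) (((-s) * c * c) • κ) * TT x ξ (fun a => if a ∈ J then -c⁻¹ else 0) := by
      funext a
      show tr (c • ee N v a + (ξ a ⬝ᵥ ee N v a) • x a) (c • ps N φ a + (-(ps N φ a ⬝ᵥ x a)) • ξ a) ((-s) * κ a) =
        tr (x a) (ξ a) (if a ∈ J then c⁻¹ else 0) * tr (ee N v a) (ps N φ a) (((-s) * c * c) * κ a) *
          tr (x a) (ξ a) (if a ∈ J then -c⁻¹ else 0)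
      by_cases h : κ a = 0
      · rw [h, mul_zero, mul_zero, tr_zero, tr_zero, mul_one]
        split_ifs
        · rw [tr_mul_neg (hxξ a)]
        · rw [tr_zero, mul_one]
      · rw [if_pos (hκJ a h), if_pos (hκJ a h), tr_conj (tr_mul_neg (hxξ a) _), tr_mulVec, vecMul_tr]
        have e1 : c • ee N v a + (ξ a ⬝ᵥ ee N v a) • x a = c • (ee N v a + (c⁻¹ * (ξ a ⬝ᵥ ee N v a)) • x a) := by
          rw [smul_add, smul_smul, mul_inv_cancel_left₀ hc]
        have e2 : c • ps N φ a + (-(ps N φ a ⬝ᵥ x a)) • ξ a = c • (ps N φ a + (-c⁻¹ * (ps N φ a ⬝ᵥ x a)) • ξ a) := by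
          rw [smul_add, smul_smul]
          congr 2
          field_simp
        rw [e1, e2, tr_smul_left, tr_smul_right]
        congr 1
        ring
    rw [h2]
    exact mul_mem (mul_mem (hJ _) (hκ _)) (hJ _)
  have h3 := TT_closed hS
    (fun a i => Polynomial.C (ee N v a i) * Polynomial.X + Polynomial.C ((ξ a ⬝ᵥ ee N v a) * x a i))
    (fun a i => Polynomial.C (ps N φ a i) * Polynomial.X + Polynomial.C ((-(ps N φ a ⬝ᵥ x a)) * ξ a i)) ((-s) • κ) (fun c hc => by
      refine (congrArg (· ∈ S) ?_).mp (h1 c hc)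
      unfold TT
      funext a
      congr 1
      · funext i
        simp only [Pi.add_apply, Pi.smul_apply, smul_eq_mul, Polynomial.eval_add, Polynomial.eval_mul, Polynomial.eval_C,
          Polynomial.eval_X]
        ring
      · funext i
        simp only [Pi.add_apply, Pi.smul_apply, smul_eq_mul, Polynomial.eval_add, Polynomial.eval_mul, Polynomial.eval_C,
          Polynomial.eval_X]
        ring)
  refine (congrArg (· ∈ S) ?_).mp h3
  unfold TT
  funext a
  have e1 : (fun i => (Polynomial.C (ee N v a i) * Polynomial.X + Polynomial.C ((ξ a ⬝ᵥ ee N v a) * x a i)).eval 0) =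
      (ξ a ⬝ᵥ ee N v a) • x a := by
    funext i
    simp only [Pi.smul_apply, smul_eq_mul, Polynomial.eval_add, Polynomial.eval_mul, Polynomial.eval_C,
      Polynomial.eval_X, mul_zero, zero_add]
  have e2 : (fun i => (Polynomial.C (ps N φ a i) * Polynomial.X + Polynomial.C ((-(ps N φ a ⬝ᵥ x a)) * ξ a i)).eval 0) =
      (-(ps N φ a ⬝ᵥ x a)) • ξ a := by
    funext i
    simp only [Pi.smul_apply, smul_eq_mul, Polynomial.eval_add, Polynomial.eval_mul, Polynomial.eval_C,
      Polynomial.eval_X, mul_zero, zero_add]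
  beta_reduce
  rw [e1, e2, tr_smul_left, tr_smul_right]
  congr 1
  simp only [Pi.smul_apply, smul_eq_mul]
  ring

/-- the pairings as functions -/
noncomputable def fc (N : Tp n) (v φ : Tv n) (a : Fin r) (c : ℂ) : ℂ := φ a ⬝ᵥ (E (N a) c *ᵥ v a)

/-- the square roots of the factors -/
noncomputable def mu (N : Tp n) (v φ : Tv n) (c s : ℂ) (a : Fin r) : ℂ :=
  kk N v φ a * (1 + s * fc N v φ a c) * (1 - s * fc N v φ a (-c))

lemma top_E (hS : BH N v φ S) (a : Fin r) (c : ℂ) (x : Fin (n a) → ℂ) :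
    N a ^ (n a - 1) *ᵥ (E (N a) c *ᵥ x) = N a ^ (n a - 1) *ᵥ x := by
  rw [mulVec_mulVec]
  have h1 : N a ^ (n a - 1) * E (N a) c = E (N a) c * N a ^ (n a - 1) := by
    unfold E
    rw [Finset.mul_sum, Finset.sum_mul]
    refine Finset.sum_congr rfl fun i _ => ?_
    rw [mul_smul_comm, smul_mul_assoc, ← pow_add, ← pow_add, add_comm]
  rw [h1, ← mulVec_mulVec]
  exact E_top (hS.nil a) c x

/-- **stability under the squares** -/
lemma stab (hS : BH N v φ S) {J : Finset (Fin r)} {m : ℕ} (hmJ : ∀ a ∈ J, n a ≤ m)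
    (hT : ∀ s : ℂ, TT v φ (fun a => if a ∈ J then s else 0) ∈ S) (c s : ℂ) {κ : Fin r → ℂ}
    (hκ : κ ∈ KK S (ee N v) (ps N φ) (ps_ee hS)) (hκJ : ∀ a, κ a ≠ 0 → a ∈ J ∧ n a = m) :
    (fun a => κ a * mu N v φ c s a ^ 2) ∈ KK S (ee N v) (ps N φ) (ps_ee hS) := by
  classical
  set x : Tv n := fun a => E (N a) c *ᵥ v a + (s * fc N v φ a c) • v a with hx
  set ξ : Tv n := fun a => φ a ᵥ* E (N a) (-c) + ((-s) * fc N v φ a (-c)) • φ a with hξ
  have hEE : ∀ a, E (N a) (-c) * E (N a) c = 1 := fun a => by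
    have := E_mul_neg (hS.nil a) (-c)
    rwa [neg_neg] at this
  have hdual : ∀ a, φ a ᵥ* E (N a) (-c) ⬝ᵥ v a = fc N v φ a (-c) := fun a => by
    rw [← dotProduct_mulVec]
    rfl
  have hxξ : ∀ a, ξ a ⬝ᵥ x a = 0 := by
    intro a
    rw [hx, hξ]
    simp only
    rw [add_dotProduct, dotProduct_add, dotProduct_add, dotProduct_smul, dotProduct_smul, smul_dotProduct, smul_dotProduct,
      hdual, hS.zero a, ← dotProduct_mulVec, mulVec_mulVec, hEE, one_mulVec, hS.zero a]
    have : φ a ⬝ᵥ E (N a) c *ᵥ v a = fc N v φ a c := rfl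
    rw [this]
    simp only [smul_eq_mul]
    ring
  have hJx : ∀ t : ℂ, TT x ξ (fun a => if a ∈ J then t else 0) ∈ S := by
    intro t
    have h1 : TT x ξ (fun a => if a ∈ J then t else 0) = TT v φ (fun a => if a ∈ J then s else 0) *
        TT (fun a => E (N a) c *ᵥ v a) (fun a => φ a ᵥ* E (N a) (-c)) (fun a => if a ∈ J then t else 0) *
        TT v φ (fun a => if a ∈ J then -s else 0) := by
      funext a
      show tr (x a) (ξ a) (if a ∈ J then t else 0) = tr (v a) (φ a) (if a ∈ J then s else 0) *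
        tr (E (N a) c *ᵥ v a) (φ a ᵥ* E (N a) (-c)) (if a ∈ J then t else 0) * tr (v a) (φ a) (if a ∈ J then -s else 0)
      split_ifs with h
      · rw [tr_conj (tr_mul_neg (hS.zero a) _), tr_mulVec, vecMul_tr, hdual]
        rfl
      · rw [tr_zero, tr_zero, tr_zero, mul_one, mul_one]
    rw [h1]
    exact mul_mem (mul_mem (hT _) (TT_E hS c (hT _))) (hT _)
  have h1 := quad hS hxξ hJx (fun a ha => (hκJ a ha).1) hκ
  have h2 := lead hS hxξ (m := m) (fun a ha => hmJ a (hκJ a (left_ne_zero_of_mul ha)).1) h1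
  refine (congrArg (· ∈ KK S (ee N v) (ps N φ) (ps_ee hS)) ?_).mp h2
  funext a
  by_cases h : κ a = 0
  · rw [h, zero_mul, zero_mul, zero_mul, zero_div, ite_self]
  · rw [if_pos (hκJ a h).2]
    have e1 : ps N φ a ⬝ᵥ x a = kk N v φ a * (1 + s * fc N v φ a c) := by
      rw [ps_dot, hx]
      simp only
      rw [mulVec_add, mulVec_smul, top_E hS, dotProduct_add, dotProduct_smul]
      unfold kk
      rw [smul_eq_mul]
      ring
    have e2 : ξ a ⬝ᵥ ee N v a = kk N v φ a * (1 - s * fc N v φ a (-c)) := by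
      rw [hξ]
      simp only
      rw [add_dotProduct, smul_dotProduct, ← dotProduct_mulVec]
      unfold ee
      rw [E_top (hS.nil a), smul_eq_mul]
      unfold kk
      ring
    rw [e1, e2]
    have := hS.reg a
    have hk : kk N v φ a ≠ 0 := this
    unfold mu
    field_simp

/-- **isolation of a component** -/
lemma isolate (hS : BH N v φ S) {J : Finset (Fin r)} {m : ℕ} (hmJ : ∀ a ∈ J, n a ≤ m)
    (hT : ∀ s : ℂ, TT v φ (fun a => if a ∈ J then s else 0) ∈ S) {a₀ : Fin r} (ha₀ : a₀ ∈ J) (hm : n a₀ = m)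
    (hsep : ∀ b ∈ J, b ≠ a₀ → n b = m → ∃ c s, mu N v φ c s a₀ ^ 2 ≠ mu N v φ c s b ^ 2) (t : ℂ) :
    Pi.mulSingle a₀ (tr (ee N v a₀) (ps N φ a₀) t) ∈ S := by
  classical
  have hkk : ∀ a, kk N v φ a ≠ 0 := hS.reg
  have hind : ∀ A : Finset (Fin r), ∃ κ ∈ KK S (ee N v) (ps N φ) (ps_ee hS), κ a₀ ≠ 0 ∧
      (∀ a, κ a ≠ 0 → a ∈ J ∧ n a = m) ∧ ∀ b ∈ A, b ≠ a₀ → κ b = 0 := by
    intro A
    induction A using Finset.induction_on with
    | empty =>
      have h1 : (fun a => if a ∈ J then (1 : ℂ) else 0) ∈ KK S v φ hS.zero := by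
        rw [mem_KK]
        intro s
        refine (congrArg (· ∈ S) ?_).mp (hT s)
        unfold TT
        funext a
        congr 1
        simp only [Pi.smul_apply, smul_eq_mul, mul_ite, mul_one, mul_zero]
      have h2 := lead hS hS.zero (m := m) (fun a ha => hmJ a (by
        by_contra h
        exact ha (if_neg h))) h1
      refine ⟨_, h2, ?_, fun a ha => ?_, fun b hb => absurd hb (Finset.notMem_empty b)⟩
      · rw [if_pos hm, if_pos ha₀, one_mul, ps_dot]
        exact div_ne_zero (mul_ne_zero (hkk _) (hkk _)) (pow_ne_zero _ (hkk _))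
      · by_cases h3 : n a = m
        · rw [if_pos h3] at ha
          by_cases h4 : a ∈ J
          · exact ⟨h4, h3⟩
          · rw [if_neg h4, zero_mul, zero_div] at ha
            exact absurd rfl ha
        · rw [if_neg h3] at ha
          exact absurd rfl ha
    | insert b A hb ih =>
      obtain ⟨κ, hκ, h0, hκJ, hz⟩ := ih
      by_cases hbz : b = a₀ ∨ κ b = 0
      · refine ⟨κ, hκ, h0, hκJ, fun b' hb' hne => ?_⟩
        rcases Finset.mem_insert.1 hb' with h | h
        · subst h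
          exact hbz.resolve_left hne
        · exact hz b' h hne
      · push Not at hbz
        obtain ⟨c, s, hcs⟩ := hsep b (hκJ b hbz.2).1 hbz.1 (hκJ b hbz.2).2
        have h1 := stab hS hmJ hT c s hκ hκJ
        have h2 := (KK S (ee N v) (ps N φ) (ps_ee hS)).sub_mem h1
          ((KK S (ee N v) (ps N φ) (ps_ee hS)).smul_mem (mu N v φ c s b ^ 2) hκ)
        refine ⟨_, h2, ?_, fun a ha => ?_, fun b' hb' hne => ?_⟩
        · have e1 : ((fun a => κ a * mu N v φ c s a ^ 2) - mu N v φ c s b ^ 2 • κ) a₀ =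
              κ a₀ * (mu N v φ c s a₀ ^ 2 - mu N v φ c s b ^ 2) := by
            simp only [Pi.sub_apply, Pi.smul_apply, smul_eq_mul]
            ring
          rw [e1]
          exact mul_ne_zero h0 (sub_ne_zero.2 hcs)
        · refine hκJ a fun h3 => ha ?_
          show κ a * mu N v φ c s a ^ 2 - mu N v φ c s b ^ 2 * κ a = 0
          rw [h3]
          ring
        · show κ b' * mu N v φ c s b' ^ 2 - mu N v φ c s b ^ 2 * κ b' = 0
          rcases Finset.mem_insert.1 hb' with h | h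
          · subst h
            ring
          · rw [hz b' h hne]
            ring
  obtain ⟨κ, hκ, h0, -, hz⟩ := hind Finset.univ
  have h1 := hκ (t * (κ a₀)⁻¹)
  refine (congrArg (· ∈ S) ?_).mp h1
  funext a
  by_cases h : a = a₀
  · subst h
    rw [Pi.mulSingle_eq_same]
    show tr (ee N v a) (ps N φ a) (t * (κ a)⁻¹ * κ a) = _
    rw [inv_mul_cancel_right₀ h0]
  · rw [Pi.mulSingle_eq_of_ne h]
    show tr (ee N v a) (ps N φ a) (t * (κ a₀)⁻¹ * κ a) = _
    rw [hz a (Finset.mem_univ _) h, mul_zero, tr_zero]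

/-- separation of the factors -/
lemma sep_mu (hS : BH N v φ S) {a b : Fin r} (h1 : ∃ c, fc N v φ a c ≠ fc N v φ b c)
    (h2 : ∃ c, fc N v φ a c ≠ -fc N v φ b (-c)) : ∃ c s, mu N v φ c s a ^ 2 ≠ mu N v φ c s b ^ 2 := by
  by_contra hcon
  push Not at hcon
  have hka : kk N v φ a ≠ 0 := hS.reg a
  have hkb : kk N v φ b ≠ 0 := hS.reg b
  have h0 : kk N v φ a ^ 2 = kk N v φ b ^ 2 := by
    have := hcon 0 0
    unfold mu at this
    simpa using this
  have h3 : ∀ c s, ((1 + s * fc N v φ a c) * (1 - s * fc N v φ a (-c))) ^ 2 =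
      ((1 + s * fc N v φ b c) * (1 - s * fc N v φ b (-c))) ^ 2 := by
    intro c s
    have := hcon c s
    unfold mu at this
    have h4 : kk N v φ a ^ 2 ≠ 0 := pow_ne_zero _ hka
    refine mul_left_cancel₀ h4 ?_
    calc kk N v φ a ^ 2 * ((1 + s * fc N v φ a c) * (1 - s * fc N v φ a (-c))) ^ 2 =
        (kk N v φ a * (1 + s * fc N v φ a c) * (1 - s * fc N v φ a (-c))) ^ 2 := by ring
      _ = (kk N v φ b * (1 + s * fc N v φ b c) * (1 - s * fc N v φ b (-c))) ^ 2 := this
      _ = kk N v φ b ^ 2 * ((1 + s * fc N v φ b c) * (1 - s * fc N v φ b (-c))) ^ 2 := by ring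
      _ = _ := by rw [h0]
  have h4 : ∀ c, (fc N v φ a c - fc N v φ b c) * (fc N v φ a c + fc N v φ b (-c)) = 0 := by
    intro c
    have a1 := h3 c 1
    have a2 := h3 c (-1)
    have a3 := h3 c 2
    have a4 := h3 c (-2)
    set A := fc N v φ a c
    set A' := fc N v φ a (-c)
    set B := fc N v φ b c
    set B' := fc N v φ b (-c)
    have hp : A - A' = B - B' := by
      linear_combination (1 / 24 : ℂ) * (8 * (a1 - a2) - (a3 - a4))
    have hU : (A - A') ^ 2 - 2 * (A * A') = (B - B') ^ 2 - 2 * (B * B') := by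
      linear_combination (1 / 24 : ℂ) * (16 * (a1 + a2) - (a3 + a4))
    have hq : A * A' = B * B' := by
      linear_combination (-1 / 2 : ℂ) * hU + (1 / 2 : ℂ) * ((A - A') + (B - B')) * hp
    linear_combination A * hp + hq
  -- polynomials
  set Fa := Pool.Agent.Y119.HY.pl (N a) (v a) (lf (φ a)) with hFa
  set Fb := Pool.Agent.Y119.HY.pl (N b) (v b) (lf (φ b)) with hFb
  have ea : ∀ c, Fa.eval c = fc N v φ a c := fun c => Pool.Agent.Y119.HY.pl_eval _ _ c
  have eb : ∀ c, Fb.eval c = fc N v φ b c := fun c => Pool.Agent.Y119.HY.pl_eval _ _ c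
  have h5 : (Fa - Fb) * (Fa + Fb.comp (-Polynomial.X)) = 0 := Polynomial.funext fun c => by
    rw [Polynomial.eval_mul, Polynomial.eval_sub, Polynomial.eval_add, Polynomial.eval_comp, Polynomial.eval_neg,
      Polynomial.eval_X, ea, eb, eb, Polynomial.eval_zero]
    exact h4 c
  rcases mul_eq_zero.1 h5 with h6 | h6
  · obtain ⟨c, hc⟩ := h1
    apply hc
    rw [← ea, ← eb, sub_eq_zero.1 h6]
  · obtain ⟨c, hc⟩ := h2
    apply hc
    have h7 := congrArg (Polynomial.eval c) h6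
    rw [Polynomial.eval_add, Polynomial.eval_comp, Polynomial.eval_neg, Polynomial.eval_X, ea, eb, Polynomial.eval_zero] at h7
    linear_combination h7

/-- the component -/
def Sa (S : Submonoid (Tp n)) (a : Fin r) : Submonoid (Matrix (Fin (n a)) (Fin (n a)) ℂ) :=
  S.comap (MonoidHom.mulSingle (fun a => Matrix (Fin (n a)) (Fin (n a)) ℂ) a)

lemma mem_Sa {a : Fin r} {g : Matrix (Fin (n a)) (Fin (n a)) ℂ} : g ∈ Sa S a ↔ Pi.mulSingle a g ∈ S := Iff.rfl

/-- **Density.** -/
theorem prod_all (hS : BH N v φ S) (hT : ∀ s : ℂ, (fun a => tr (v a) (φ a) s) ∈ S)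
    (hodd : ∀ a, ∃ c, fc N v φ a (-c) ≠ -fc N v φ a c)
    (hsep : ∀ a b, a ≠ b → n a = n b → (∃ c, fc N v φ a c ≠ fc N v φ b c) ∧ ∃ c, fc N v φ a c ≠ -fc N v φ b (-c))
    (g : Tp n) (hg : ∀ a, (g a).det = 1) : g ∈ S := by
  classical
  have hmain : ∀ d : ℕ, ∀ J : Finset (Fin r), J.card ≤ d → (∀ s : ℂ, TT v φ (fun a => if a ∈ J then s else 0) ∈ S) →
      ∀ a ∈ J, ∀ h : Matrix (Fin (n a)) (Fin (n a)) ℂ, h.det = 1 → Pi.mulSingle a h ∈ S := by
    intro d
    induction d with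
    | zero =>
      intro J hJ _ a ha
      rw [Nat.le_zero, Finset.card_eq_zero] at hJ
      rw [hJ] at ha
      exact absurd ha (Finset.notMem_empty a)
    | succ d ih =>
      intro J hJ hTJ
      rcases J.eq_empty_or_nonempty with he | hne
      · intro a ha
        rw [he] at ha
        exact absurd ha (Finset.notMem_empty a)
      obtain ⟨a₀, ha₀, hmax⟩ := Finset.exists_max_image J n hne
      -- the component with the largest size
      have hiso := isolate hS (m := n a₀) hmax hTJ ha₀ rfl (fun b _ hb hnb =>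
        sep_mu hS (hsep a₀ b (Ne.symm hb) hnb.symm).1 (hsep a₀ b (Ne.symm hb) hnb.symm).2)
      have hcE : ∀ c : ℂ, Nm (Sa S a₀) (E (N a₀) c) (E (N a₀) (-c)) := by
        intro c
        refine ⟨E_mul_neg (hS.nil a₀) c, fun k hk => ?_⟩
        rw [mem_Sa] at hk ⊢
        have h1 := hS.conj c _ hk
        refine (congrArg (· ∈ S) ?_).mp h1
        funext a
        by_cases h : a = a₀
        · subst h
          rw [Pi.mulSingle_eq_same, Pi.mulSingle_eq_same]
        · rw [Pi.mulSingle_eq_of_ne h, Pi.mulSingle_eq_of_ne h, mul_one, E_mul_neg (hS.nil a)]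
      have hcT : ∀ s : ℂ, Nm (Sa S a₀) (tr (v a₀) (φ a₀) s) (tr (v a₀) (φ a₀) (-s)) := by
        intro s
        refine ⟨tr_mul_neg (hS.zero a₀) s, fun k hk => ?_⟩
        rw [mem_Sa] at hk ⊢
        have h1 := mul_mem (mul_mem (hTJ s) hk) (hTJ (-s))
        refine (congrArg (· ∈ S) ?_).mp h1
        funext a
        show tr (v a) (φ a) (if a ∈ J then s else 0) * (Pi.mulSingle a₀ k : Tp n) a *
          tr (v a) (φ a) (if a ∈ J then -s else 0) = _
        by_cases h : a = a₀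
        · subst h
          rw [Pi.mulSingle_eq_same, Pi.mulSingle_eq_same, if_pos ha₀, if_pos ha₀]
        · rw [Pi.mulSingle_eq_of_ne h, Pi.mulSingle_eq_of_ne h, mul_one]
          split_ifs
          · exact tr_mul_neg (hS.zero a) s
          · rw [tr_zero, mul_one]
      have hsl : ∀ h : Matrix (Fin (n a₀)) (Fin (n a₀)) ℂ, h.det = 1 → Pi.mulSingle a₀ h ∈ S := fun h hh =>
        sl_all (S := Sa S a₀) (hS.hn a₀) (hS.nil a₀) (hS.zero a₀) (hS.reg a₀) hcE hcT
          ⟨ps_ee hS a₀, fun s => hiso s⟩ (hodd a₀) h hh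
      -- the other components
      have hTe : ∀ s : ℂ, TT v φ (fun a => if a ∈ J.erase a₀ then s else 0) ∈ S := by
        intro s
        have h1 := mul_mem (hTJ s) (hsl (tr (v a₀) (φ a₀) (-s)) (by
          unfold tr
          rw [← smul_vecMulVec, vecMulVec_eq (ι := Unit), Matrix.det_one_add_replicateCol_mul_replicateRow, dotProduct_smul,
            hS.zero a₀, smul_zero, add_zero]))
        refine (congrArg (· ∈ S) ?_).mp h1
        funext a
        show tr (v a) (φ a) (if a ∈ J then s else 0) * (Pi.mulSingle a₀ (tr (v a₀) (φ a₀) (-s)) : Tp n) a =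
          tr (v a) (φ a) (if a ∈ J.erase a₀ then s else 0)
        by_cases h : a = a₀
        · subst h
          rw [Pi.mulSingle_eq_same, if_pos ha₀, if_neg (Finset.notMem_erase a J), tr_mul_neg (hS.zero a), tr_zero]
        · rw [Pi.mulSingle_eq_of_ne h, mul_one]
          congr 1
          simp only [Finset.mem_erase, ne_eq, h, not_false_eq_true, true_and]
      intro a ha h hh
      by_cases hne : a = a₀
      · subst hne
        exact hsl h hh
      · exact ih (J.erase a₀) (by rw [Finset.card_erase_of_mem ha₀]; omega) hTe a (Finset.mem_erase.2 ⟨hne, ha⟩) h hh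
  have hall : ∀ a, ∀ h : Matrix (Fin (n a)) (Fin (n a)) ℂ, h.det = 1 → Pi.mulSingle a h ∈ S := fun a h hh =>
    hmain _ Finset.univ le_rfl (fun s => by
      refine (congrArg (· ∈ S) ?_).mp (hT s)
      funext a
      show _ = tr (v a) (φ a) (if a ∈ Finset.univ then s else 0)
      rw [if_pos (Finset.mem_univ a)]) a (Finset.mem_univ a) h hh
  -- products
  have hprod : ∀ A : Finset (Fin r), (fun a => if a ∈ A then g a else 1) ∈ S := by
    intro A
    induction A using Finset.induction_on with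
    | empty =>
      simp only [Finset.notMem_empty, if_false]
      exact one_mem S
    | insert b A hb ih =>
      have h1 := mul_mem (hall b (g b) (hg b)) ih
      refine (congrArg (· ∈ S) ?_).mp h1
      funext a
      show (Pi.mulSingle b (g b) : Tp n) a * (if a ∈ A then g a else 1) = _
      by_cases h : a = b
      · subst h
        rw [Pi.mulSingle_eq_same, if_neg hb, mul_one, if_pos (Finset.mem_insert_self _ _)]
      · rw [Pi.mulSingle_eq_of_ne h, one_mul]
        simp only [Finset.mem_insert, h, false_or]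
  have h1 := hprod Finset.univ
  simp only [Finset.mem_univ, if_true] at h1
  exact h1

end Pool.Agent.E8helper43.HS
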