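import Pool.Agent.E8helper43.HS.GGi
import Pool.Agent.E8helper43.HS.BG

/-!
# Direct sums of systems
-/

set_option autoImplicit false
set_option maxHeartbeats 4000000

open Filter Topology Matrix PowerSeries

namespace Pool.Agent.E8helper43.HS

open Pool.Agent.Y113 (SDc)
open Pool.Agent.Y119.HY (cm Sol Hf Ep E Ep_eval E_neg E_zero E_mul_neg E_add Yf Rel Gal Am Bm kx aq hq Hq uc Ac_nil Lens
  mem_Lens real_mem_Lens exists_sol conj_mem_Gal)
open Pool.Agent.Y119.HZ (ix evq)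

variable {r : ℕ} {n : Fin r → ℕ}

/-- block diagonal matrices -/
def blk {R : Type*} [Zero R] (g : ∀ a, Matrix (Fin (n a)) (Fin (n a)) R) :
    Matrix (Fin (∑ a, n a)) (Fin (∑ a, n a)) R :=
  (Matrix.blockDiagonal' g).submatrix finSigmaFinEquiv.symm finSigmaFinEquiv.symm

section basic

variable {R : Type*}

lemma blk_eq [Zero R] (g : ∀ a, Matrix (Fin (n a)) (Fin (n a)) R) (a : Fin r) (i j : Fin (n a)) :
    blk g (finSigmaFinEquiv ⟨a, i⟩) (finSigmaFinEquiv ⟨a, j⟩) = g a i j := by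
  unfold blk
  rw [Matrix.submatrix_apply, Equiv.symm_apply_apply, Equiv.symm_apply_apply, blockDiagonal'_apply_eq]

lemma blk_ne [Zero R] (g : ∀ a, Matrix (Fin (n a)) (Fin (n a)) R) {a b : Fin r} (h : a ≠ b) (i : Fin (n a)) (j : Fin (n b)) :
    blk g (finSigmaFinEquiv ⟨a, i⟩) (finSigmaFinEquiv ⟨b, j⟩) = 0 := by
  unfold blk
  rw [Matrix.submatrix_apply, Equiv.symm_apply_apply, Equiv.symm_apply_apply, blockDiagonal'_apply_ne _ _ _ h]

/-- equality of matrices with values given on blocks -/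
lemma blk_ext {M M' : Matrix (Fin (∑ a, n a)) (Fin (∑ a, n a)) R}
    (h1 : ∀ a (i j : Fin (n a)), M (finSigmaFinEquiv ⟨a, i⟩) (finSigmaFinEquiv ⟨a, j⟩) =
      M' (finSigmaFinEquiv ⟨a, i⟩) (finSigmaFinEquiv ⟨a, j⟩))
    (h2 : ∀ a b, a ≠ b → ∀ (i : Fin (n a)) (j : Fin (n b)), M (finSigmaFinEquiv ⟨a, i⟩) (finSigmaFinEquiv ⟨b, j⟩) =
      M' (finSigmaFinEquiv ⟨a, i⟩) (finSigmaFinEquiv ⟨b, j⟩)) : M = M' := by
  ext p q
  obtain ⟨⟨a, i⟩, rfl⟩ := finSigmaFinEquiv.surjective p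
  obtain ⟨⟨b, j⟩, rfl⟩ := finSigmaFinEquiv.surjective q
  by_cases h : a = b
  · subst h
    exact h1 a i j
  · exact h2 a b h i j

lemma blk_one [MulZeroOneClass R] : blk (1 : ∀ a, Matrix (Fin (n a)) (Fin (n a)) R) = 1 := by
  unfold blk
  rw [blockDiagonal'_one]
  exact Matrix.submatrix_one_equiv _

lemma blk_zero [Zero R] : blk (0 : ∀ a, Matrix (Fin (n a)) (Fin (n a)) R) = 0 := by
  unfold blk
  rw [blockDiagonal'_zero]
  rfl

lemma blk_mul [NonUnitalNonAssocSemiring R] (g h : ∀ a, Matrix (Fin (n a)) (Fin (n a)) R) :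
    blk (fun a => g a * h a) = blk g * blk h := by
  unfold blk
  rw [blockDiagonal'_mul, Matrix.submatrix_mul_equiv]

lemma blk_add [AddZeroClass R] (g h : ∀ a, Matrix (Fin (n a)) (Fin (n a)) R) : blk (fun a => g a + h a) = blk g + blk h := by
  unfold blk
  have := blockDiagonal'_add g h
  have e : (fun a => g a + h a) = g + h := rfl
  rw [e, this]
  rfl

lemma blk_sub [AddGroup R] (g h : ∀ a, Matrix (Fin (n a)) (Fin (n a)) R) : blk (fun a => g a - h a) = blk g - blk h := by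
  unfold blk
  have := blockDiagonal'_sub g h
  have e : (fun a => g a - h a) = g - h := rfl
  rw [e, this]
  rfl

lemma blk_neg [AddGroup R] (g : ∀ a, Matrix (Fin (n a)) (Fin (n a)) R) : blk (fun a => -g a) = -blk g := by
  unfold blk
  have := blockDiagonal'_neg g
  have e : (fun a => -g a) = -g := rfl
  rw [e, this]
  rfl

lemma blk_smul {K : Type*} [Zero R] [SMulZeroClass K R] (x : K) (g : ∀ a, Matrix (Fin (n a)) (Fin (n a)) R) :
    blk (fun a => x • g a) = x • blk g := by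
  unfold blk
  have := blockDiagonal'_smul x g
  have e : (fun a => x • g a) = x • g := rfl
  rw [e, this]
  rfl

lemma blk_pow [Semiring R] (g : ∀ a, Matrix (Fin (n a)) (Fin (n a)) R) (k : ℕ) : blk (fun a => g a ^ k) = blk g ^ k := by
  induction k with
  | zero =>
    simp only [pow_zero]
    exact blk_one
  | succ k ih =>
    simp only [pow_succ]
    rw [blk_mul, ih]

lemma blk_map {R' : Type*} [Zero R] [Zero R'] (g : ∀ a, Matrix (Fin (n a)) (Fin (n a)) R) (f : R → R') (hf : f 0 = 0) :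
    (blk g).map f = blk fun a => (g a).map f := by
  unfold blk
  rw [← blockDiagonal'_map g f hf]
  rfl

lemma blk_sum {ι : Type*} [AddCommMonoid R] (s : Finset ι) (g : ι → ∀ a, Matrix (Fin (n a)) (Fin (n a)) R) :
    blk (fun a => ∑ i ∈ s, g i a) = ∑ i ∈ s, blk (g i) := by
  classical
  induction s using Finset.induction_on with
  | empty =>
    simp only [Finset.sum_empty]
    exact blk_zero
  | insert a s ha ih =>
    simp only [Finset.sum_insert ha]
    rw [blk_add, ih]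

end basic

/-- nilpotency -/
lemma blk_nil {R : Type*} [Semiring R] {N : ∀ a, Matrix (Fin (n a)) (Fin (n a)) R} (h : ∀ a, N a ^ n a = 0) :
    blk N ^ (∑ a, n a) = 0 := by
  rw [← blk_pow]
  have : (fun a => N a ^ (∑ a, n a)) = 0 := funext fun a =>
    pow_eq_zero_of_le (Finset.single_le_sum (f := n) (fun _ _ => Nat.zero_le _) (Finset.mem_univ a)) (h a)
  rw [this, blk_zero]

lemma E_ext {m M : ℕ} {N : Matrix (Fin m) (Fin m) ℂ} (hN : N ^ m = 0) (h : m ≤ M) (s : ℂ) :
    ∑ l ∈ Finset.range M, (s ^ l / (l.factorial : ℂ)) • N ^ l = E N s := by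
  unfold E
  refine (Finset.sum_subset (Finset.range_subset_range.2 h) fun l _ hl => ?_).symm
  rw [Finset.mem_range, not_lt] at hl
  rw [pow_eq_zero_of_le hl hN, smul_zero]

/-- exponentials -/
lemma blk_E {N : ∀ a, Matrix (Fin (n a)) (Fin (n a)) ℂ} (h : ∀ a, N a ^ n a = 0) (s : ℂ) :
    E (blk N) s = blk fun a => E (N a) s := by
  have h1 : (fun a => E (N a) s) = fun a => ∑ l ∈ Finset.range (∑ a, n a), (s ^ l / (l.factorial : ℂ)) • N a ^ l :=
    funext fun a => (E_ext (h a) (Finset.single_le_sum (f := n) (fun _ _ => Nat.zero_le _) (Finset.mem_univ a)) s).symm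
  rw [h1, blk_sum (Finset.range (∑ a, n a)) (fun l a => (s ^ l / (l.factorial : ℂ)) • N a ^ l)]
  unfold E
  refine Finset.sum_congr rfl fun l _ => ?_
  rw [← blk_pow, ← blk_smul]

/-- solutions -/
lemma blk_sol {N0 N1 : ∀ a, Matrix (Fin (n a)) (Fin (n a)) ℂ} {H : ∀ a, ℕ → Matrix (Fin (n a)) (Fin (n a)) ℂ}
    (h : ∀ a, Sol (N0 a) (N1 a) (H a)) : Sol (blk N0) (blk N1) fun k => blk fun a => H a k := by
  refine ⟨?_, fun k => ?_⟩
  · have : (fun a => H a 0) = 1 := funext fun a => (h a).zero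
    rw [this, blk_one]
  · have h1 : (fun a => ((k : ℂ) + 1) • H a (k + 1) + (H a (k + 1) * N0 a - N0 a * H a (k + 1))) =
      fun a => (k : ℂ) • H a k + (H a k * N0 a - N0 a * H a k) + N1 a * H a k := funext fun a => (h a).step k
    have h2 := congrArg blk h1
    rw [blk_add, blk_smul, blk_sub, blk_mul, blk_mul] at h2
    rw [h2, blk_add, blk_add, blk_smul, blk_sub, blk_mul, blk_mul, blk_mul]

/-- values -/
lemma blk_Hf (H : ∀ a, ℕ → Matrix (Fin (n a)) (Fin (n a)) ℂ) (z : ℂ) :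
    Hf (fun k => blk fun a => H a k) z = blk fun a => Hf (H a) z := by
  refine blk_ext (fun a i j => ?_) fun a b h i j => ?_
  · rw [blk_eq]
    unfold Hf
    rw [Matrix.of_apply, Matrix.of_apply]
    congr 1
    funext k
    exact blk_eq (fun a => H a k) a i j
  · rw [blk_ne _ h]
    unfold Hf
    rw [Matrix.of_apply]
    unfold Pool.Agent.Y119.HY.ps
    have : ∀ k : ℕ, blk (fun a => H a k) (finSigmaFinEquiv ⟨a, i⟩) (finSigmaFinEquiv ⟨b, j⟩) * z ^ k = 0 := fun k => by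
      rw [blk_ne _ h, zero_mul]
    simp only [this, tsum_zero]

lemma blk_Yf {N0 : ∀ a, Matrix (Fin (n a)) (Fin (n a)) ℂ} (hN : ∀ a, N0 a ^ n a = 0)
    (H : ∀ a, ℕ → Matrix (Fin (n a)) (Fin (n a)) ℂ) (z : ℂ) :
    Yf (blk N0) (fun k => blk fun a => H a k) z = blk fun a => Yf (N0 a) (H a) z := by
  unfold Yf
  rw [blk_Hf, blk_E hN, ← blk_mul]

/-! ### rational matrices -/

lemma nq_blk (N : ∀ a, Matrix (Fin (n a)) (Fin (n a)) ℤ) : nq (blk N) = blk fun a => nq (N a) :=
  blk_map N (Int.castRingHom ℚ) (map_zero _)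

lemma cm_blk (N : ∀ a, Matrix (Fin (n a)) (Fin (n a)) ℚ) : cm (blk N) = blk fun a => cm (N a) :=
  blk_map N (algebraMap ℚ ℂ) (map_zero _)

lemma mp_blk (H : ∀ a, ℕ → Matrix (Fin (n a)) (Fin (n a)) ℚ) :
    mp (fun k => blk fun a => H a k) = blk fun a => mp (H a) := by
  refine blk_ext (fun a i j => ?_) fun a b h i j => ?_
  · rw [blk_eq]
    unfold mp
    rw [Matrix.of_apply, Matrix.of_apply]
    congr 1
    funext k
    exact blk_eq (fun a => H a k) a i j
  · rw [blk_ne _ h]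
    unfold mp
    rw [Matrix.of_apply]
    ext k
    rw [coeff_mk]
    exact (blk_ne (fun a => H a k) h i j).trans (map_zero _).symm

lemma SDc_zero : SDc (0 : ℚ⟦X⟧) := by
  have := SDc.int 0
  rwa [Int.cast_zero] at this

lemma sdc_blk {W : ∀ a, Matrix (Fin (n a)) (Fin (n a)) ℚ⟦X⟧} (h : ∀ a i j, SDc (W a i j)) (p q : Fin (∑ a, n a)) :
    SDc (blk W p q) := by
  obtain ⟨⟨a, i⟩, rfl⟩ := finSigmaFinEquiv.surjective p
  obtain ⟨⟨b, j⟩, rfl⟩ := finSigmaFinEquiv.surjective q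
  by_cases hab : a = b
  · subst hab
    rw [blk_eq]
    exact h a i j
  · rw [blk_ne _ hab]
    exact SDc_zero

/-- **direct sums of systems of G-functions** -/
theorem gs_blk {N : ∀ a, Matrix (Fin (n a)) (Fin (n a)) ℤ} {B : ∀ a, Matrix (Fin (n a)) (Fin (n a)) ℚ}
    {H : ∀ a, ℕ → Matrix (Fin (n a)) (Fin (n a)) ℚ} (h : ∀ a, GS (N a) (B a) (H a)) :
    GS (blk N) (blk B) fun k => blk fun a => H a k := by
  refine ⟨blk_nil fun a => (h a).nil, ?_, fun k => ?_, fun p q => ?_, ?_⟩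
  · have : (fun a => H a 0) = 1 := funext fun a => (h a).zero
    rw [this, blk_one]
  · rw [nq_blk]
    have h1 : (fun a => ((k : ℚ) + 1) • H a (k + 1) + (H a (k + 1) * nq (N a) - nq (N a) * H a (k + 1))) =
      fun a => (k : ℚ) • H a k + (H a k * nq (N a) - nq (N a) * H a k) + B a * H a k := funext fun a => (h a).step k
    have h2 := congrArg blk h1
    rw [blk_add, blk_smul, blk_sub, blk_mul, blk_mul] at h2
    rw [h2, blk_add, blk_add, blk_smul, blk_sub, blk_mul, blk_mul, blk_mul]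
  · rw [mp_blk]
    exact sdc_blk (fun a => (h a).sdc) p q
  · choose W hW hWs using fun a => (h a).inv
    refine ⟨blk W, ?_, sdc_blk hWs⟩
    rw [mp_blk, ← blk_mul]
    have : (fun a => mp (H a) * W a) = 1 := funext fun a => hW a
    rw [this, blk_one]

end Pool.Agent.E8helper43.HS
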