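import Pool.Agent.E8helper43.HS.BA

/-!
# Several hypergeometric systems: the relations are invariant under the product of the special linear groups
-/

set_option autoImplicit false
set_option maxHeartbeats 4000000

open Filter Topology Matrix

namespace Pool.Agent.E8helper43.HS

open Pool.Agent.Y119.HY (cm Sol Hf Ep E Ep_eval E_neg E_zero E_mul_neg E_add Yf Rel Gal Am Bm kx aq hq Hq uc Ac_nil Lens
  mem_Lens real_mem_Lens exists_sol conj_mem_Gal Ac_last ec pl pl_eval pl_coeff)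
open Pool.Agent.Y119.HZ (ix evq)

/-- the parameters agree modulo the integers, up to the order -/
def Eq2 {n m : ℕ} (β : Fin n → ℚ) (γ : Fin m → ℚ) : Prop := ∃ σ : Fin m ≃ Fin n, ∀ j, ∃ k : ℤ, β (σ j) - γ j = k

lemma Eqv.eq2 {n : ℕ} {β γ : Fin n → ℚ} (h : Eqv β γ) : Eq2 β γ := h

lemma Eq2.eqv {n : ℕ} {β γ : Fin n → ℚ} (h : Eq2 β γ) : Eqv β γ := h

/-- equal polynomials of pairings -/
lemma eq2_of_poly {n m : ℕ} (hnm : n = m) {β : Fin n → ℚ} {γ : Fin m → ℚ} (hβ : ∑ j, β j = 0) (hγ : ∑ j, γ j = 0)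
    {P R : PowerSeries ℂ} (hP : hs ^ n * P = tay (Sf β)) (hR : hs ^ m * R = tay (Sf γ)) {F G : Polynomial ℂ}
    (hF : ∀ l < n, F.coeff l = PowerSeries.coeff (n - 1 - l) P / (l.factorial : ℂ))
    (hG : ∀ l < m, G.coeff l = PowerSeries.coeff (m - 1 - l) R / (l.factorial : ℂ))
    (h : ∀ c, F.eval c = G.eval c) : Eq2 β γ := by
  subst hnm
  refine (eqv_of_coeff hβ hγ hP hR fun l hl => ?_).eq2
  have h1 : F = G := Polynomial.funext h
  have h2 := hF l hl
  rw [h1, hG l hl] at h2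
  have h3 : (l.factorial : ℂ) ≠ 0 := by exact_mod_cast l.factorial_ne_zero
  field_simp at h2
  exact h2.symm

/-- opposite polynomials of pairings -/
lemma opp_of_poly {n m : ℕ} (hnm : n = m) {β : Fin n → ℚ} {γ : Fin m → ℚ} (hβ : ∑ j, β j = 0) (hγ : ∑ j, γ j = 0)
    {P R : PowerSeries ℂ} (hP : hs ^ n * P = tay (Sf β)) (hR : hs ^ m * R = tay (Sf γ)) {F G : Polynomial ℂ}
    (hF : ∀ l < n, F.coeff l = PowerSeries.coeff (n - 1 - l) P / (l.factorial : ℂ))
    (hG : ∀ l < m, G.coeff l = PowerSeries.coeff (m - 1 - l) R / (l.factorial : ℂ))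
    (h : ∀ c, F.eval c = -G.eval (-c)) : Eq2 β fun j => -γ j := by
  subst hnm
  refine (opp_of_coeff hβ hγ hP hR fun l hl => ?_).eq2
  have h1 : F = -G.comp (Polynomial.C (-1) * Polynomial.X) := Polynomial.funext fun c => by
    rw [Polynomial.eval_neg, Polynomial.eval_comp, Polynomial.eval_mul, Polynomial.eval_C, Polynomial.eval_X, neg_one_mul]
    exact h c
  have h2 := congrArg (fun p => Polynomial.coeff p l) h1
  simp only [Polynomial.coeff_neg, Polynomial.comp_C_mul_X_coeff] at h2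
  rw [hF l hl, hG l hl] at h2
  have h3 : (l.factorial : ℂ) ≠ 0 := by exact_mod_cast l.factorial_ne_zero
  field_simp at h2
  linear_combination h2

variable {r : ℕ} {n : Fin r → ℕ}

/-- the tuples of matrices whose block diagonal matrices preserve the relations -/
def Sb (Y : ℂ → Matrix (Fin (∑ a, n a)) (Fin (∑ a, n a)) ℂ) : Submonoid (Tp n) where
  carrier := {g | blk g ∈ Gal Y}
  mul_mem' := fun {g h} hg hh => by
    show blk (fun a => g a * h a) ∈ Gal Y
    rw [blk_mul]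
    exact mul_mem hg hh
  one_mem' := by
    show blk (1 : Tp n) ∈ Gal Y
    rw [blk_one]
    exact one_mem _

lemma mem_Sb {Y : ℂ → Matrix (Fin (∑ a, n a)) (Fin (∑ a, n a)) ℂ} {g : Tp n} : g ∈ Sb Y ↔ blk g ∈ Gal Y := Iff.rfl

/-- the assumptions on the parameters -/
structure Hyp (β : ∀ a, Fin (n a) → ℚ) : Prop where
  bd : ∀ a, BD (β a)
  ns : ∀ a, ¬ Eq2 (β a) fun j => -β a j
  ne : ∀ a b, a ≠ b → ¬ Eq2 (β a) (β b)
  nop : ∀ a b, a ≠ b → ¬ Eq2 (β a) fun j => -β b j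

/-- the coefficients -/
noncomputable def HB (β : ∀ a, Fin (n a) → ℚ) (k : ℕ) : Matrix (Fin (∑ a, n a)) (Fin (∑ a, n a)) ℚ :=
  blk fun a => Hq (n a) (QL (β a)) k

lemma Hk_HB (β : ∀ a, Fin (n a) → ℚ) : Hk (HB β) = fun k => blk fun a => Hk (Hq (n a) (QL (β a))) k := by
  funext k
  exact cm_blk _

lemma cmA : cm (nq (blk fun a => An (n a))) = blk fun a => cm (Am (n a)) := by
  rw [nq_blk, cm_blk]
  congr 1
  funext a
  rw [nq_An]

/-- **All relations between the solutions are invariant under the product of the special linear groups.** -/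
theorem blk_gal {β : ∀ a, Fin (n a) → ℚ} (h : Hyp β) (g : Tp n) (hg : ∀ a, (g a).det = 1) :
    blk g ∈ Gal (Yf (cm (nq (blk fun a => An (n a)))) (Hk (HB β))) := by
  rw [cmA, Hk_HB]
  have hdata := fun a => data_one (h.bd a)
  choose v φ K M Mi P hφv hMMi hMiM hv hφ hK hY hpair hP using hdata
  have hQ := fun a => qg_of (h.bd a)
  have hA : ∀ a, cm (Am (n a)) ^ n a = 0 := fun a => Ac_nil
  have hH : ∀ a, Sol (cm (Am (n a))) (vecMulVec (uc (n a)) (qc (n a) (QL (β a)))) (Hk (Hq (n a) (QL (β a)))) := by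
    intro a
    have := sol_Hq (hQ a)
    rwa [cm_Bm'] at this
  set Y := Yf (blk fun a => cm (Am (n a))) (fun k => blk fun a => Hk (Hq (n a) (QL (β a))) k) with hYd
  have hqu : ∀ a, qc (n a) (QL (β a)) ⬝ᵥ uc (n a) = 0 := fun a => qc_uc (hQ a)
  have hB : ∀ a, (-vecMulVec (uc (n a)) (qc (n a) (QL (β a)))) ^ n a = 0 := fun a =>
    neg_nil (vv_pow (hqu a) (h.bd a).two)
  -- the polynomials of the pairings
  have hFd : ∀ a, ∃ F : Polynomial ℂ, (∀ c, F.eval c = fc (fun a => cm (Am (n a))) v φ a c) ∧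
      ∀ l < n a, F.coeff l = PowerSeries.coeff (n a - 1 - l) (P a) / (l.factorial : ℂ) := by
    intro a
    obtain ⟨F, hF1, hF2⟩ := fpoly (cm (Am (n a))) (v a) (φ a)
    exact ⟨F, hF1, fun l hl => by rw [hF2 l hl, hpair a l hl]⟩
  choose F hF1 hF2 using hFd
  have hreg : ∀ a, φ a ⬝ᵥ (cm (Am (n a)) ^ (n a - 1) *ᵥ v a) ≠ 0 := by
    intro a
    have := (h.bd a).two
    rw [hpair a (n a - 1) (by omega), Nat.sub_self]
    exact P0_ne (h.bd a) (hP a)
  have hBH : BH (fun a => cm (Am (n a))) v φ (Sb Y) := by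
    refine ⟨fun a => (h.bd a).two, hA, hφv, hreg, fun a x => ?_, fun c g hg => ?_, fun M' hM' => ?_⟩
    · have h1 := hreg a
      rw [Ac_last (h.bd a).two, dotProduct_smul, smul_eq_mul] at h1
      rw [Ac_last (h.bd a).two, Ac_last (h.bd a).two, dotProduct_smul, dotProduct_smul, smul_eq_mul, smul_eq_mul, smul_smul]
      congr 1
      have h2 := left_ne_zero_of_mul h1
      have h3 := right_ne_zero_of_mul h1
      field_simp
    · rw [mem_Sb] at hg ⊢
      have h1 := Pool.Agent.Y119.HY.conj_E (blk_nil hA) (blk_sol hH) c _ hg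
      rw [blk_E hA, blk_E hA, ← blk_mul, ← blk_mul] at h1
      exact h1
    · rw [mem_Sb]
      have h1 := Pool.Agent.Y119.HY.Gal_closed Y (blk M') fun c hc => by
        have h2 := hM' c hc
        rw [mem_Sb, ← blk_map M' (Polynomial.eval c) Polynomial.eval_zero] at h2
        exact h2
      rw [blk_map M' (Polynomial.eval 0) Polynomial.eval_zero] at h1
      exact h1
  have hT : ∀ s : ℂ, (fun a => tr (v a) (φ a) s) ∈ Sb Y := by
    intro s
    rw [mem_Sb]
    have hMM : blk M * blk Mi = 1 := by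
      rw [← blk_mul, ← blk_one]
      congr 1
      funext a
      exact hMMi a
    have h1 := conj_mem_Gal (blk_nil hB) (blk_sol hK) (Y := Y) (M := blk M) (Mi := blk Mi) hMM (fun x hx hx1 => by
      rw [hYd, blk_Yf hA, blk_Yf hB, ← blk_mul]
      congr 1
      funext a
      exact hY a x (real_mem_Lens hx hx1)) (-s)
    rw [blk_E hB, ← blk_mul, ← blk_mul] at h1
    have h2 : (fun a => Mi a * E (-vecMulVec (uc (n a)) (qc (n a) (QL (β a)))) (-s) * M a) =
        fun a => tr (v a) (φ a) s := by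
      funext a
      rw [E_neg, neg_neg, E_vv (h.bd a).two (hqu a), tr_conj (hMiM a), ← hv a, ← hφ a]
    rw [h2] at h1
    exact h1
  refine (mem_Sb (Y := Y)).1 (prod_all hBH hT (fun a => ?_) (fun a b hab hnab => ⟨?_, ?_⟩) g hg)
  · by_contra hcon
    push Not at hcon
    refine h.ns a (opp_of_poly rfl (h.bd a).sum (h.bd a).sum (hP a) (hP a) (hF2 a) (hF2 a) fun c => ?_)
    rw [hF1, hF1, hcon c, neg_neg]
  · by_contra hcon
    push Not at hcon
    refine h.ne a b hab (eq2_of_poly hnab (h.bd a).sum (h.bd b).sum (hP a) (hP b) (hF2 a) (hF2 b) fun c => ?_)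
    rw [hF1, hF1, hcon c]
  · by_contra hcon
    push Not at hcon
    refine h.nop a b hab (opp_of_poly hnab (h.bd a).sum (h.bd b).sum (hP a) (hP b) (hF2 a) (hF2 b) fun c => ?_)
    rw [hF1, hF1, hcon c]

/-- the product of the special linear groups -/
def SLb (n : Fin r → ℕ) : Submonoid (Matrix (Fin (∑ a, n a)) (Fin (∑ a, n a)) ℂ) where
  carrier := {g | ∃ h : Tp n, (∀ a, (h a).det = 1) ∧ g = blk h}
  mul_mem' := by
    rintro _ _ ⟨h, hh, rfl⟩ ⟨h', hh', rfl⟩
    refine ⟨fun a => h a * h' a, fun a => ?_, (blk_mul _ _).symm⟩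
    rw [det_mul, hh, hh', one_mul]
  one_mem' := ⟨1, fun a => det_one, blk_one.symm⟩

lemma mem_SLb {g : Matrix (Fin (∑ a, n a)) (Fin (∑ a, n a)) ℂ} :
    g ∈ SLb n ↔ ∃ h : Tp n, (∀ a, (h a).det = 1) ∧ g = blk h := Iff.rfl

lemma Hf_det {m : ℕ} {β : Fin m → ℚ} (h : BD β) {x : ℝ} (hx : 0 < x) (hx1 : x < 1) :
    (Hf (Hk (Hq m (QL β))) (x : ℂ)).det = 1 := det_Hf (gs_of h) (det_Hq (qg_of h)) hx hx1

/-- the holomorphic part is in the group -/
lemma Hf_mem {β : ∀ a, Fin (n a) → ℚ} (h : ∀ a, BD (β a)) {x : ℝ} (hx : 0 < x) (hx1 : x < 1) :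
    Hf (Hk (HB β)) (x : ℂ) ∈ SLb n := by
  rw [Hk_HB, blk_Hf]
  exact ⟨_, fun a => Hf_det (h a) hx hx1, rfl⟩

lemma E_mem (s : ℂ) : E (cm (nq (blk fun a => An (n a)))) s ∈ SLb n := by
  rw [cmA, blk_E fun a => Ac_nil]
  exact ⟨_, fun a => det_E Ac_nil s, rfl⟩

lemma inv_mem {g : Matrix (Fin (∑ a, n a)) (Fin (∑ a, n a)) ℂ} (hg : g ∈ SLb n) : ∃ W ∈ SLb n, g * W = 1 ∧ W * g = 1 := by
  obtain ⟨h, hh, rfl⟩ := hg
  refine ⟨blk fun a => (h a)⁻¹, ⟨_, fun a => ?_, rfl⟩, ?_, ?_⟩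
  · rw [det_nonsing_inv, hh]
    simp
  · rw [← blk_mul, ← blk_one]
    congr 1
    funext a
    exact mul_nonsing_inv _ (by rw [hh a]; exact isUnit_one)
  · rw [← blk_mul, ← blk_one]
    congr 1
    funext a
    exact nonsing_inv_mul _ (by rw [hh a]; exact isUnit_one)

/-- **the group of several hypergeometric systems** -/
theorem gg_blk {β : ∀ a, Fin (n a) → ℚ} (h : Hyp β) : GG (blk fun a => An (n a)) (HB β) (SLb n) where
  gal := by
    rintro _ ⟨g, hg, rfl⟩
    exact blk_gal h g hg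
  exp := E_mem
  hol := fun x hx hx1 => by
    obtain ⟨W, hW, h1, -⟩ := inv_mem (Hf_mem h.bd hx hx1)
    exact ⟨W, hW, h1⟩

theorem gs_HB {β : ∀ a, Fin (n a) → ℚ} (h : ∀ a, BD (β a)) :
    GS (blk fun a => An (n a)) (blk fun a => Bm (n a) (QL (β a))) (HB β) := gs_blk fun a => gs_of (h a)

end Pool.Agent.E8helper43.HS
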