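import Pool.Agent.E8helper43.HS.Sl
import Pool.Agent.Y119.HY.Gal

/-!
# The pairing of a system with the adjoint system, and the connection between `0` and `1`
-/

set_option autoImplicit false
set_option maxHeartbeats 4000000

open Filter Topology Matrix Polynomial

namespace Pool.Agent.E8helper43.HS

open Pool.Agent.Y119.HY (Sol Hf Ep E Ep_eval E_neg E_zero E_mul_neg E_add Yf Vr Rel Gal Lens HD HD.congr HD.mul HD.transpose
  Gm Yf_ode mem_Lens slit_Lens real_mem_Lens symm_Lens const_Lens PA Hf_an Hf_zero map_mul_eval map_C_eval exists_sol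
  conj_mem_Gal)

variable {n : ℕ}

/-- the pairing of solutions of adjoint systems is constant -/
lemma pair_HD {G : Matrix (Fin n) (Fin n) ℂ} {Y Z : ℂ → Matrix (Fin n) (Fin n) ℂ} {z : ℂ}
    (hY : HD Y (-G.transpose * Y z) z) (hZ : HD Z (G * Z z) z) : HD (fun w => (Y w).transpose * Z w) 0 z := by
  refine (hY.transpose.mul hZ).congr ?_
  rw [transpose_mul, transpose_neg, transpose_transpose, mul_neg, neg_mul, Matrix.mul_assoc, neg_add_cancel]

lemma Gm_adj (N0 N1 : Matrix (Fin n) (Fin n) ℂ) (z : ℂ) :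
    Gm (-N0.transpose) (-N1.transpose) z = -(Gm N0 N1 z).transpose := by
  unfold Gm
  rw [transpose_add, transpose_smul, transpose_smul, smul_neg, smul_neg, neg_add]

lemma neg_nil {N : Matrix (Fin n) (Fin n) ℂ} (h : N ^ n = 0) : (-N) ^ n = 0 := by rw [neg_pow, h, mul_zero]

lemma tr_nil {N : Matrix (Fin n) (Fin n) ℂ} (h : N ^ n = 0) : N.transpose ^ n = 0 := by
  rw [← transpose_pow, h, transpose_zero]

variable {N0 N1 : Matrix (Fin n) (Fin n) ℂ} {H L : ℕ → Matrix (Fin n) (Fin n) ℂ}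

/-- **the pairing with the adjoint system** -/
theorem dual_pair (h0 : N0 ^ n = 0) (hH : Sol N0 N1 H) (hL : Sol (-N0.transpose) (-N1.transpose) L) {z : ℂ} (hz : z ∈ Lens) :
    (Yf (-N0.transpose) L z).transpose * Yf N0 H z = 1 := by
  have h0' : (-N0.transpose) ^ n = 0 := neg_nil (tr_nil h0)
  have hhalf : ((1 / 2 : ℝ) : ℂ) ∈ Lens := real_mem_Lens (by norm_num) (by norm_num)
  set S := (Yf (-N0.transpose) L ((1 / 2 : ℝ) : ℂ)).transpose * Yf N0 H ((1 / 2 : ℝ) : ℂ) with hS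
  have hconst : ∀ w ∈ Lens, (Yf (-N0.transpose) L w).transpose * Yf N0 H w = S := by
    intro w hw
    refine const_Lens (F := fun w => (Yf (-N0.transpose) L w).transpose * Yf N0 H w) (fun x hx => ?_) hw hhalf
    have h1 := Yf_ode hH h0 (mem_Lens.1 hx).1 (slit_Lens hx)
    have h2 := Yf_ode hL h0' (mem_Lens.1 hx).1 (slit_Lens hx)
    rw [Gm_adj] at h2
    exact pair_HD h2 h1
  rw [hconst z hz]
  -- the holomorphic part
  have hHan : ∀ i j, AnalyticOnNhd ℂ (fun z => ((Hf L z).transpose * Hf H z) i j) (Metric.ball 0 1) := by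
    intro i j
    simp only [Matrix.mul_apply, Matrix.transpose_apply]
    exact Finset.analyticOnNhd_fun_sum _ fun l _ => (Hf_an hL h0' l i).mul (Hf_an hH h0 l j)
  have hET : ∀ s, (E (-N0.transpose) s).transpose = E N0 (-s) := by
    intro s
    rw [E_neg]
    unfold E
    rw [transpose_sum]
    refine Finset.sum_congr rfl fun i _ => ?_
    rw [transpose_smul, transpose_pow, transpose_transpose]
  have hlog : ∀ i j : Fin n, ∀ w ∈ Metric.ball (0 : ℂ) 1, C (((Hf L w).transpose * Hf H w) i j) +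
      -((Ep N0 * S.map C * Ep (-N0)) i j) = 0 := by
    intro i j
    refine PA.log_zero (f := fun w => C (((Hf L w).transpose * Hf H w) i j) +
      -((Ep N0 * S.map C * Ep (-N0)) i j)) ((PA.ofFun (hHan i j)).add (PA.const _)) fun x hx hx1 => ?_
    have h1 := hconst x (real_mem_Lens hx hx1)
    have h2 : (Ep N0 * S.map C * Ep (-N0)).map (Polynomial.eval ((Real.log x : ℝ) : ℂ)) =
        (Hf L x).transpose * Hf H x := by
      rw [map_mul_eval, map_mul_eval, map_C_eval, Ep_eval, Ep_eval, E_neg, ← h1]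
      unfold Yf
      rw [← Complex.ofReal_log hx.le, transpose_mul, hET]
      set L' : ℂ := ((Real.log x : ℝ) : ℂ)
      have h3 : E N0 L' * E N0 (-L') = 1 := E_mul_neg h0 L'
      calc E N0 L' * (E N0 (-L') * (Hf L x).transpose * (Hf H x * E N0 L')) * E N0 (-L')
          = (E N0 L' * E N0 (-L')) * (Hf L x).transpose * Hf H x * (E N0 L' * E N0 (-L')) := by
            simp only [Matrix.mul_assoc]
        _ = _ := by rw [h3, one_mul, mul_one]
    rw [eval_add, eval_neg, eval_C, ← h2]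
    simp only [Matrix.map_apply]
    ring
  ext i j
  have h5 := congrArg (Polynomial.eval 0) (hlog i j 0 (Metric.mem_ball_self one_pos))
  rw [eval_add, eval_neg, eval_C, Hf_zero hH, Hf_zero hL, transpose_one, one_mul, eval_zero] at h5
  have h6 : (Ep N0 * S.map C * Ep (-N0)).map (Polynomial.eval 0) = S := by
    rw [map_mul_eval, map_mul_eval, map_C_eval, Ep_eval, Ep_eval, E_zero h0, E_zero (neg_nil h0), one_mul, mul_one]
  have h7 := congrFun (congrFun h6 i) j
  rw [Matrix.map_apply] at h7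
  rw [h7] at h5
  linear_combination -h5

/-- the solution at one satisfies the system -/
lemma ode_one {A B : Matrix (Fin n) (Fin n) ℂ} {K : ℕ → Matrix (Fin n) (Fin n) ℂ} (hB : (-B) ^ n = 0)
    (hK : Sol (-B) (-A) K) {z : ℂ} (hz : z ∈ Lens) :
    HD (fun z => Yf (-B) K (1 - z)) (Gm A B z * Yf (-B) K (1 - z)) z := by
  have hz' := symm_Lens hz
  have h1 := Yf_ode hK hB (mem_Lens.1 hz').1 (slit_Lens hz')
  have h2 : HasDerivAt (fun w : ℂ => 1 - w) (-1) z := by
    simpa using (hasDerivAt_id z).const_sub 1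
  refine (h1.comp h2).congr ?_
  rw [← smul_mul_assoc]
  congr 1
  unfold Gm
  rw [sub_sub_cancel, smul_neg, smul_neg]
  rw [← neg_add, neg_smul, one_smul, neg_neg, add_comm]

/-- **Connection.** -/
theorem connect {A B : Matrix (Fin n) (Fin n) ℂ} {K K' : ℕ → Matrix (Fin n) (Fin n) ℂ}
    (hA : A ^ n = 0) (hB : B ^ n = 0) (hH : Sol A B H) (hL : Sol (-A.transpose) (-B.transpose) L) (hK : Sol (-B) (-A) K)
    (hK' : Sol B.transpose A.transpose K') :
    ∃ M Mi : Matrix (Fin n) (Fin n) ℂ, M * Mi = 1 ∧ Mi * M = 1 ∧ (∀ z ∈ Lens, Yf A H z = Yf (-B) K (1 - z) * M) ∧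
      ∀ z ∈ Lens, (Yf (-A.transpose) L z).transpose = Mi * (Yf B.transpose K' (1 - z)).transpose := by
  have hhalf : ((1 / 2 : ℝ) : ℂ) ∈ Lens := real_mem_Lens (by norm_num) (by norm_num)
  have hBT : (-(-B).transpose) = B.transpose := by rw [transpose_neg, neg_neg]
  have hAT : (-(-A).transpose) = A.transpose := by rw [transpose_neg, neg_neg]
  have hK2 : Sol (-(-B).transpose) (-(-A).transpose) K' := by rw [hBT, hAT]; exact hK'
  have hK3 : Sol (-(-B.transpose)) (-(-A.transpose)) K' := by rw [neg_neg, neg_neg]; exact hK'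
  -- the pairing at one
  have hZZ : ∀ z ∈ Lens, (Yf B.transpose K' (1 - z)).transpose * Yf (-B) K (1 - z) = 1 := by
    intro z hz
    have := dual_pair (neg_nil hB) hK hK2 (symm_Lens hz)
    rwa [hBT] at this
  have hYY : ∀ z ∈ Lens, (Yf (-A.transpose) L z).transpose * Yf A H z = 1 := fun z hz => dual_pair hA hH hL hz
  set M := (Yf B.transpose K' (1 - ((1 / 2 : ℝ) : ℂ))).transpose * Yf A H ((1 / 2 : ℝ) : ℂ) with hM
  have hMc : ∀ z ∈ Lens, (Yf B.transpose K' (1 - z)).transpose * Yf A H z = M := by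
    intro z hz
    refine const_Lens (F := fun z => (Yf B.transpose K' (1 - z)).transpose * Yf A H z) (fun x hx => ?_) hz hhalf
    have h1 := Yf_ode hH hA (mem_Lens.1 hx).1 (slit_Lens hx)
    have h2 := ode_one (neg_nil (neg_nil (tr_nil hB))) hK3 hx
    rw [Gm_adj, neg_neg] at h2
    exact pair_HD h2 h1
  have hYM : ∀ z ∈ Lens, Yf A H z = Yf (-B) K (1 - z) * M := by
    intro z hz
    have h2 : Yf (-B) K (1 - z) * (Yf B.transpose K' (1 - z)).transpose = 1 := mul_eq_one_comm.1 (hZZ z hz)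
    rw [← hMc z hz, ← Matrix.mul_assoc, h2, one_mul]
  set Mi := (Yf (-A.transpose) L ((1 / 2 : ℝ) : ℂ)).transpose * Yf (-B) K (1 - ((1 / 2 : ℝ) : ℂ)) with hMi
  have hMiM : Mi * M = 1 := by
    rw [hMi, Matrix.mul_assoc, ← hYM _ hhalf]
    exact hYY _ hhalf
  have hMMi : M * Mi = 1 := mul_eq_one_comm.1 hMiM
  refine ⟨M, Mi, hMMi, hMiM, hYM, fun z hz => ?_⟩
  have h1 : (Yf (-A.transpose) L z).transpose * (Yf (-B) K (1 - z) * M) = 1 := by
    rw [← hYM z hz]
    exact hYY z hz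
  have h2 : Yf (-B) K (1 - z) * (Yf B.transpose K' (1 - z)).transpose = 1 := mul_eq_one_comm.1 (hZZ z hz)
  calc (Yf (-A.transpose) L z).transpose = (Yf (-A.transpose) L z).transpose *
        (Yf (-B) K (1 - z) * (M * Mi) * (Yf B.transpose K' (1 - z)).transpose) := by rw [hMMi, mul_one, h2, mul_one]
    _ = ((Yf (-A.transpose) L z).transpose * (Yf (-B) K (1 - z) * M)) * Mi * (Yf B.transpose K' (1 - z)).transpose := by
        simp only [Matrix.mul_assoc]
    _ = _ := by rw [h1, one_mul]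

/-! ### matrices of rank one -/

lemma vv_pow {u q : Fin n → ℂ} (h : q ⬝ᵥ u = 0) {i : ℕ} (hi : 2 ≤ i) : vecMulVec u q ^ i = 0 := by
  obtain ⟨j, rfl⟩ := Nat.exists_eq_add_of_le hi
  rw [pow_add, sq, vecMulVec_mul_vecMulVec, h, zero_smul, vecMulVec_zero, zero_mul]

lemma E_vv (hn : 2 ≤ n) {u q : Fin n → ℂ} (h : q ⬝ᵥ u = 0) (s : ℂ) : E (vecMulVec u q) s = tr u q s := by
  obtain ⟨m, rfl⟩ := Nat.exists_eq_add_of_le' hn
  unfold E tr
  rw [Finset.sum_range_succ', Finset.sum_range_succ']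
  rw [Finset.sum_eq_zero fun i _ => by rw [vv_pow h (by omega), smul_zero]]
  simp only [zero_add, pow_one, Nat.factorial_one, Nat.cast_one, div_one, pow_zero, Nat.factorial_zero, one_smul]
  exact add_comm _ _

/-- the transvections at one -/
theorem tv_mem {A : Matrix (Fin n) (Fin n) ℂ} {u q : Fin n → ℂ} {K : ℕ → Matrix (Fin n) (Fin n) ℂ} (hn : 2 ≤ n)
    (hqu : q ⬝ᵥ u = 0) (hK : Sol (-vecMulVec u q) (-A) K) {M Mi : Matrix (Fin n) (Fin n) ℂ} (hMMi : M * Mi = 1)
    {Y : ℂ → Matrix (Fin n) (Fin n) ℂ} (hY : ∀ z ∈ Lens, Y z = Yf (-vecMulVec u q) K (1 - z) * M) :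
    Gd (Gal Y) (Mi *ᵥ u) (q ᵥ* M) := by
  have hMiM : Mi * M = 1 := mul_eq_one_comm.1 hMMi
  refine ⟨?_, fun s => ?_⟩
  · rw [dotProduct_mulVec, vecMul_vecMul, hMMi, vecMul_one]
    exact hqu
  · have h1 := conj_mem_Gal (neg_nil (vv_pow hqu hn)) hK (Y := Y) hMMi (fun x hx hx1 => hY x (real_mem_Lens hx hx1)) (-s)
    rw [E_neg, neg_neg, E_vv hn hqu, tr_conj hMiM] at h1
    exact h1

end Pool.Agent.E8helper43.HS
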