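import Pool.Agent.E8helper43.HS.Det
import Pool.Agent.E8helper43.HS.GT

/-!
# The hypergeometric system with exponents `0, …, 0` at `0` and rational exponents `β` of sum zero at infinity
-/

set_option autoImplicit false
set_option maxHeartbeats 4000000

open PowerSeries

namespace Pool.Agent.E8helper43.HS

open Pool.Agent.Y113 (SDc)
open Pool.Agent.Y119.HY (cm Sol Hf Ep E Am um Bm kx aq hq Hq uq SL Hq_zero lin_eq aq_succ Am_mul)
open Pool.Agent.Y119.HZ (cf km km_apply th)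

/-- the polynomial at infinity -/
structure QG (n : ℕ) (Q : Polynomial ℚ) : Prop where
  two : 2 ≤ n
  monic : Q.Monic
  deg : Q.natDegree = n
  tr : Q.coeff (n - 1) = 0

variable {n : ℕ} {Q : Polynomial ℚ}

lemma Bm_mul' (k : ℕ) (hQ : QG n Q) (i j : Fin n) : (Bm n Q * Hq n Q k) i j = if (i : ℕ) + 1 = n then
    coeff (j : ℕ) (Polynomial.aeval (kx k) Q * aq n Q k) - coeff (j : ℕ) (kx k ^ n * aq n Q k) else 0 := by
  rw [Matrix.mul_apply]
  unfold Bm
  simp only [Matrix.of_apply, ite_mul, zero_mul]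
  split_ifs with h
  · have h1 : Polynomial.aeval (kx k) Q = ∑ l ∈ Finset.range n, C (Q.coeff l) * kx k ^ l + kx k ^ n := by
      rw [Polynomial.aeval_eq_sum_range, hQ.deg, Finset.sum_range_succ]
      have h2 : Q.coeff n = 1 := by
        rw [← hQ.deg]
        exact hQ.monic.coeff_natDegree
      rw [h2, one_smul]
      congr 1
      refine Finset.sum_congr rfl fun l _ => ?_
      rw [PowerSeries.smul_eq_C_mul]
    rw [h1, add_mul, map_add, add_sub_cancel_right, Finset.sum_mul, map_sum, Finset.sum_range]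
    refine Finset.sum_congr rfl fun l _ => ?_
    rw [mul_assoc, PowerSeries.coeff_C_mul]
    rfl
  · exact Finset.sum_const_zero

theorem step_g (hQ : QG n Q) (k : ℕ) (i j : Fin n) :
    ((k : ℚ) + 1) * Hq n Q (k + 1) i j + ((Hq n Q (k + 1) * Am n) i j - (Am n * Hq n Q (k + 1)) i j) =
    (k : ℚ) * Hq n Q k i j + ((Hq n Q k * Am n) i j - (Am n * Hq n Q k) i j) + (Bm n Q * Hq n Q k) i j := by
  have e1 := lin_eq (n := n) (Q := Q) (k + 1) i j
  have e2 := lin_eq (n := n) (Q := Q) k i j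
  push_cast at e1
  rw [add_sub_assoc', add_sub_assoc', e1, e2, Am_mul, Am_mul, Bm_mul' k hQ]
  by_cases h : (i : ℕ) + 1 < n
  · rw [dif_pos h, dif_pos h, if_neg (by omega)]
    unfold Hq hq
    simp only [Matrix.of_apply, sub_self, add_zero]
  · have h' : (i : ℕ) + 1 = n := by have := i.2; omega
    rw [dif_neg h, dif_neg h, if_pos h', h', sub_zero, sub_zero, add_sub_cancel, aq_succ]

/-- the shift with integral entries -/
def An (n : ℕ) : Matrix (Fin n) (Fin n) ℤ := Matrix.of fun i j => if (j : ℕ) = i + 1 then 1 else 0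

lemma nq_An : nq (An n) = Am n := by
  ext i j
  rw [nq_apply]
  unfold An Am
  simp only [Matrix.of_apply]
  split_ifs <;> simp

lemma An_nil : An n ^ n = 0 := by
  have h : nq (An n ^ n) = nq 0 := by
    unfold nq
    rw [map_pow, map_zero]
    have := nq_An (n := n)
    unfold nq at this
    rw [this, Pool.Agent.Y119.HY.Am_nil]
  ext i j
  have h1 := congrFun (congrFun h i) j
  rw [nq_apply, nq_apply] at h1
  exact_mod_cast h1

lemma step_m (hQ : QG n Q) (k : ℕ) : ((k : ℚ) + 1) • Hq n Q (k + 1) + (Hq n Q (k + 1) * nq (An n) - nq (An n) * Hq n Q (k + 1)) =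
    (k : ℚ) • Hq n Q k + (Hq n Q k * nq (An n) - nq (An n) * Hq n Q k) + Bm n Q * Hq n Q k := by
  rw [nq_An]
  ext i j
  have h := step_g hQ k i j
  simpa only [Matrix.add_apply, Matrix.smul_apply, Matrix.sub_apply, smul_eq_mul] using h

lemma tr_Bm (hQ : QG n Q) : (Bm n Q).trace = 0 := by
  have hn := hQ.two
  rw [Matrix.trace, Finset.sum_eq_single ⟨n - 1, by omega⟩]
  · rw [Matrix.diag_apply]
    unfold Bm
    rw [Matrix.of_apply, if_pos (by simp only; omega)]
    exact hQ.tr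
  · intro b _ hb
    rw [Matrix.diag_apply]
    unfold Bm
    rw [Matrix.of_apply, if_neg]
    intro h'
    exact hb (Fin.ext (by simp only; omega))
  · intro h'
    exact absurd (Finset.mem_univ _) h'

lemma det_Hq (hQ : QG n Q) : (mp (Hq n Q)).det = 1 := det_mp (N := An n) (B := Bm n Q) Hq_zero (step_m hQ) (tr_Bm hQ)

/-! ### the denominators -/

/-- the polynomial with roots `β` -/
noncomputable def QL (β : Fin n → ℚ) : Polynomial ℚ := ∏ i, (Polynomial.X - Polynomial.C (β i))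

lemma aq_QL (β : Fin n → ℚ) (k : ℕ) : aq n (QL β) k = ∏ i, uq (-β i) k := by
  unfold aq uq QL
  rw [Finset.prod_comm]
  refine Finset.prod_congr rfl fun l _ => ?_
  rw [map_prod]
  have h1 : ∀ i : Fin n, Polynomial.aeval (kx l) (Polynomial.X - Polynomial.C (β i)) = C ((l : ℚ) + -β i) + X := by
    intro i
    rw [map_sub, Polynomial.aeval_X, Polynomial.aeval_C]
    have h2 : algebraMap ℚ ℚ⟦X⟧ (β i) = C (β i) := rfl
    rw [h2, map_add, map_neg]
    unfold kx
    ring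
  simp only [h1]
  rw [Finset.prod_mul_distrib, Finset.prod_const, Finset.card_univ, Fintype.card_fin]

/-- the denominators -/
lemma hq_den {β : Fin n → ℚ} (hβ : ∀ i, ∀ l : ℕ, (l : ℚ) + -β i ≠ 0) :
    ∃ A : ℝ, ∀ K, ∃ d : ℕ, 0 < d ∧ (d : ℝ) ≤ A ^ (K + 1) ∧ ∀ k ≤ K, ∀ i j : ℕ, j < n →
      ∃ a : ℤ, (d : ℚ) * hq n (QL β) k i j = a := by
  set Bd : ℕ := 1 + ∑ i, ((β i).den + (β i).num.natAbs) with hBd
  have hBi : ∀ i, (β i).den + (β i).num.natAbs + 1 ≤ Bd := by
    intro i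
    have := Finset.single_le_sum (f := fun i => (β i).den + (β i).num.natAbs) (fun _ _ => Nat.zero_le _) (Finset.mem_univ i)
    omega
  set M : ℕ := ∏ i, ((β i).den ^ 2) with hM
  have hM1 : 1 ≤ M := by
    rw [hM]
    refine Nat.succ_le_of_lt (Finset.prod_pos fun i _ => ?_)
    have := (β i).den_pos
    positivity
  refine ⟨(M : ℝ) * ((2 ^ 8) ^ Bd) ^ n, fun K => ?_⟩
  set L : ℕ := Nat.lcmUpto (K * Bd + Bd) with hL
  have hL0 : 0 < L := Nat.lcmUpto_pos _
  have hLd : ∀ γ : ℚ, γ.den + γ.num.natAbs + 1 ≤ Bd → ∀ i : ℕ, 1 ≤ i → i ≤ K * γ.den + γ.num.natAbs + K → i ∣ L := by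
    intro γ hγ i h1 h2
    refine Pool.Agent.Y113.dvd_lcmUpto h1 (h2.trans ?_)
    have h3 : K * (γ.den + 1) ≤ K * Bd := Nat.mul_le_mul_left _ (by omega)
    rw [mul_add, mul_one] at h3
    omega
  refine ⟨M ^ K * L ^ n, by positivity, ?_, fun k hk i j hj => ?_⟩
  · push_cast
    have h1 : (L : ℝ) ≤ (2 ^ 8) ^ (K * Bd + Bd) := Pool.Agent.Y113.lcm_bound _
    have hM1' : (1 : ℝ) ≤ M := by exact_mod_cast hM1
    calc (M : ℝ) ^ K * (L : ℝ) ^ n ≤ (M : ℝ) ^ (K + 1) * ((2 ^ 8) ^ (K * Bd + Bd)) ^ n :=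
          mul_le_mul (pow_le_pow_right₀ hM1' (Nat.le_succ K)) (pow_le_pow_left₀ (by positivity) h1 _) (by positivity)
            (by positivity)
      _ = _ := by
          rw [mul_pow]
          congr 1
          generalize ((2 : ℝ) ^ 8) = B
          rw [← pow_mul, ← pow_mul, ← pow_mul]
          congr 1
          ring
  · -- the factors
    have hm2 : ∀ i, ∃ w ∈ SL L, uq (-β i) k = C (∏ l ∈ Finset.range k, (((l : ℚ) + -β i) / ((l : ℚ) + 1))) * w := fun i =>
      Pool.Agent.Y119.HY.uq_eq (fun l => hβ i l) hk (hLd _ (by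
        rw [Rat.neg_den, Rat.neg_num, Int.natAbs_neg]
        exact hBi i))
    choose w2 hw2 hw2' using hm2
    set c : ℚ := ∏ i, (∏ l ∈ Finset.range k, (((l : ℚ) + -β i) / ((l : ℚ) + 1))) with hc
    have haq : aq n (QL β) k = C c * ∏ i, w2 i := by
      rw [aq_QL, hc, map_prod, ← Finset.prod_mul_distrib]
      refine Finset.prod_congr rfl fun i _ => ?_
      rw [hw2' i]
    have hcM : ∃ a : ℤ, ((M : ℚ) ^ k) * c = a := by
      choose b hb using fun i => Pool.Agent.Y119.HY.poch_int (-β i) k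
      refine ⟨∏ i, b i, ?_⟩
      rw [hc, hM]
      push_cast
      rw [← Finset.prod_pow, ← Finset.prod_mul_distrib]
      refine Finset.prod_congr rfl fun i _ => ?_
      rw [← hb i, Rat.neg_den]
    obtain ⟨a, ha⟩ := hcM
    have hmem : kx k ^ i * ∏ i, w2 i ∈ SL L := by
      refine (SL L).mul_mem ((SL L).pow_mem ((SL L).add_mem ?_ (Pool.Agent.Y119.HY.SL_X L)) _)
        ((SL L).prod_mem fun i _ => hw2 i)
      have := Pool.Agent.Y119.HY.SL_C L (k : ℤ)
      exact_mod_cast this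
    obtain ⟨b, hb⟩ := Pool.Agent.Y119.HY.SL_coeff hmem j
    refine ⟨(M : ℤ) ^ (K - k) * a * ((L : ℤ) ^ (n - j) * b), ?_⟩
    unfold hq
    rw [haq, show kx k ^ i * (C c * ∏ i, w2 i) = C c * (kx k ^ i * ∏ i, w2 i) by ring,
      PowerSeries.coeff_C_mul]
    push_cast
    rw [← ha, ← hb]
    have e1 : (M : ℚ) ^ K = (M : ℚ) ^ (K - k) * (M : ℚ) ^ k := by rw [← pow_add]; congr 1; omega
    have e2 : (L : ℚ) ^ n = (L : ℚ) ^ (n - j) * (L : ℚ) ^ j := by rw [← pow_add]; congr 1; omega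
    rw [e1, e2]
    ring

lemma sol_Hq (hQ : QG n Q) : Sol (cm (Am n)) (cm (Bm n Q)) (Hk (Hq n Q)) := by
  refine ⟨?_, fun k => ?_⟩
  · unfold Hk
    rw [Hq_zero, Pool.Agent.Y119.HY.cm_one]
  · ext i j
    have h := step_g hQ k i j
    unfold Hk
    rw [← Pool.Agent.Y119.HY.cm_mul, ← Pool.Agent.Y119.HY.cm_mul, ← Pool.Agent.Y119.HY.cm_mul, ← Pool.Agent.Y119.HY.cm_mul,
      ← Pool.Agent.Y119.HY.cm_mul]
    simp only [Matrix.add_apply, Matrix.smul_apply, Matrix.sub_apply, smul_eq_mul, Pool.Agent.Y119.HY.cm_apply]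
    exact_mod_cast h

theorem sdc_Hq {β : Fin n → ℚ} (hβ : ∀ i, ∀ l : ℕ, (l : ℚ) + -β i ≠ 0) (hQ : QG n (QL β)) (i j : Fin n) :
    SDc (mp (Hq n (QL β)) i j) := by
  refine Pool.Agent.Y119.HY.sdc_of ?_ ?_
  · obtain ⟨A, hA⟩ := Pool.Agent.Y119.HY.PG.exp ((sol_Hq hQ).growth Pool.Agent.Y119.HY.Ac_nil i j)
    refine ⟨A, fun k => ?_⟩
    have h1 := hA k
    unfold Hk at h1
    rw [Pool.Agent.Y119.HY.cm_apply] at h1
    unfold mp
    rw [Matrix.of_apply, PowerSeries.coeff_mk]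
    refine le_trans (le_of_eq ?_) h1
    have e1 : ((Hq n (QL β) k i j : ℚ) : ℂ) = (((Hq n (QL β) k i j : ℚ) : ℝ) : ℂ) := by push_cast; rfl
    rw [e1, Complex.norm_real, Real.norm_eq_abs]
  · obtain ⟨A, hA⟩ := hq_den hβ
    refine ⟨A, fun K => ?_⟩
    obtain ⟨d, hd0, hd, hd'⟩ := hA K
    refine ⟨d, hd0, hd, fun k hk => ?_⟩
    unfold mp
    rw [Matrix.of_apply, PowerSeries.coeff_mk]
    exact hd' k hk i j j.2

/-- the data of the theorem -/
structure BD (β : Fin n → ℚ) : Prop where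
  two : 2 ≤ n
  sum : ∑ i, β i = 0
  ni : ∀ i, ∀ l : ℤ, β i ≠ l

lemma QL_monic (β : Fin n → ℚ) : (QL β).Monic := Polynomial.monic_prod_of_monic _ _ fun i _ => Polynomial.monic_X_sub_C _

lemma qg_of {β : Fin n → ℚ} (h : BD β) : QG n (QL β) := by
  have hn := h.two
  have hdeg : (QL β).natDegree = n := by
    unfold QL
    rw [Polynomial.natDegree_prod_of_monic _ _ fun i _ => Polynomial.monic_X_sub_C _]
    simp
  refine ⟨hn, QL_monic β, hdeg, ?_⟩
  have h1 : (QL β).nextCoeff = -∑ i, β i := by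
    unfold QL
    exact Polynomial.prod_X_sub_C_nextCoeff β
  rw [Polynomial.nextCoeff_of_natDegree_pos (by rw [hdeg]; omega), hdeg, h.sum, neg_zero] at h1
  exact h1

lemma BD.nz {β : Fin n → ℚ} (h : BD β) (i : Fin n) (l : ℕ) : (l : ℚ) + -β i ≠ 0 := by
  intro h0
  exact h.ni i (l : ℤ) (by push_cast; linarith)

/-- **the system of the hypergeometric operator is a system of G-functions** -/
theorem gs_of {β : Fin n → ℚ} (h : BD β) : GS (An n) (Bm n (QL β)) (Hq n (QL β)) := by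
  have hs := sdc_Hq h.nz (qg_of h)
  refine ⟨An_nil, Hq_zero, step_m (qg_of h), hs, (mp (Hq n (QL β))).adjugate, ?_, SDc_adj hs⟩
  rw [Matrix.mul_adjugate, det_Hq (qg_of h), one_smul]

end Pool.Agent.E8helper43.HS
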