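import Pool.Agent.E8helper43.HS.GA

/-!
# The determinant of the holomorphic part is one
-/

set_option autoImplicit false
set_option maxHeartbeats 4000000

open PowerSeries

namespace Pool.Agent.E8helper43.HS

open Pool.Agent.Y113 (SDc)
open Pool.Agent.Y119.HY (cm Sol Hf Ep E)
open Pool.Agent.Y119.HZ (cf km km_apply th)

variable {n : ℕ}

lemma der_one {R : Type*} [CommRing R] {D : R →+ R} (hD : ∀ a b, D (a * b) = a * D b + b * D a) : D 1 = 0 := by
  have h := hD 1 1
  simp only [mul_one, one_mul] at h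
  linear_combination -h

/-- derivations as homomorphisms to the dual numbers -/
noncomputable def dh {R : Type*} [CommRing R] (D : R →+ R) (hD : ∀ a b, D (a * b) = a * D b + b * D a) :
    R →+* DualNumber R where
  toFun r := TrivSqZeroExt.inl r + TrivSqZeroExt.inr (D r)
  map_one' := by simp [der_one hD]
  map_mul' a b := by
    ext
    · simp
    · simp [hD]
      ring
  map_zero' := by simp
  map_add' a b := by
    ext <;> simp

lemma dh_fst {R : Type*} [CommRing R] {D : R →+ R} (hD : ∀ a b, D (a * b) = a * D b + b * D a) (r : R) :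
    (dh D hD r).fst = r := by
  show (TrivSqZeroExt.inl r + TrivSqZeroExt.inr (D r)).fst = r
  simp

lemma dh_snd {R : Type*} [CommRing R] {D : R →+ R} (hD : ∀ a b, D (a * b) = a * D b + b * D a) (r : R) :
    (dh D hD r).snd = D r := by
  show (TrivSqZeroExt.inl r + TrivSqZeroExt.inr (D r)).snd = D r
  simp

/-- **the formula of Jacobi** -/
theorem det_der {R : Type*} [CommRing R] (D : R →+ R) (hD : ∀ a b, D (a * b) = a * D b + b * D a)
    {M P A : Matrix (Fin n) (Fin n) R}
    (h : M.map D + M * A = P * M) : D M.det = (P.trace - A.trace) * M.det := by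
  set ε : DualNumber R := DualNumber.eps with hε
  have hee : ε ^ 2 = 0 := by rw [sq]; exact DualNumber.eps_mul_eps
  set ι : R →+* DualNumber R := TrivSqZeroExt.inlHom R R with hι
  have hι1 : ∀ r, ι r = TrivSqZeroExt.inl r := fun r => rfl
  have hdh : ∀ r, dh D hD r = ι r + ι (D r) * ε := by
    intro r
    ext
    · rw [dh_fst]
      simp [hι1, hε]
    · rw [dh_snd]
      simp [hι1, hε]
  have h1 : (dh D hD).mapMatrix M * (1 + ε • ι.mapMatrix A) = (1 + ε • ι.mapMatrix P) * ι.mapMatrix M := by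
    have e1 : (dh D hD).mapMatrix M = ι.mapMatrix M + ε • ι.mapMatrix (M.map D) := by
      ext1 i j
      simp only [RingHom.mapMatrix_apply, Matrix.map_apply, Matrix.add_apply, Matrix.smul_apply, smul_eq_mul]
      rw [hdh, mul_comm ε]
    have e2 : ι.mapMatrix (M.map D) + ι.mapMatrix M * ι.mapMatrix A = ι.mapMatrix P * ι.mapMatrix M := by
      rw [← map_mul, ← map_mul, ← map_add, h]
    rw [e1, add_mul, mul_add, mul_one, mul_add, mul_one, add_mul, one_mul, Matrix.mul_smul, Matrix.smul_mul,
      Matrix.smul_mul, Matrix.mul_smul, smul_smul, ← sq, hee, zero_smul, add_zero, ← e2, smul_add]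
    abel
  have h2 := congrArg Matrix.det h1
  have hd1 : ∀ X : Matrix (Fin n) (Fin n) (DualNumber R), (1 + ε • X).det = 1 + X.trace * ε := by
    intro X
    rw [Matrix.det_one_add_smul, hee, mul_zero, add_zero]
  rw [Matrix.det_mul, Matrix.det_mul, hd1, hd1, ← RingHom.map_det, ← RingHom.map_det] at h2
  have h3 : ∀ X : Matrix (Fin n) (Fin n) R, (ι.mapMatrix X).trace = ι X.trace := by
    intro X
    rw [Matrix.trace, Matrix.trace, map_sum]
    rfl
  rw [h3, h3, hdh] at h2
  have h4 := congrArg TrivSqZeroExt.snd h2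
  simp [hι1, hε] at h4
  linear_combination h4

/-- the derivation `(1 - X) X d/dX` -/
noncomputable def dx : ℚ⟦X⟧ →+ ℚ⟦X⟧ where
  toFun f := (1 - X) * (X * d⁄dX ℚ f)
  map_zero' := by simp
  map_add' f g := by rw [map_add]; ring

lemma dx_apply (f : ℚ⟦X⟧) : dx f = (1 - X) * (X * d⁄dX ℚ f) := rfl

lemma dx_mul (f g : ℚ⟦X⟧) : dx (f * g) = f * dx g + g * dx f := by
  rw [dx_apply, dx_apply, dx_apply, Derivation.leibniz]
  simp only [smul_eq_mul]
  ring

variable {N : Matrix (Fin n) (Fin n) ℤ} {B : Matrix (Fin n) (Fin n) ℚ} {H : ℕ → Matrix (Fin n) (Fin n) ℚ}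

/-- the system at the origin -/
theorem ode_mp' (h0 : H 0 = 1) (hstep : ∀ k : ℕ, ((k : ℚ) + 1) • H (k + 1) + (H (k + 1) * nq N - nq N * H (k + 1)) =
    (k : ℚ) • H k + (H k * nq N - nq N * H k) + B * H k) : (1 - X : ℚ⟦X⟧) • (th (mp H) + mp H * km (nq N)) =
    ((1 - X : ℚ⟦X⟧) • km (nq N) + (X : ℚ⟦X⟧) • km B) * mp H := by
  have hS : (1 - X : ℚ⟦X⟧) • (th (mp H) + mp H * km (nq N) - km (nq N) * mp H) = (X : ℚ⟦X⟧) • (km B * mp H) := by
    have hc : ∀ k, cf (th (mp H) + mp H * km (nq N) - km (nq N) * mp H) k =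
        (k : ℚ) • H k + (H k * nq N - nq N * H k) := by
      intro k
      have h1 : cf (th (mp H) + mp H * km (nq N) - km (nq N) * mp H) k =
          cf (th (mp H)) k + cf (mp H * km (nq N)) k - cf (km (nq N) * mp H) k := by
        ext i j
        unfold cf
        simp only [Matrix.map_apply, Matrix.sub_apply, Matrix.add_apply, map_sub, map_add]
      rw [h1, Pool.Agent.Y119.HZ.cf_th, Pool.Agent.Y119.HZ.cf_mul_km, Pool.Agent.Y119.HZ.cf_km_mul, cf_mp, add_sub_assoc]
    ext i j k
    rw [Matrix.smul_apply, Matrix.smul_apply, smul_eq_mul, smul_eq_mul, sub_mul, one_mul, map_sub]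
    have h2 : ∀ k, coeff k ((th (mp H) + mp H * km (nq N) - km (nq N) * mp H) i j) =
        ((k : ℚ) • H k + (H k * nq N - nq N * H k)) i j := fun k => congrFun (congrFun (hc k) i) j
    have h3 : ∀ k, coeff k ((km B * mp H) i j) = (B * H k) i j := by
      intro k
      have := congrFun (congrFun (Pool.Agent.Y119.HZ.cf_km_mul B (mp H) k) i) j
      rw [cf_mp] at this
      exact this
    rcases k with _ | k
    · rw [coeff_zero_X_mul, coeff_zero_X_mul, h2, h0]
      simp
    · rw [coeff_succ_X_mul, coeff_succ_X_mul, h2, h2, h3]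
      have h4 := congrFun (congrFun (hstep k) i) j
      simp only [Matrix.add_apply, Matrix.smul_apply, Matrix.sub_apply, smul_eq_mul] at h4 ⊢
      push_cast
      linear_combination h4
  rw [smul_sub] at hS
  rw [add_mul, smul_mul_assoc, smul_mul_assoc, ← hS]
  abel

/-- **the determinant of the holomorphic part** -/
theorem det_mp (h0 : H 0 = 1) (hstep : ∀ k : ℕ, ((k : ℚ) + 1) • H (k + 1) + (H (k + 1) * nq N - nq N * H (k + 1)) =
    (k : ℚ) • H k + (H k * nq N - nq N * H k) + B * H k) (hB : B.trace = 0) : (mp H).det = 1 := by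
  have h1 := ode_mp' h0 hstep
  have h2 := det_der dx dx_mul (M := mp H) (A := (1 - X : ℚ⟦X⟧) • km (nq N))
    (P := (1 - X : ℚ⟦X⟧) • km (nq N) + (X : ℚ⟦X⟧) • km B) (by
      rw [← h1, smul_add, Matrix.mul_smul]
      congr 1)
  have h3 : (km B).trace = 0 := by
    have : (km B).trace = C B.trace := by
      rw [Matrix.trace, Matrix.trace, map_sum]
      rfl
    rw [this, hB, map_zero]
  rw [Matrix.trace_add, Matrix.trace_smul, Matrix.trace_smul, h3, smul_zero, add_zero, sub_self, zero_mul, dx_apply] at h2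
  have h4 : d⁄dX ℚ (mp H).det = 0 := by
    rcases mul_eq_zero.1 h2 with h | h
    · exfalso
      have := congrArg constantCoeff h
      simp at this
    · rcases mul_eq_zero.1 h with h | h
      · exact absurd h X_ne_zero
      · exact h
  have h5 : constantCoeff (mp H).det = 1 := by
    have e1 : constantCoeff (mp H).det = ((constantCoeff (R := ℚ)).mapMatrix (mp H)).det := RingHom.map_det _ _
    rw [e1]
    have e2 : (constantCoeff (R := ℚ)).mapMatrix (mp H) = 1 := by
      rw [← h0, ← cf_mp (H := H) 0]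
      ext1 i j
      rw [RingHom.mapMatrix_apply, Matrix.map_apply, ← coeff_zero_eq_constantCoeff_apply]
      rfl
    rw [e2, Matrix.det_one]
  refine PowerSeries.derivative.ext ?_ ?_
  · rw [h4]
    exact ((PowerSeries.derivative ℚ).map_one_eq_zero).symm
  · rw [h5, map_one]

/-- products -/
lemma SDc_prod {σ : Type*} (S : Finset σ) {f : σ → ℚ⟦X⟧} (h : ∀ i ∈ S, SDc (f i)) : SDc (∏ i ∈ S, f i) := by
  classical
  induction S using Finset.induction_on with
  | empty => rw [Finset.prod_empty]; exact SDc.one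
  | insert a s ha ih =>
    rw [Finset.prod_insert ha]
    exact (h a (Finset.mem_insert_self _ _)).mul (ih fun i hi => h i (Finset.mem_insert_of_mem hi))

lemma SDc_det {M : Matrix (Fin n) (Fin n) ℚ⟦X⟧} (h : ∀ i j, SDc (M i j)) : SDc M.det := by
  rw [Matrix.det_apply']
  refine Pool.Agent.Y119.HZ.SDc.sum' _ fun σ _ => ?_
  refine SDc.mul ?_ (SDc_prod _ fun i _ => h _ _)
  exact_mod_cast SDc.int _

lemma SDc_adj {M : Matrix (Fin n) (Fin n) ℚ⟦X⟧} (h : ∀ i j, SDc (M i j)) (i j : Fin n) : SDc (M.adjugate i j) := by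
  rw [Matrix.adjugate_apply]
  refine SDc_det fun a b => ?_
  rw [Matrix.updateRow_apply]
  split_ifs with h1
  · rw [Pi.single_apply]
    split_ifs
    · exact SDc.one
    · have := SDc.int 0
      rwa [Int.cast_zero] at this
  · exact h _ _

end Pool.Agent.E8helper43.HS
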