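import Pool.Agent.E8helper43.HS.Dat

/-!
# The adjoint hypergeometric system, explicitly
-/

set_option autoImplicit false
set_option maxHeartbeats 4000000

open PowerSeries

namespace Pool.Agent.E8helper43.HS

open Pool.Agent.Y119.HY (cm Sol Hf Ep E Am um Bm kx aq hq Hq uq SL Hq_zero lin_eq aq_succ Am_mul mul_Am)

variable {n : ℕ} {Q : Polynomial ℚ}

/-- `- k + ε` -/
noncomputable def ky (k : ℕ) : ℚ⟦X⟧ := C (-(k : ℚ)) + X

/-- the coefficients of the adjoint system -/
noncomputable def dq (n : ℕ) (Q : Polynomial ℚ) (k : ℕ) : ℚ⟦X⟧ :=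
  ∏ l ∈ Finset.range k, (Polynomial.aeval (ky (l + 1)) Q * ((ky (l + 1))⁻¹) ^ n)

lemma ky_succ_mul_inv (l : ℕ) : ky (l + 1) * (ky (l + 1))⁻¹ = 1 := by
  refine PowerSeries.mul_inv_cancel _ ?_
  unfold ky
  simp
  intro h
  have : (0 : ℚ) < (l : ℚ) + 1 := by positivity
  linarith

lemma dq_succ (k : ℕ) : ky (k + 1) ^ n * dq n Q (k + 1) = Polynomial.aeval (ky (k + 1)) Q * dq n Q k := by
  unfold dq
  rw [Finset.prod_range_succ]
  have h := ky_succ_mul_inv k
  calc _ = (∏ l ∈ Finset.range k, (Polynomial.aeval (ky (l + 1)) Q * ((ky (l + 1))⁻¹) ^ n)) *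
        Polynomial.aeval (ky (k + 1)) Q * (ky (k + 1) * (ky (k + 1))⁻¹) ^ n := by ring
    _ = _ := by rw [h, one_pow, mul_one, mul_comm]

/-- the entries -/
noncomputable def yh (n : ℕ) (Q : Polynomial ℚ) (i : ℕ) : ℕ → ℚ⟦X⟧
  | 0 => X ^ (n - 1 - i)
  | k + 1 => ky (k + 1) ^ (n - 1 - i) * dq n Q (k + 1) - Polynomial.aeval (ky (k + 1)) (Polynomial.divX^[i + 1] Q) * dq n Q k

lemma coeff_divX_iter (P : Polynomial ℚ) (m j : ℕ) : (Polynomial.divX^[m] P).coeff j = P.coeff (j + m) := by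
  induction m generalizing j with
  | zero => rfl
  | succ m ih =>
    rw [Function.iterate_succ_apply', Polynomial.coeff_divX, ih]
    congr 1
    ring

lemma divX_n (hQ : QG n Q) : Polynomial.divX^[n] Q = 1 := by
  ext j
  rw [coeff_divX_iter, Polynomial.coeff_one]
  split_ifs with h
  · rw [h, zero_add, ← hQ.deg]
    exact hQ.monic.coeff_natDegree
  · refine Polynomial.coeff_eq_zero_of_natDegree_lt ?_
    rw [hQ.deg]
    omega

lemma divX_step (i : ℕ) : Polynomial.divX^[i] Q = Polynomial.X * Polynomial.divX^[i + 1] Q + Polynomial.C (Q.coeff i) := by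
  have h := Polynomial.divX_mul_X_add (Polynomial.divX^[i] Q)
  rw [coeff_divX_iter, zero_add, ← Function.iterate_succ_apply' (f := Polynomial.divX)] at h
  rw [← h, mul_comm Polynomial.X]

/-- the combination in the recursion -/
noncomputable def yc (n : ℕ) (Q : Polynomial ℚ) (i k : ℕ) : ℚ⟦X⟧ :=
  -(ky k * yh n Q i k) + if i = 0 then 0 else yh n Q (i - 1) k

lemma yc_succ {i : ℕ} (hi : i < n) (k : ℕ) : yc n Q i (k + 1) = -(C (Q.coeff i) * dq n Q k) := by
  have e1 : Polynomial.aeval (ky (k + 1)) (Polynomial.divX^[i] Q) =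
      ky (k + 1) * Polynomial.aeval (ky (k + 1)) (Polynomial.divX^[i + 1] Q) + C (Q.coeff i) := by
    rw [divX_step, map_add, map_mul, Polynomial.aeval_X, Polynomial.aeval_C]
    rfl
  have e2 : ky (k + 1) ^ (n - 1 - i) * ky (k + 1) = ky (k + 1) ^ (n - i) := by
    rw [← pow_succ]
    congr 1
    omega
  unfold yc
  rcases Nat.eq_zero_or_pos i with rfl | h
  · rw [if_pos rfl, add_zero]
    have h1 := dq_succ (n := n) (Q := Q) k
    rw [Function.iterate_zero, id] at e1
    rw [e1] at h1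
    show -(ky (k + 1) * (ky (k + 1) ^ (n - 1 - 0) * dq n Q (k + 1) -
      Polynomial.aeval (ky (k + 1)) (Polynomial.divX^[0 + 1] Q) * dq n Q k)) = _
    rw [Nat.sub_zero] at e2
    rw [Nat.sub_zero] at e2 ⊢
    linear_combination -h1 - dq n Q (k + 1) * e2
  · rw [if_neg (by omega)]
    show -(ky (k + 1) * (ky (k + 1) ^ (n - 1 - i) * dq n Q (k + 1) -
      Polynomial.aeval (ky (k + 1)) (Polynomial.divX^[i + 1] Q) * dq n Q k)) +
      (ky (k + 1) ^ (n - 1 - (i - 1)) * dq n Q (k + 1) -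
      Polynomial.aeval (ky (k + 1)) (Polynomial.divX^[i - 1 + 1] Q) * dq n Q k) = _
    have e3 : n - 1 - (i - 1) = n - i := by omega
    have e4 : i - 1 + 1 = i := by omega
    rw [e3, e4, e1]
    linear_combination -dq n Q (k + 1) * e2

lemma yc_zero {i j : ℕ} (hi : i < n) (hj : j < n) : coeff j (yc n Q i 0) = 0 := by
  have e0 : ky 0 = X := by
    unfold ky
    simp
  unfold yc
  rcases Nat.eq_zero_or_pos i with rfl | h
  · rw [if_pos rfl, add_zero, e0]
    show coeff j (-(X * X ^ (n - 1 - 0))) = 0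
    rw [map_neg, ← pow_succ', coeff_X_pow, if_neg (by omega), neg_zero]
  · rw [if_neg (by omega), e0]
    show coeff j (-(X * X ^ (n - 1 - i)) + X ^ (n - 1 - (i - 1))) = 0
    rw [← pow_succ', show n - 1 - i + 1 = n - 1 - (i - 1) by omega, neg_add_cancel, map_zero]

lemma yh_last (hQ : QG n Q) (k : ℕ) : yh n Q (n - 1) (k + 1) = dq n Q (k + 1) - dq n Q k := by
  have hn := hQ.two
  show ky (k + 1) ^ (n - 1 - (n - 1)) * dq n Q (k + 1) -
      Polynomial.aeval (ky (k + 1)) (Polynomial.divX^[n - 1 + 1] Q) * dq n Q k = _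
  rw [Nat.sub_self, pow_zero, one_mul, show n - 1 + 1 = n by omega, divX_n hQ, map_one, one_mul]

/-- the coefficients of the adjoint system -/
noncomputable def Lq (n : ℕ) (Q : Polynomial ℚ) (k : ℕ) : Matrix (Fin n) (Fin n) ℚ :=
  Matrix.of fun i j => coeff (n - 1 - (j : ℕ)) (yh n Q i k)

lemma Lq_zero : Lq n Q 0 = 1 := by
  ext i j
  unfold Lq
  rw [Matrix.of_apply]
  show coeff (n - 1 - (j : ℕ)) (X ^ (n - 1 - (i : ℕ))) = _
  rw [coeff_X_pow, Matrix.one_apply]
  by_cases h : i = j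
  · rw [if_pos h, if_pos (by rw [h])]
  · rw [if_neg h, if_neg fun h' => h (Fin.ext (by have := i.2; have := j.2; omega))]

lemma Lq_shift (k : ℕ) (i j : Fin n) : (Lq n Q k * (Am n).transpose) i j = coeff (n - 1 - (j : ℕ)) (X * yh n Q i k) := by
  have h1 : (Lq n Q k * (Am n).transpose) i j = (Am n * (Lq n Q k).transpose) j i := by
    have : Lq n Q k * (Am n).transpose = (Am n * (Lq n Q k).transpose).transpose := by
      rw [Matrix.transpose_mul, Matrix.transpose_transpose]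
    rw [this, Matrix.transpose_apply]
  rw [h1, Am_mul]
  have hj := j.2
  split_ifs with h
  · rw [Matrix.transpose_apply]
    unfold Lq
    rw [Matrix.of_apply]
    have e1 : n - 1 - (j : ℕ) = (n - 1 - ((j : ℕ) + 1)) + 1 := by omega
    rw [e1, coeff_succ_X_mul]
  · have e1 : n - 1 - (j : ℕ) = 0 := by omega
    rw [e1, coeff_zero_X_mul]

lemma Lq_up (k : ℕ) (i j : Fin n) : ((Am n).transpose * Lq n Q k) i j =
    coeff (n - 1 - (j : ℕ)) (if (i : ℕ) = 0 then 0 else yh n Q ((i : ℕ) - 1) k) := by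
  have h1 : ((Am n).transpose * Lq n Q k) i j = ((Lq n Q k).transpose * Am n) j i := by
    have : (Am n).transpose * Lq n Q k = ((Lq n Q k).transpose * Am n).transpose := by
      rw [Matrix.transpose_mul, Matrix.transpose_transpose]
    rw [this, Matrix.transpose_apply]
  rw [h1, mul_Am]
  split_ifs with h
  · rw [map_zero]
  · rw [Matrix.transpose_apply]
    rfl

lemma Lq_B (hn : 2 ≤ n) (k : ℕ) (i j : Fin n) : ((Bm n Q).transpose * Lq n Q k) i j =
    Q.coeff i * coeff (n - 1 - (j : ℕ)) (yh n Q (n - 1) k) := by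
  rw [Matrix.mul_apply, Finset.sum_eq_single ⟨n - 1, by omega⟩]
  · rw [Matrix.transpose_apply]
    unfold Bm Lq
    rw [Matrix.of_apply, Matrix.of_apply, if_pos (by simp only; omega)]
  · intro b _ hb
    rw [Matrix.transpose_apply]
    unfold Bm
    rw [Matrix.of_apply, if_neg, zero_mul]
    intro h'
    exact hb (Fin.ext (by simp only; omega))
  · intro h'
    exact absurd (Finset.mem_univ _) h'

lemma Lq_comb (k : ℕ) (i j : Fin n) : (k : ℚ) * Lq n Q k i j - (Lq n Q k * (Am n).transpose) i j +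
    ((Am n).transpose * Lq n Q k) i j = coeff (n - 1 - (j : ℕ)) (yc n Q i k) := by
  rw [Lq_shift, Lq_up]
  unfold yc Lq
  rw [Matrix.of_apply, map_add, map_neg]
  congr 1
  unfold ky
  rw [add_mul, map_add, PowerSeries.coeff_C_mul]
  ring

lemma Lq_step (hQ : QG n Q) (k : ℕ) (i j : Fin n) :
    ((k : ℚ) + 1) * Lq n Q (k + 1) i j + ((Lq n Q (k + 1) * -(Am n).transpose) i j - (-(Am n).transpose * Lq n Q (k + 1)) i j) =
    (k : ℚ) * Lq n Q k i j + ((Lq n Q k * -(Am n).transpose) i j - (-(Am n).transpose * Lq n Q k) i j) +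
      (-(Bm n Q).transpose * Lq n Q k) i j := by
  have hn := hQ.two
  simp only [Matrix.mul_neg, Matrix.neg_mul, Matrix.neg_apply]
  have e1 := Lq_comb (n := n) (Q := Q) (k + 1) i j
  have e2 := Lq_comb (n := n) (Q := Q) k i j
  push_cast at e1
  have e3 : coeff (n - 1 - (j : ℕ)) (yc n Q i (k + 1)) = coeff (n - 1 - (j : ℕ)) (yc n Q i k) -
      Q.coeff i * coeff (n - 1 - (j : ℕ)) (yh n Q (n - 1) k) := by
    rw [yc_succ i.2]
    rcases k with _ | k
    · rw [yc_zero i.2 (by have := i.2; omega)]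
      show _ = 0 - Q.coeff i * coeff (n - 1 - (j : ℕ)) (X ^ (n - 1 - (n - 1)))
      unfold dq
      rw [Finset.range_zero, Finset.prod_empty, mul_one, Nat.sub_self, pow_zero, map_neg, ← PowerSeries.coeff_C_mul, mul_one,
        zero_sub]
    · rw [yc_succ i.2, yh_last hQ, map_neg, map_neg, PowerSeries.coeff_C_mul, PowerSeries.coeff_C_mul, map_sub]
      ring
  rw [Lq_B hn]
  linear_combination e1 - e2 + e3

lemma sol_Lq (hQ : QG n Q) : Sol (-(cm (Am n)).transpose) (-(cm (Bm n Q)).transpose) (Hk (Lq n Q)) := by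
  refine ⟨?_, fun k => ?_⟩
  · unfold Hk
    rw [Lq_zero, Pool.Agent.Y119.HY.cm_one]
  · ext i j
    have h := Lq_step hQ k i j
    unfold Hk
    rw [← Pool.Agent.Y119.HY.cm_transpose, ← Pool.Agent.Y119.HY.cm_transpose, ← Pool.Agent.Y119.HY.cm_neg,
      ← Pool.Agent.Y119.HY.cm_neg, ← Pool.Agent.Y119.HY.cm_mul, ← Pool.Agent.Y119.HY.cm_mul, ← Pool.Agent.Y119.HY.cm_mul,
      ← Pool.Agent.Y119.HY.cm_mul, ← Pool.Agent.Y119.HY.cm_mul]
    simp only [Matrix.add_apply, Matrix.smul_apply, Matrix.sub_apply, smul_eq_mul, Pool.Agent.Y119.HY.cm_apply]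
    exact_mod_cast h

end Pool.Agent.E8helper43.HS
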