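import Pool.Agent.Y119.HY.Rl

/-!
# Systems `Y' = (N / z + B / (1 - z)) Y` with `N` an integral nilpotent matrix and `B` rational: the arithmetic part

This is the file `Pool/Agent/Y119/HY/Fam` for general systems.
-/

set_option autoImplicit false
set_option maxHeartbeats 4000000

open PowerSeries

namespace Pool.Agent.E8helper43.HS

open Pool.Agent.Y113 hiding Bm
open Pool.Agent.Y120.GF Pool.Agent.Y120.GH
open Pool.Agent.Y119.HY (cm Sol Hf Ep E Ep_eval E_neg Yf Vr Rel Gal)
open Pool.Agent.Y119.HZ (ps_X_mul cf km km_apply cf_km_mul cf_mul_km th th_mul th_km cf_th cf_ext T1 ps_T1 gsysL family_gsys pE pE_deriv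
  pE_bound Ep_eval_zero cxR psR psR_apply cxR_apply ix rho)

variable {n : ℕ} {N : Matrix (Fin n) (Fin n) ℤ} {B : Matrix (Fin n) (Fin n) ℚ} {H : ℕ → Matrix (Fin n) (Fin n) ℚ}

/-- rational matrix -/
noncomputable def nq (N : Matrix (Fin n) (Fin n) ℤ) : Matrix (Fin n) (Fin n) ℚ := (Int.castRingHom ℚ).mapMatrix N

lemma nq_apply (N : Matrix (Fin n) (Fin n) ℤ) (i j : Fin n) : nq N i j = (N i j : ℚ) := rfl

/-- the matrix of power series -/
noncomputable def mp (H : ℕ → Matrix (Fin n) (Fin n) ℚ) : Matrix (Fin n) (Fin n) ℚ⟦X⟧ :=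
  Matrix.of fun i j => PowerSeries.mk fun k => H k i j

/-- systems of G-functions -/
structure GS (N : Matrix (Fin n) (Fin n) ℤ) (B : Matrix (Fin n) (Fin n) ℚ) (H : ℕ → Matrix (Fin n) (Fin n) ℚ) : Prop where
  nil : N ^ n = 0
  zero : H 0 = 1
  step : ∀ k : ℕ, ((k : ℚ) + 1) • H (k + 1) + (H (k + 1) * nq N - nq N * H (k + 1)) =
    (k : ℚ) • H k + (H k * nq N - nq N * H k) + B * H k
  sdc : ∀ i j, SDc (mp H i j)
  inv : ∃ W : Matrix (Fin n) (Fin n) ℚ⟦X⟧, mp H * W = 1 ∧ ∀ i j, SDc (W i j)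

lemma nq_nil (hG : GS N B H) : nq N ^ n = 0 := by
  unfold nq
  rw [← map_pow, hG.nil, map_zero]

lemma cf_mp (k : ℕ) : cf (mp H) k = H k := by
  ext i j
  unfold cf mp
  rw [Matrix.map_apply, Matrix.of_apply, coeff_mk]

/-- the system at the origin -/
theorem ode_mp (hG : GS N B H) : (1 - X : ℚ⟦X⟧) • (th (mp H) + mp H * km (nq N)) =
    ((1 - X : ℚ⟦X⟧) • km (nq N) + (X : ℚ⟦X⟧) • km B) * mp H := by
  have hS : (1 - X : ℚ⟦X⟧) • (th (mp H) + mp H * km (nq N) - km (nq N) * mp H) = (X : ℚ⟦X⟧) • (km B * mp H) := by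
    have hc : ∀ k, cf (th (mp H) + mp H * km (nq N) - km (nq N) * mp H) k =
        (k : ℚ) • H k + (H k * nq N - nq N * H k) := by
      intro k
      have h1 : cf (th (mp H) + mp H * km (nq N) - km (nq N) * mp H) k =
          cf (th (mp H)) k + cf (mp H * km (nq N)) k - cf (km (nq N) * mp H) k := by
        ext i j
        unfold cf
        simp only [Matrix.map_apply, Matrix.sub_apply, Matrix.add_apply, map_sub, map_add]
      rw [h1, cf_th, cf_mul_km, cf_km_mul, cf_mp, add_sub_assoc]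
    ext i j k
    rw [Matrix.smul_apply, Matrix.smul_apply, smul_eq_mul, smul_eq_mul, sub_mul, one_mul, map_sub]
    have h2 : ∀ k, coeff k ((th (mp H) + mp H * km (nq N) - km (nq N) * mp H) i j) =
        ((k : ℚ) • H k + (H k * nq N - nq N * H k)) i j := fun k => congrFun (congrFun (hc k) i) j
    have h3 : ∀ k, coeff k ((km B * mp H) i j) = (B * H k) i j := by
      intro k
      have := congrFun (congrFun (cf_km_mul B (mp H) k) i) j
      rw [cf_mp] at this
      exact this
    rcases k with _ | k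
    · rw [coeff_zero_X_mul, coeff_zero_X_mul, h2, hG.zero]
      simp
    · rw [coeff_succ_X_mul, coeff_succ_X_mul, h2, h2, h3]
      have h4 := congrFun (congrFun (hG.step k) i) j
      simp only [Matrix.add_apply, Matrix.smul_apply, Matrix.sub_apply, smul_eq_mul] at h4 ⊢
      push_cast
      linear_combination h4
  rw [smul_sub] at hS
  rw [add_mul, smul_mul_assoc, smul_mul_assoc, ← hS]
  abel

/-- the integral matrix -/
noncomputable def A1 (N : Matrix (Fin n) (Fin n) ℤ) (D : ℕ) (b : Fin n → Fin n → ℤ) (i j : Fin n) : Polynomial ℤ :=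
  Polynomial.C ((D : ℤ) * N i j) * (1 - Polynomial.X) + Polynomial.C (b i j) * Polynomial.X

lemma ps_A1 {D : ℕ} {b : Fin n → Fin n → ℤ} (hb : ∀ i j, (b i j : ℚ) = D * B i j) (i j : Fin n) :
    ps (A1 N D b i j) = C (D : ℚ) * ((1 - X) * C (nq N i j) + X * C (B i j)) := by
  unfold ps A1
  rw [Polynomial.map_add, Polynomial.map_mul, Polynomial.map_mul, Polynomial.map_sub, Polynomial.map_one, Polynomial.map_X,
    Polynomial.map_C, Polynomial.map_C, Polynomial.coe_add, Polynomial.coe_mul, Polynomial.coe_mul,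
    Polynomial.coe_C, Polynomial.coe_C, Polynomial.coe_sub, Polynomial.coe_one, Polynomial.coe_X]
  have e1 : (Int.castRingHom ℚ) (b i j) = D * B i j := hb i j
  have e2 : (Int.castRingHom ℚ) ((D : ℤ) * N i j) = D * nq N i j := by
    rw [nq_apply]
    simp
  rw [e1, e2, map_mul, map_mul]
  ring

lemma ode_int (hG : GS N B H) {D : ℕ} {b : Fin n → Fin n → ℤ} (hb : ∀ i j, (b i j : ℚ) = D * B i j) (i j : Fin n) :
    ps (T1 D) * (X * d⁄dX ℚ (mp H i j) + ∑ k, mp H i k * C (nq N k j)) = ∑ k, ps (A1 N D b i k) * mp H k j := by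
  have h1 := congrFun (congrFun (ode_mp hG) i) j
  rw [Matrix.smul_apply, Matrix.add_apply, Matrix.mul_apply, Matrix.mul_apply, smul_eq_mul] at h1
  rw [ps_T1, mul_assoc]
  have h2 : X * d⁄dX ℚ (mp H i j) = th (mp H) i j := rfl
  have h3 : ∑ k, mp H i k * C (nq N k j) = ∑ k, mp H i k * km (nq N) k j := rfl
  rw [h2, h3, h1, Finset.mul_sum]
  refine Finset.sum_congr rfl fun k _ => ?_
  rw [ps_A1 hb, Matrix.add_apply, Matrix.smul_apply, Matrix.smul_apply, smul_eq_mul, smul_eq_mul, km_apply, km_apply]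
  ring

lemma exists_b (B : Matrix (Fin n) (Fin n) ℚ) : ∃ (D : ℕ) (b : Fin n → Fin n → ℤ), D ≠ 0 ∧ ∀ i j, (b i j : ℚ) = D * B i j := by
  classical
  set D : ℕ := ∏ p : Fin n × Fin n, (B p.1 p.2).den with hD
  have hD0 : D ≠ 0 := Finset.prod_ne_zero_iff.2 fun p _ => (B p.1 p.2).den_nz
  have h1 : ∀ i j, ∃ b : ℤ, (b : ℚ) = D * B i j := by
    intro i j
    obtain ⟨c, hc⟩ : (B i j).den ∣ D :=
      Finset.dvd_prod_of_mem (fun p : Fin n × Fin n => (B p.1 p.2).den) (Finset.mem_univ (i, j))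
    refine ⟨c * (B i j).num, ?_⟩
    have h2 := Rat.mul_den_eq_num (B i j)
    rw [hc]
    push_cast
    rw [← h2]
    ring
  choose b hb using h1
  exact ⟨D, b, hD0, hb⟩

/-- **the entries of the holomorphic part form a G-system** -/
theorem gsys_mp (hG : GS N B H) {D : ℕ} {b : Fin n → Fin n → ℤ} (hb : ∀ i j, (b i j : ℚ) = D * B i j) :
    ∃ (q : ℕ) (C : ℝ), GSys q C (Polynomial.X * T1 D) (fun p : Fin n × Fin n => mp H p.1 p.2) := by
  obtain ⟨W, hW, hWs⟩ := hG.inv
  exact gsysL (N := nq N) (nq_nil hG) hW (ode_int hG hb) hG.sdc hWs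

/-! ### the system for the entries -/

/-- the system for the entries of the holomorphic part -/
noncomputable def A2 (N : Matrix (Fin n) (Fin n) ℤ) (D : ℕ) (b : Fin n → Fin n → ℤ) (p q : Fin n × Fin n) : Polynomial ℤ :=
  (if q.2 = p.2 then A1 N D b p.1 q.1 else 0) - (if q.1 = p.1 then T1 D * Polynomial.C (N q.2 p.2) else 0)

/-- summation -/
lemma sum_A2 {R : Type*} [CommRing R] (f : Polynomial ℤ →+* R) (D : ℕ) (b : Fin n → Fin n → ℤ) (p : Fin n × Fin n)
    (x : Fin n × Fin n → R) : ∑ q, f (A2 N D b p q) * x q =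
      ∑ k, f (A1 N D b p.1 k) * x (k, p.2) - f (T1 D) * ∑ l : Fin n, f (Polynomial.C (N l p.2)) * x (p.1, l) := by
  unfold A2
  simp only [map_sub, sub_mul, Finset.sum_sub_distrib]
  congr 1
  · rw [Fintype.sum_prod_type]
    refine Finset.sum_congr rfl fun k _ => ?_
    rw [Finset.sum_eq_single p.2]
    · simp
    · intro l _ hl
      rw [if_neg hl, map_zero, zero_mul]
    · intro h
      exact absurd (Finset.mem_univ _) h
  · rw [Fintype.sum_prod_type, Finset.sum_eq_single p.1]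
    · rw [Finset.mul_sum]
      refine Finset.sum_congr rfl fun l _ => ?_
      rw [if_pos rfl, map_mul]
      ring
    · intro k _ hk
      refine Finset.sum_eq_zero fun l _ => ?_
      rw [if_neg hk, map_zero, zero_mul]
    · intro h
      exact absurd (Finset.mem_univ _) h

lemma psR_N (l j : Fin n) : psR (Polynomial.C (N l j)) = C (nq N l j) := by
  rw [psR_apply]
  unfold ps
  rw [Polynomial.map_C, Polynomial.coe_C]
  rfl

lemma ode_A2 (hG : GS N B H) {D : ℕ} {b : Fin n → Fin n → ℤ} (hb : ∀ i j, (b i j : ℚ) = D * B i j)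
    (p : Fin n × Fin n) : ps (Polynomial.X * T1 D) * d⁄dX ℚ (mp H p.1 p.2) =
      ∑ q, ps (A2 N D b p q) * mp H q.1 q.2 := by
  have h1 := sum_A2 (N := N) psR D b p (fun q => mp H q.1 q.2)
  simp only [psR_N] at h1
  simp only [psR_apply] at h1
  rw [h1, ← ode_int hG hb, ps_X_mul]
  have h2 : ∑ l, C (nq N l p.2) * mp H p.1 l = ∑ k, mp H p.1 k * C (nq N k p.2) :=
    Finset.sum_congr rfl fun l _ => mul_comm _ _
  rw [h2]
  ring

/-- complex power series as constants in the polynomials in the logarithm -/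
noncomputable def Phi (N : Matrix (Fin n) (Fin n) ℤ) (H : ℕ → Matrix (Fin n) (Fin n) ℚ) (p q : Fin n × Fin n) :
    Polynomial (PowerSeries ℂ) :=
  ∑ c, Polynomial.C (cx (mp H p.1 c)) * (pE (cm (nq N)) c q.1 q.2 p.2).map (C (R := ℂ))

lemma Phi_coeff (p q : Fin n × Fin n) (k : ℕ) : (Phi N H p q).coeff k =
    ∑ c, cx (mp H p.1 c) * C ((pE (cm (nq N)) c q.1 q.2 p.2).coeff k) := by
  unfold Phi
  rw [Polynomial.finsetSum_coeff]
  refine Finset.sum_congr rfl fun c _ => ?_
  rw [Polynomial.coeff_C_mul, Polynomial.coeff_map]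

lemma cxR_N (l j : Fin n) : cxR (Polynomial.C (N l j)) = C (cm (nq N) l j) := by
  show cx (psR (Polynomial.C (N l j))) = _
  rw [psR_N, cx_C]
  rfl

lemma cnil (hG : GS N B H) : cm (nq N) ^ n = 0 := by
  rw [← Pool.Agent.Y119.HY.cm_pow, nq_nil hG, Pool.Agent.Y119.HY.cm_zero]

theorem Phi_ode (hG : GS N B H) {D : ℕ} {b : Fin n → Fin n → ℤ} (hb : ∀ i j, (b i j : ℚ) = D * B i j)
    (p q : Fin n × Fin n) (k : ℕ) : cxR (T1 D) * ((X : PowerSeries ℂ) * PowerSeries.derivative ℂ ((Phi N H p q).coeff k) +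
      ((k : PowerSeries ℂ) + 1) * (Phi N H p q).coeff (k + 1)) = ∑ l, cxR (A2 N D b p l) * (Phi N H l q).coeff k := by
  have hN : cm (nq N) ^ n = 0 := cnil hG
  obtain ⟨i, j⟩ := p
  obtain ⟨a, c'⟩ := q
  -- the equation over the complex numbers
  have hode : ∀ i j, cxR (T1 D) * (X * PowerSeries.derivative ℂ (cx (mp H i j)) + ∑ k, cx (mp H i k) * C (cm (nq N) k j)) =
      ∑ k, cxR (A1 N D b i k) * cx (mp H k j) := by
    intro i j
    have h1 := congrArg cx (ode_int hG hb i j)
    rw [map_mul, map_add, map_mul, map_sum, map_sum, cx_der] at h1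
    have h2 : cx (X : ℚ⟦X⟧) = X := by rw [cx, map_X]
    rw [h2] at h1
    simp only [map_mul, cx_C] at h1
    exact h1
  rw [sum_A2]
  simp only [cxR_N]
  simp only [Phi_coeff]
  set M := cm (nq N) with hNd
  -- the derivative of the coefficients
  have hd : PowerSeries.derivative ℂ (∑ c, cx (mp H i c) * C ((pE M c a c' j).coeff k)) =
      ∑ c, PowerSeries.derivative ℂ (cx (mp H i c)) * C ((pE M c a c' j).coeff k) := by
    rw [map_sum]
    refine Finset.sum_congr rfl fun c _ => ?_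
    rw [Derivation.leibniz, PowerSeries.derivative_C]
    simp only [smul_eq_mul]
    ring
  have hk : ((k : PowerSeries ℂ) + 1) * ∑ c, cx (mp H i c) * C ((pE M c a c' j).coeff (k + 1)) =
      ∑ c, (∑ d, cx (mp H i d) * C (M d c)) * C ((pE M c a c' j).coeff k) -
      ∑ l, C (M l j) * ∑ c, cx (mp H i c) * C ((pE M c a c' l).coeff k) := by
    have e1 : ((k : PowerSeries ℂ) + 1) = C ((k : ℂ) + 1) := by rw [map_add, map_one, map_natCast]
    have e2 : ∀ c, C ((k : ℂ) + 1) * (cx (mp H i c) * C ((pE M c a c' j).coeff (k + 1))) =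
        cx (mp H i c) * (∑ d, C (M c d) * C ((pE M d a c' j).coeff k)) -
        cx (mp H i c) * ∑ d, C (M d j) * C ((pE M c a c' d).coeff k) := by
      intro c
      have e3 : C ((k : ℂ) + 1) * C ((pE M c a c' j).coeff (k + 1)) =
          (∑ d, C (M c d) * C ((pE M d a c' j).coeff k)) - ∑ d, C (M d j) * C ((pE M c a c' d).coeff k) := by
        rw [← map_mul, pE_deriv hN, map_sub, map_sum, map_sum]
        simp only [map_mul]
      rw [← mul_sub, ← e3]
      ring
    rw [e1, Finset.mul_sum, Finset.sum_congr rfl fun c _ => e2 c, Finset.sum_sub_distrib]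
    congr 1
    · simp only [Finset.mul_sum, Finset.sum_mul]
      rw [Finset.sum_comm]
      exact Finset.sum_congr rfl fun c _ => Finset.sum_congr rfl fun d _ => by ring
    · simp only [Finset.mul_sum]
      rw [Finset.sum_comm]
      exact Finset.sum_congr rfl fun c _ => Finset.sum_congr rfl fun d _ => by ring
  rw [hd, hk]
  have hmain : cxR (T1 D) * ((X : PowerSeries ℂ) * ∑ c, PowerSeries.derivative ℂ (cx (mp H i c)) * C ((pE M c a c' j).coeff k) +
      ∑ c, (∑ d, cx (mp H i d) * C (M d c)) * C ((pE M c a c' j).coeff k)) =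
      ∑ k', cxR (A1 N D b i k') * ∑ c, cx (mp H k' c) * C ((pE M c a c' j).coeff k) := by
    have e1 : (X : PowerSeries ℂ) * ∑ c, PowerSeries.derivative ℂ (cx (mp H i c)) * C ((pE M c a c' j).coeff k) +
        ∑ c, (∑ d, cx (mp H i d) * C (M d c)) * C ((pE M c a c' j).coeff k) =
        ∑ c, (X * PowerSeries.derivative ℂ (cx (mp H i c)) + ∑ d, cx (mp H i d) * C (M d c)) *
          C ((pE M c a c' j).coeff k) := by
      rw [Finset.mul_sum, ← Finset.sum_add_distrib]
      exact Finset.sum_congr rfl fun c _ => by ring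
    rw [e1, Finset.mul_sum]
    have e2 : ∀ c, cxR (T1 D) * ((X * PowerSeries.derivative ℂ (cx (mp H i c)) + ∑ d, cx (mp H i d) * C (M d c)) *
          C ((pE M c a c' j).coeff k)) = ∑ k', cxR (A1 N D b i k') * (cx (mp H k' c) * C ((pE M c a c' j).coeff k)) := by
      intro c
      rw [← mul_assoc, hode i c, Finset.sum_mul]
      exact Finset.sum_congr rfl fun k' _ => by ring
    rw [Finset.sum_congr rfl fun c _ => e2 c, Finset.sum_comm]
    exact Finset.sum_congr rfl fun k' _ => by rw [Finset.mul_sum]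
  rw [← hmain]
  ring

/-- the entries as a family -/
noncomputable def hf (H : ℕ → Matrix (Fin n) (Fin n) ℚ) (a : Fin (n * n)) : ℚ⟦X⟧ := mp H (ix n a).1 (ix n a).2

lemma rho_Phi (hG : GS N B H) (p q : Fin n × Fin n) : rho (Phi N H p q) = if p = q then 1 else 0 := by
  have hN : cm (nq N) ^ n = 0 := cnil hG
  have hN' : (-cm (nq N)) ^ n = 0 := by rw [neg_pow, hN, mul_zero]
  unfold Phi
  rw [map_sum]
  have h1 : ∀ c, rho (Polynomial.C (cx (mp H p.1 c)) * (pE (cm (nq N)) c q.1 q.2 p.2).map (C (R := ℂ))) =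
      (if p.1 = c then 1 else 0) * ((if c = q.1 then 1 else 0) * (if q.2 = p.2 then 1 else 0)) := by
    intro c
    unfold rho
    rw [map_mul, RingHom.comp_apply, RingHom.comp_apply, Polynomial.coe_evalRingHom, Polynomial.eval_C]
    congr 1
    · rw [← coeff_zero_eq_constantCoeff_apply, coeff_cx]
      have h2 : coeff 0 (mp H p.1 c) = H 0 p.1 c := congrFun (congrFun (cf_mp (H := H) 0) p.1) c
      rw [h2, hG.zero, Matrix.one_apply]
      split_ifs <;> simp
    · have h3 : Polynomial.eval 0 ((pE (cm (nq N)) c q.1 q.2 p.2).map (C (R := ℂ))) =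
          C ((pE (cm (nq N)) c q.1 q.2 p.2).eval 0) := by
        have := Polynomial.eval_map_apply (p := pE (cm (nq N)) c q.1 q.2 p.2) (C (R := ℂ)) 0
        rw [map_zero] at this
        exact this
      rw [h3]
      unfold pE
      rw [Polynomial.eval_mul, Ep_eval_zero hN, Ep_eval_zero hN']
      simp
  simp only [h1]
  rw [Finset.sum_eq_single p.1]
  · rw [if_pos rfl, one_mul]
    by_cases h2 : p = q
    · rw [if_pos h2, h2, if_pos rfl, if_pos rfl, one_mul]
    · rw [if_neg h2]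
      by_cases h3 : p.1 = q.1
      · rw [if_neg (fun h4 : q.2 = p.2 => h2 (Prod.ext h3 h4.symm)), mul_zero]
      · rw [if_neg h3, zero_mul]
  · intro c _ hc
    rw [if_neg (Ne.symm hc), zero_mul]
  · intro h
    exact absurd (Finset.mem_univ _) h

theorem qu_hf (hG : GS N B H) {D : ℕ} {b : Fin n → Fin n → ℤ}
    (hb : ∀ i j, (b i j : ℚ) = D * B i j) :
    QU0 (Polynomial.X * T1 D) (fun a c : Fin (n * n) => A2 N D b (ix n a) (ix n c)) := by
  classical
  obtain ⟨B₁, hB0, hB⟩ := pE_bound (cm (nq N))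
  obtain ⟨C₁, hC₁, hs, -⟩ := Pool.Agent.Y119.HY.SDc.unif (y := fun p : Fin n × Fin n => mp H p.1 p.2) fun p => hG.sdc p.1 p.2
  refine ⟨1, one_ne_zero, 0, (n * B₁ + 1) * C₁, Matrix.of fun a c => Phi N H (ix n a) (ix n c), fun a c k m => ?_,
    fun a c k => ?_, ?_⟩
  · rw [Matrix.of_apply, Phi_coeff, map_sum]
    have h1 : ∀ d, ‖coeff m (cx (mp H (ix n a).1 d) * C ((pE (cm (nq N)) d (ix n c).1 (ix n c).2 (ix n a).2).coeff k))‖ ≤
        C₁ ^ (m + 1) * B₁ := by
      intro d
      rw [coeff_mul_C, norm_mul, norm_coeff_cx]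
      exact mul_le_mul (hs (_, d) m) (hB _ _ _ _ _) (norm_nonneg _) (by positivity)
    refine (norm_sum_le _ _).trans ((Finset.sum_le_sum fun d _ => h1 d).trans ?_)
    rw [Finset.sum_const, Finset.card_univ, Fintype.card_fin, nsmul_eq_mul, mul_pow]
    have h2 : (n : ℝ) * B₁ ≤ (n * B₁ + 1) ^ (m + 1) := by
      have h3 : 0 ≤ (n : ℝ) * B₁ := by positivity
      exact le_trans (by linarith) (le_self_pow₀ (by linarith) (by omega))
    calc (n : ℝ) * (C₁ ^ (m + 1) * B₁) = (n * B₁) * C₁ ^ (m + 1) := by ring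
      _ ≤ _ := mul_le_mul_of_nonneg_right h2 (by positivity)
  · have h1 := Phi_ode hG hb (ix n a) (ix n c) k
    simp only [expand_poly one_ne_zero, Polynomial.expand_one]
    simp only [← cxR_apply]
    rw [Nat.cast_zero, zero_mul, sub_zero, Nat.cast_one, one_mul, pow_one]
    have h2 : ∑ l : Fin (n * n), cxR (A2 N D b (ix n a) (ix n l)) * ((Matrix.of fun a c => Phi N H (ix n a) (ix n c)) l c).coeff k =
        ∑ l, cxR (A2 N D b (ix n a) l) * (Phi N H l (ix n c)).coeff k :=
      Equiv.sum_comp (ix n) fun l => cxR (A2 N D b (ix n a) l) * (Phi N H l (ix n c)).coeff k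
    rw [h2, ← h1, map_mul]
    have h3 : cxR Polynomial.X = (X : PowerSeries ℂ) := by
      rw [cxR_apply, Polynomial.map_X, Polynomial.coe_X]
    rw [h3, mul_assoc]
    rfl
  · intro h0
    have h1 := congrArg rho h0
    rw [RingHom.map_det, map_zero] at h1
    have h2 : rho.mapMatrix (Matrix.of fun a c : Fin (n * n) => Phi N H (ix n a) (ix n c)) = 1 := by
      ext a c
      rw [RingHom.mapMatrix_apply, Matrix.map_apply, Matrix.of_apply, rho_Phi hG, Matrix.one_apply]
      by_cases h3 : a = c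
      · rw [if_pos h3, if_pos (by rw [h3])]
      · rw [if_neg h3, if_neg fun h4 => h3 ((ix n).injective h4)]
    rw [h2, Matrix.det_one] at h1
    exact one_ne_zero h1

/-- **the hypothesis of the theorem on tuples** -/
theorem hfam_hf (hG : GS N B H) (δ : ℕ) :
    ∃ (B₀ : Finset (Fin δ → Option (Fin (n * n)))) (a : Polynomial ℤ)
      (M : (Fin δ → Option (Fin (n * n))) → B₀ → Polynomial ℤ), a ≠ 0 ∧
      (∀ b, ps a * yw (hf H) b = ∑ β, ps (M b β) * yw (hf H) β.1) ∧ One (XF δ fun β : B₀ => yw (hf H) β.1) := by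
  obtain ⟨D, b, hD, hb⟩ := exists_b B
  obtain ⟨q, C, hGs⟩ := gsys_mp hG hb
  have hG' := hGs.reindex (ix n)
  have hT : Polynomial.X * T1 D ≠ 0 := by
    refine mul_ne_zero Polynomial.X_ne_zero (mul_ne_zero (Polynomial.C_ne_zero.2 (by exact_mod_cast hD)) ?_)
    intro h0
    have := congrArg (Polynomial.eval 0) h0
    simp at this
  refine family_gsys (h := hf H) (A := fun a c => A2 N D b (ix n a) (ix n c)) hT (fun i => ?_) hG' (qu_hf hG hb) δ
  have h1 := ode_A2 hG hb (ix n i)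
  have h2 : ∑ j : Fin (n * n), ps (A2 N D b (ix n i) (ix n j)) * hf H j =
      ∑ q, ps (A2 N D b (ix n i) q) * mp H q.1 q.2 :=
    Equiv.sum_comp (ix n) fun q => ps (A2 N D b (ix n i) q) * mp H q.1 q.2
  exact h1.trans h2.symm

end Pool.Agent.E8helper43.HS
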