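import Pool.Agent.E8helper43.HS.SlG

/-!
# The group of a hypergeometric system
-/

set_option autoImplicit false
set_option maxHeartbeats 4000000

open Filter Topology Matrix

namespace Pool.Agent.E8helper43.HS

open Pool.Agent.Y119.HY (cm Sol Hf Ep E Ep_eval E_neg E_zero E_mul_neg E_add Yf Rel Gal Am Bm kx aq hq Hq uc ps Ac_nil)
open Pool.Agent.Y119.HZ (ix evq)

variable {n : ℕ}

/-- exponentials of nilpotent matrices have determinant one -/
lemma det_E {N : Matrix (Fin n) (Fin n) ℂ} (hN : N ^ n = 0) (s : ℂ) : (E N s).det = 1 := by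
  set D : Polynomial ℂ := (Ep N).det with hD
  have hDe : ∀ c, D.eval c = (E N c).det := by
    intro c
    have h1 : D.eval c = ((Polynomial.evalRingHom c).mapMatrix (Ep N)).det := RingHom.map_det (Polynomial.evalRingHom c) _
    rw [h1, ← Ep_eval]
    rfl
  have h1 : D * D.comp (-Polynomial.X) = 1 := Polynomial.funext fun c => by
    rw [Polynomial.eval_mul, Polynomial.eval_comp, Polynomial.eval_neg, Polynomial.eval_X, hDe, hDe, ← det_mul,
      E_mul_neg hN, det_one, Polynomial.eval_one]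
  have h2 : D.natDegree = 0 := Polynomial.natDegree_eq_zero_of_isUnit (IsUnit.of_mul_eq_one _ h1)
  rw [← hDe, Polynomial.eq_C_of_natDegree_eq_zero h2, Polynomial.eval_C, Polynomial.coeff_zero_eq_eval_zero, hDe,
    E_zero hN, det_one]

variable {N : Matrix (Fin n) (Fin n) ℤ} {B : Matrix (Fin n) (Fin n) ℚ} {H : ℕ → Matrix (Fin n) (Fin n) ℚ}

/-- relations between the power series hold for the values -/
lemma det_Hf (hG : GS N B H) (hdet : (mp H).det = 1) {x : ℝ} (hx : 0 < x) (hx1 : x < 1) : (Hf (Hk H) (x : ℂ)).det = 1 := by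
  set MX : Matrix (Fin n) (Fin n) (MvPolynomial (Fin (n * n)) (Polynomial ℚ)) :=
    Matrix.of fun i j => MvPolynomial.X ((ix n).symm (i, j)) with hMX
  have h1 : MvPolynomial.aeval (hf H) (MX.det - 1) = 0 := by
    rw [map_sub, map_one, AlgHom.map_det]
    have e1 : (MvPolynomial.aeval (hf H)).mapMatrix MX = mp H := by
      ext1 i j
      rw [AlgHom.mapMatrix_apply, Matrix.map_apply, hMX, Matrix.of_apply, MvPolynomial.aeval_X]
      unfold hf
      rw [Equiv.apply_symm_apply]
    rw [e1, hdet, sub_self]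
  have hN : cm (nq N) ^ n = 0 := cnil hG
  have h2 := rel_inv hG h1 hx hx1 (κ := 1) (by
    rw [mul_one]
    have := E_mul_neg hN (-(Complex.log x))
    rw [neg_neg] at this
    rw [this]
    exact one_mem _)
  rw [mul_one] at h2
  set f : MvPolynomial (Fin (n * n)) (Polynomial ℚ) →+* ℂ := MvPolynomial.eval₂Hom (evq (x : ℂ))
    (fun j => Hf (Hk H) (x : ℂ) (ix n j).1 (ix n j).2) with hf'
  have h3 : f (MX.det - 1) = 0 := h2
  rw [map_sub, map_one, RingHom.map_det] at h3
  have e2 : f.mapMatrix MX = Hf (Hk H) (x : ℂ) := by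
    ext1 i j
    rw [RingHom.mapMatrix_apply, Matrix.map_apply, hMX, Matrix.of_apply, hf']
    rw [MvPolynomial.coe_eval₂Hom, MvPolynomial.eval₂_X, Equiv.apply_symm_apply]
  rw [e2] at h3
  exact sub_eq_zero.1 h3

/-- **the group of a hypergeometric system** -/
theorem gg_of {β : Fin n → ℚ} (h : BD β) (hns : ¬ Eqv β fun j => -β j) : GG (An n) (Hq n (QL β)) (SLs n) where
  gal := fun g hg => by
    rw [nq_An]
    exact sl_gal h hns g hg
  exp := fun s => by
    rw [nq_An]
    exact det_E Ac_nil s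
  hol := fun x hx hx1 => by
    have h1 := det_Hf (gs_of h) (det_Hq (qg_of h)) hx hx1
    refine ⟨(Hf (Hk (Hq n (QL β))) (x : ℂ))⁻¹, ?_, mul_nonsing_inv _ (by rw [h1]; exact isUnit_one)⟩
    rw [mem_SLs, det_nonsing_inv, h1]
    simp

end Pool.Agent.E8helper43.HS
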