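import Pool.Agent.E8helper43.HS.Conn
import Pool.Agent.E8helper43.HS.Dual

/-!
# The vectors of the transvection at one are limits of coefficients
-/

set_option autoImplicit false
set_option maxHeartbeats 4000000

open Filter Topology Matrix

namespace Pool.Agent.E8helper43.HS

open Pool.Agent.Y119.HY (cm Sol Hf Ep E Ep_eval E_neg E_zero E_mul_neg E_add Yf Rel Gal Lens mem_Lens slit_Lens real_mem_Lens
  symm_Lens Hf_an Hf_zero exists_sol Am Bm kx aq hq Hq uc ps ps_sum ps_smul E_HD)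

variable {n : ℕ}

lemma tendsto_mul_log {h : ℂ → ℂ} (ha : AnalyticAt ℂ h 0) (h0 : h 0 = 0) :
    Tendsto (fun w : ℝ => Complex.log (w : ℂ) * h (w : ℂ)) (𝓝[>] 0) (𝓝 0) := by
  have hof : Tendsto (fun x : ℝ => (x : ℂ)) (𝓝[>] 0) (𝓝 0) :=
    tendsto_nhdsWithin_of_tendsto_nhds (by
      have := Complex.continuous_ofReal.tendsto 0
      simpa using this)
  have hd : ContinuousAt (dslope h 0) 0 := (continuousAt_dslope_same).2 ha.differentiableAt
  have h2 : Tendsto (fun x : ℝ => dslope h 0 (x : ℂ)) (𝓝[>] 0) (𝓝 (dslope h 0 0)) := hd.tendsto.comp hof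
  have h3 : Tendsto (fun x : ℝ => ((x * Real.log x ^ 1 : ℝ) : ℂ)) (𝓝[>] 0) (𝓝 0) := by
    have := (Complex.continuous_ofReal.tendsto 0).comp (Pool.Agent.Y119.HY.tendsto_mul_log_pow 1)
    rw [Complex.ofReal_zero] at this
    exact this
  have h4 := h2.mul h3
  rw [mul_zero] at h4
  refine h4.congr' ?_
  filter_upwards [self_mem_nhdsWithin] with x hx
  have hx0 : 0 < x := hx
  have h5 : (x : ℂ) * dslope h 0 (x : ℂ) = h x := by
    have := sub_smul_dslope h 0 (x : ℂ)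
    rw [sub_zero, smul_eq_mul, h0, sub_zero] at this
    exact this
  rw [← h5, ← Complex.ofReal_log hx0.le]
  push_cast
  ring

/-- the limit at the singular point -/
theorem lim_row {x ξ : Fin n → ℂ} {N : Matrix (Fin n) (Fin n) ℂ} {K : ℕ → Matrix (Fin n) (Fin n) ℂ} (hn : 2 ≤ n)
    (h : ξ ⬝ᵥ x = 0) (hK : Sol (vecMulVec x ξ) N K) :
    Tendsto (fun w : ℝ => ξ ᵥ* Yf (vecMulVec x ξ) K (w : ℂ)) (𝓝[>] 0) (𝓝 ξ) := by
  have hnil : vecMulVec x ξ ^ n = 0 := vv_pow h hn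
  have hof : Tendsto (fun x : ℝ => (x : ℂ)) (𝓝[>] 0) (𝓝 0) :=
    tendsto_nhdsWithin_of_tendsto_nhds (by
      have := Complex.continuous_ofReal.tendsto 0
      simpa using this)
  have h0b : (0 : ℂ) ∈ Metric.ball (0 : ℂ) 1 := Metric.mem_ball_self one_pos
  have hη : ∀ j, AnalyticAt ℂ (fun w : ℂ => (ξ ᵥ* Hf K w) j) 0 := by
    intro j
    simp only [Matrix.vecMul, dotProduct]
    exact Finset.analyticAt_fun_sum _ fun i _ => analyticAt_const.mul (Hf_an hK hnil i j 0 h0b)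
  have hη0 : ξ ᵥ* Hf K 0 = ξ := by rw [Hf_zero hK, vecMul_one]
  have e1 : ∀ w : ℝ, ξ ᵥ* Yf (vecMulVec x ξ) K (w : ℂ) =
      ξ ᵥ* Hf K (w : ℂ) + (Complex.log (w : ℂ) * ((ξ ᵥ* Hf K (w : ℂ)) ⬝ᵥ x)) • ξ := by
    intro w
    unfold Yf
    rw [E_vv hn h, ← vecMul_vecMul, vecMul_tr]
  rw [tendsto_pi_nhds]
  intro j
  have h1 : Tendsto (fun w : ℝ => (ξ ᵥ* Hf K (w : ℂ)) j) (𝓝[>] 0) (𝓝 (ξ j)) := by
    have := (hη j).continuousAt.tendsto.comp hof
    rw [hη0] at this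
    exact this
  have h2 : Tendsto (fun w : ℝ => Complex.log (w : ℂ) * ((ξ ᵥ* Hf K (w : ℂ)) ⬝ᵥ x)) (𝓝[>] 0) (𝓝 0) := by
    refine tendsto_mul_log (h := fun w => (ξ ᵥ* Hf K w) ⬝ᵥ x) ?_ ?_
    · simp only [dotProduct]
      exact Finset.analyticAt_fun_sum _ fun i _ => (hη i).mul analyticAt_const
    · show (ξ ᵥ* Hf K 0) ⬝ᵥ x = 0
      rw [hη0, h]
  have h3 := h1.add (h2.mul_const (ξ j))
  rw [zero_mul, add_zero] at h3
  refine h3.congr fun w => ?_
  rw [e1]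
  rfl

variable {N0 N1 : Matrix (Fin n) (Fin n) ℂ} {H : ℕ → Matrix (Fin n) (Fin n) ℂ}

/-- the limit of the rows at `1` -/
theorem abel_row (hH : Sol N0 N1 H) (h : N0 ^ n = 0) (ξ ℓ : Fin n → ℂ)
    (hl : ∀ j, Tendsto (fun m => ∑ k ∈ Finset.range m, (ξ ᵥ* H k) j) atTop (𝓝 (ℓ j))) :
    Tendsto (fun x : ℝ => ξ ᵥ* Yf N0 H (x : ℂ)) (𝓝[<] 1) (𝓝 ℓ) := by
  have h1 : ∀ j, Tendsto (fun x : ℝ => (ξ ᵥ* Hf H (x : ℂ)) j) (𝓝[<] 1) (𝓝 (ℓ j)) := by
    intro j
    have h2 := (Complex.tendsto_tsum_powerSeries_nhdsWithin_lt (hl j))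
    rw [tendsto_map'_iff] at h2
    refine h2.congr' ?_
    have h3 : ∀ᶠ x : ℝ in 𝓝[<] 1, 0 < x := (lt_mem_nhds one_pos).filter_mono nhdsWithin_le_nhds
    filter_upwards [h3, self_mem_nhdsWithin] with x hx hx1
    have hx1' : x < 1 := hx1
    have hz : ‖(x : ℂ)‖ < 1 := by rwa [Complex.norm_real, Real.norm_of_nonneg hx.le]
    have hg := hH.growth h
    show ps (fun k => (ξ ᵥ* H k) j) (x : ℂ) = _
    simp only [Matrix.vecMul, dotProduct]
    rw [ps_sum _ (fun i _ => (hg i j).smul _) hz]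
    exact Finset.sum_congr rfl fun i _ => ps_smul _ _
  have hE : ∀ i j, Tendsto (fun x : ℝ => E N0 (Complex.log (x : ℂ)) i j) (𝓝[<] 1) (𝓝 ((1 : Matrix (Fin n) (Fin n) ℂ) i j)) := by
    intro i j
    have h2 : ContinuousAt (fun s => E N0 s i j) 0 := (E_HD h 0 i j).continuousAt
    have h3 : Tendsto (fun x : ℝ => Complex.log (x : ℂ)) (𝓝[<] 1) (𝓝 0) := by
      have e1 : Tendsto (fun x : ℝ => ((Real.log x : ℝ) : ℂ)) (𝓝[<] 1) (𝓝 ((Real.log 1 : ℝ) : ℂ)) :=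
        (Complex.continuous_ofReal.tendsto _).comp
          ((Real.continuousAt_log one_ne_zero).tendsto.mono_left nhdsWithin_le_nhds)
      rw [Real.log_one, Complex.ofReal_zero] at e1
      refine e1.congr' ?_
      have h3 : ∀ᶠ x : ℝ in 𝓝[<] 1, 0 < x := (lt_mem_nhds one_pos).filter_mono nhdsWithin_le_nhds
      filter_upwards [h3] with x hx
      rw [Complex.ofReal_log hx.le]
    have h4 := h2.tendsto.comp h3
    rw [E_zero h] at h4
    exact h4
  rw [tendsto_pi_nhds]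
  intro j
  have h5 : Tendsto (fun x : ℝ => ∑ i, (ξ ᵥ* Hf H (x : ℂ)) i * E N0 (Complex.log (x : ℂ)) i j) (𝓝[<] 1)
      (𝓝 (∑ i, ℓ i * (1 : Matrix (Fin n) (Fin n) ℂ) i j)) := tendsto_finsetSum _ fun i _ => (h1 i).mul (hE i j)
  have e2 : ∑ i, ℓ i * (1 : Matrix (Fin n) (Fin n) ℂ) i j = ℓ j := by
    have : (ℓ ᵥ* (1 : Matrix (Fin n) (Fin n) ℂ)) j = ℓ j := by rw [vecMul_one]
    exact this
  rw [e2] at h5
  refine h5.congr fun x => ?_
  unfold Yf
  rw [← vecMul_vecMul]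
  rfl

lemma tendsto_one_sub : Tendsto (fun x : ℝ => 1 - x) (𝓝[<] 1) (𝓝[>] 0) := by
  refine tendsto_nhdsWithin_of_tendsto_nhds_of_eventually_within _ ?_ ?_
  · have : Tendsto (fun x : ℝ => 1 - x) (𝓝 1) (𝓝 (1 - 1)) := (continuous_const.sub continuous_id).tendsto 1
    rw [sub_self] at this
    exact this.mono_left nhdsWithin_le_nhds
  · filter_upwards [self_mem_nhdsWithin] with x hx
    have : x < 1 := hx
    exact sub_pos.2 this

/-- **the functional of the transvection** -/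
theorem phi_lim {A : Matrix (Fin n) (Fin n) ℂ} {u q : Fin n → ℂ} {K : ℕ → Matrix (Fin n) (Fin n) ℂ} (hn : 2 ≤ n)
    (hqu : q ⬝ᵥ u = 0) (hA : A ^ n = 0) (hH : Sol A (vecMulVec u q) H) (hK : Sol (-vecMulVec u q) (-A) K)
    {M : Matrix (Fin n) (Fin n) ℂ} (hY : ∀ z ∈ Lens, Yf A H z = Yf (-vecMulVec u q) K (1 - z) * M) (ℓ : Fin n → ℂ)
    (hl : ∀ j, Tendsto (fun m => ∑ k ∈ Finset.range m, (q ᵥ* H k) j) atTop (𝓝 (ℓ j))) : q ᵥ* M = ℓ := by
  have h1 := abel_row hH hA q ℓ hl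
  have e1 : -vecMulVec u q = vecMulVec (-u) q := by rw [neg_vecMulVec]
  have h2 : Tendsto (fun w : ℝ => q ᵥ* Yf (-vecMulVec u q) K (w : ℂ)) (𝓝[>] 0) (𝓝 q) := by
    rw [e1] at hK ⊢
    exact lim_row hn (by rw [dotProduct_neg, hqu, neg_zero]) hK
  have h3 := h2.comp tendsto_one_sub
  have h4 : Tendsto (fun x : ℝ => (q ᵥ* Yf (-vecMulVec u q) K ((1 - x : ℝ) : ℂ)) ᵥ* M) (𝓝[<] 1) (𝓝 (q ᵥ* M)) := by
    have hc : Continuous fun y : Fin n → ℂ => y ᵥ* M := by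
      refine continuous_pi fun j => ?_
      simp only [Matrix.vecMul, dotProduct]
      exact continuous_finsetSum _ fun i _ => (continuous_apply i).mul continuous_const
    exact (hc.tendsto q).comp h3
  refine tendsto_nhds_unique (h4.congr' ?_) h1
  have h5 : ∀ᶠ x : ℝ in 𝓝[<] 1, 0 < x := (lt_mem_nhds one_pos).filter_mono nhdsWithin_le_nhds
  filter_upwards [h5, self_mem_nhdsWithin] with x hx hx1
  rw [hY x (real_mem_Lens hx hx1), vecMul_vecMul]
  push_cast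
  rfl

/-- **the vector of the transvection** -/
theorem v_lim {A : Matrix (Fin n) (Fin n) ℂ} {u q : Fin n → ℂ} {L K' : ℕ → Matrix (Fin n) (Fin n) ℂ} (hn : 2 ≤ n)
    (hqu : q ⬝ᵥ u = 0) (hA : A ^ n = 0) (hL : Sol (-A.transpose) (-(vecMulVec u q).transpose) L)
    (hK' : Sol (vecMulVec u q).transpose A.transpose K')
    {Mi : Matrix (Fin n) (Fin n) ℂ} (hY : ∀ z ∈ Lens, (Yf (-A.transpose) L z).transpose =
      Mi * (Yf (vecMulVec u q).transpose K' (1 - z)).transpose) (ℓ : Fin n → ℂ)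
    (hl : ∀ j, Tendsto (fun m => ∑ k ∈ Finset.range m, (u ᵥ* L k) j) atTop (𝓝 (ℓ j))) : Mi *ᵥ u = ℓ := by
  have h1 := abel_row hL (neg_nil (tr_nil hA)) u ℓ hl
  have e1 : (vecMulVec u q).transpose = vecMulVec q u := transpose_vecMulVec _ _
  have h2 : Tendsto (fun w : ℝ => u ᵥ* Yf (vecMulVec u q).transpose K' (w : ℂ)) (𝓝[>] 0) (𝓝 u) := by
    rw [e1] at hK' ⊢
    exact lim_row hn (by rw [dotProduct_comm, hqu]) hK'
  have h3 := h2.comp tendsto_one_sub
  have h4 : Tendsto (fun x : ℝ => Mi *ᵥ (u ᵥ* Yf (vecMulVec u q).transpose K' ((1 - x : ℝ) : ℂ))) (𝓝[<] 1) (𝓝 (Mi *ᵥ u)) := by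
    have hc : Continuous fun y : Fin n → ℂ => Mi *ᵥ y := by
      refine continuous_pi fun j => ?_
      simp only [Matrix.mulVec, dotProduct]
      exact continuous_finsetSum _ fun i _ => continuous_const.mul (continuous_apply i)
    exact (hc.tendsto u).comp h3
  refine tendsto_nhds_unique (h4.congr' ?_) h1
  have h5 : ∀ᶠ x : ℝ in 𝓝[<] 1, 0 < x := (lt_mem_nhds one_pos).filter_mono nhdsWithin_le_nhds
  filter_upwards [h5, self_mem_nhdsWithin] with x hx hx1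
  have h6 := hY x (real_mem_Lens hx hx1)
  have h7 : u ᵥ* Yf (-A.transpose) L (x : ℂ) = (Yf (-A.transpose) L (x : ℂ)).transpose *ᵥ u := by
    rw [mulVec_transpose]
  rw [h7, h6, ← mulVec_mulVec, mulVec_transpose]
  push_cast
  rfl

/-! ### the hypergeometric system -/

variable {Q : Polynomial ℚ}

/-- the last row of the system -/
noncomputable def qc (n : ℕ) (Q : Polynomial ℚ) : Fin n → ℂ := fun j => ((Q.coeff j : ℚ) : ℂ)

lemma cm_Bm' : cm (Bm n Q) = vecMulVec (uc n) (qc n Q) := by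
  ext i j
  rw [Pool.Agent.Y119.HY.cm_apply, vecMulVec_apply]
  unfold Bm uc qc
  rw [Matrix.of_apply]
  split_ifs <;> simp

lemma qc_uc (hQ : QG n Q) : qc n Q ⬝ᵥ uc n = 0 := by
  have hn := hQ.two
  rw [dotProduct, Finset.sum_eq_single ⟨n - 1, by omega⟩]
  · unfold qc uc
    have := hQ.tr
    simp [this]
  · intro b _ hb
    unfold uc
    rw [if_neg, mul_zero]
    intro h'
    exact hb (Fin.ext (by simp only; omega))
  · intro h'
    exact absurd (Finset.mem_univ _) h'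

/-- the coefficients of the functional -/
noncomputable def cc (n : ℕ) (Q : Polynomial ℚ) (k j : ℕ) : ℂ := ((PowerSeries.coeff j (kx k ^ n * aq n Q k) : ℚ) : ℂ)

/-- the coefficients of the vector -/
noncomputable def dd (n : ℕ) (Q : Polynomial ℚ) (k j : ℕ) : ℂ := ((PowerSeries.coeff j (dq n Q k) : ℚ) : ℂ)

lemma qH (hQ : QG n Q) (k : ℕ) (j : Fin n) : (qc n Q ᵥ* Hk (Hq n Q) k) j = cc n Q (k + 1) j - cc n Q k j := by
  have hn := hQ.two
  have h1 := Bm_mul' k hQ ⟨n - 1, by omega⟩ j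
  rw [if_pos (by simp only; omega), ← Pool.Agent.Y119.HY.aq_succ] at h1
  have h2 : (Bm n Q * Hq n Q k) ⟨n - 1, by omega⟩ j = ∑ i : Fin n, Q.coeff i * Hq n Q k i j := by
    rw [Matrix.mul_apply]
    refine Finset.sum_congr rfl fun i _ => ?_
    unfold Bm
    rw [Matrix.of_apply, if_pos (by simp only; omega)]
  rw [h2] at h1
  have h3 : (qc n Q ᵥ* Hk (Hq n Q) k) j = ((∑ i : Fin n, Q.coeff i * Hq n Q k i j : ℚ) : ℂ) := by
    unfold Hk qc
    simp only [Matrix.vecMul, dotProduct, Pool.Agent.Y119.HY.cm_apply]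
    push_cast
    rfl
  rw [h3, h1]
  unfold cc
  push_cast
  rfl

lemma uL (hQ : QG n Q) (k : ℕ) (j : Fin n) : (uc n ᵥ* Hk (Lq n Q) k) j =
    if k = 0 then dd n Q 0 (n - 1 - j) else dd n Q k (n - 1 - j) - dd n Q (k - 1) (n - 1 - j) := by
  have hn := hQ.two
  have h1 : (uc n ᵥ* Hk (Lq n Q) k) j = ((Lq n Q k ⟨n - 1, by omega⟩ j : ℚ) : ℂ) := by
    simp only [Matrix.vecMul, dotProduct]
    rw [Finset.sum_eq_single ⟨n - 1, by omega⟩]
    · unfold uc
      rw [if_pos (by simp only; omega), one_mul]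
      rfl
    · intro b _ hb
      unfold uc
      rw [if_neg, zero_mul]
      intro h'
      exact hb (Fin.ext (by simp only; omega))
    · intro h'
      exact absurd (Finset.mem_univ _) h'
  rw [h1]
  unfold Lq dd
  rw [Matrix.of_apply]
  rcases k with _ | k
  · rw [if_pos rfl]
    show ((PowerSeries.coeff (n - 1 - (j : ℕ)) (PowerSeries.X ^ (n - 1 - (n - 1)) : PowerSeries ℚ) : ℚ) : ℂ) = _
    rw [Nat.sub_self, pow_zero]
    unfold dq
    rw [Finset.range_zero, Finset.prod_empty]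
  · rw [if_neg (Nat.succ_ne_zero k), yh_last hQ, map_sub, Nat.add_sub_cancel]
    push_cast
    rfl

lemma sum_qH (hQ : QG n Q) (m : ℕ) (j : Fin n) : ∑ k ∈ Finset.range m, (qc n Q ᵥ* Hk (Hq n Q) k) j = cc n Q m j := by
  simp only [qH hQ]
  rw [Finset.sum_range_sub (fun k => cc n Q k j)]
  have h1 : cc n Q 0 j = 0 := by
    unfold cc kx aq
    rw [Finset.range_zero, Finset.prod_empty, mul_one, Nat.cast_zero, map_zero, zero_add, PowerSeries.coeff_X_pow,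
      if_neg (by have := j.2; omega)]
    simp
  rw [h1, sub_zero]

lemma sum_uL (hQ : QG n Q) (m : ℕ) (j : Fin n) :
    ∑ k ∈ Finset.range (m + 1), (uc n ᵥ* Hk (Lq n Q) k) j = dd n Q m (n - 1 - j) := by
  induction m with
  | zero =>
    rw [Finset.sum_range_one, uL hQ, if_pos rfl]
  | succ m ih =>
    rw [Finset.sum_range_succ, ih, uL hQ, if_neg (Nat.succ_ne_zero m), Nat.add_sub_cancel]
    ring

end Pool.Agent.E8helper43.HS
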