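import Pool.Agent.E8helper43.HS.Sine

/-!
# Comparison of products of sines
-/

set_option autoImplicit false
set_option maxHeartbeats 4000000

open Filter Topology PowerSeries

namespace Pool.Agent.E8helper43.HS

variable {n : ℕ}

/-- the parameters agree modulo the integers, up to the order -/
def Eqv (β γ : Fin n → ℚ) : Prop := ∃ σ : Equiv.Perm (Fin n), ∀ j, ∃ m : ℤ, β (σ j) - γ j = m

/-- the product of sines -/
noncomputable def Sf (β : Fin n → ℚ) (z : ℂ) : ℂ := ∏ j, Complex.sin (Real.pi * (z - ((β j : ℚ) : ℂ)))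

lemma an_sin (c : ℂ) : AnalyticAt ℂ (fun z : ℂ => Complex.sin (Real.pi * (z - c))) 0 :=
  (Complex.differentiable_sin.comp ((differentiable_const _).mul (differentiable_id.sub_const c))).analyticAt 0

lemma an_Sf (β : Fin n → ℚ) : AnalyticAt ℂ (Sf β) 0 := Finset.analyticAt_fun_prod _ fun _ _ => an_sin _

lemma rescale_tay (f : ℂ → ℂ) : rescale (-1 : ℂ) (tay f) = tay fun z => f (-z) := by
  ext m
  rw [coeff_rescale, coeff_tay_neg]

lemma rescale_Sf (β : Fin n → ℚ) : rescale (-1 : ℂ) (tay (Sf β)) = (-1) ^ n * tay (Sf fun j => -β j) := by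
  rw [rescale_tay]
  have h1 : (fun z => Sf β (-z)) = fun z => (-1) ^ n * Sf (fun j => -β j) z := by
    funext z
    unfold Sf
    have e1 : ((-1 : ℂ)) ^ n = ∏ _j : Fin n, (-1 : ℂ) := by
      rw [Finset.prod_const, Finset.card_univ, Fintype.card_fin]
    rw [e1, ← Finset.prod_mul_distrib]
    refine Finset.prod_congr rfl fun j _ => ?_
    rw [neg_one_mul, ← Complex.sin_neg]
    congr 1
    push_cast
    ring
  rw [h1, tay_const_mul _ (an_Sf _)]
  congr 1
  rw [map_pow, map_neg, map_one]

/-- the sine -/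
noncomputable def hs : ℂ⟦X⟧ := PowerSeries.mk fun m => coeff (m + 1) (tay fun z => Complex.sin (Real.pi * z))

lemma an_s : AnalyticAt ℂ (fun z : ℂ => Complex.sin (Real.pi * z)) 0 :=
  (Complex.differentiable_sin.comp ((differentiable_const _).mul differentiable_id)).analyticAt 0

lemma hs_eq : tay (fun z => Complex.sin (Real.pi * z)) = X * hs := by
  ext m
  rcases m with _ | m
  · rw [coeff_zero_X_mul, coeff_zero_eq_constantCoeff_apply, tay_zero]
    simp
  · rw [coeff_succ_X_mul]
    unfold hs
    rw [coeff_mk]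

lemma hs_zero : constantCoeff hs = (Real.pi : ℂ) := by
  rw [← coeff_zero_eq_constantCoeff_apply]
  unfold hs
  rw [coeff_mk, coeff_tay]
  have h1 : HasDerivAt (fun z : ℂ => Complex.sin (Real.pi * z)) (Complex.cos (Real.pi * 0) * (Real.pi * 1)) 0 :=
    HasDerivAt.csin ((hasDerivAt_id (0 : ℂ)).const_mul (Real.pi : ℂ))
  simp only [zero_add, iteratedDeriv_one, Nat.factorial_one, Nat.cast_one, div_one]
  rw [h1.deriv]
  simp

lemma hs_even : rescale (-1 : ℂ) hs = hs := by
  have h1 : rescale (-1 : ℂ) (tay fun z => Complex.sin (Real.pi * z)) = -(tay fun z => Complex.sin (Real.pi * z)) := by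
    rw [rescale_tay]
    have e1 : (fun z : ℂ => Complex.sin (Real.pi * -z)) = fun z => (-1) * Complex.sin (Real.pi * z) := by
      funext z
      rw [mul_neg, Complex.sin_neg, neg_one_mul]
    rw [e1, tay_const_mul _ an_s, map_neg, map_one, neg_one_mul]
  rw [hs_eq, map_mul, rescale_X] at h1
  have h2 : (X : ℂ⟦X⟧) * rescale (-1 : ℂ) hs = X * hs := by
    rw [map_neg, map_one] at h1
    linear_combination -h1
  exact mul_left_cancel₀ X_ne_zero h2

/-- the identity of the limits -/
lemma lim_id {β : Fin n → ℚ} {Cf Df : ℂ → ℂ} (hC : AnalyticAt ℂ Cf 0) (hD : AnalyticAt ℂ Df 0)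
    (hid : ∀ z ∈ Ub, Complex.sin (Real.pi * z) ^ n * (Cf z * Df z) = z ^ n * Sf β z) :
    hs ^ n * (tay Cf * tay Df) = tay (Sf β) := by
  have h1 : tay (fun z => Complex.sin (Real.pi * z) ^ n * (Cf z * Df z)) = tay fun z => z ^ n * Sf β z :=
    tay_congr (Filter.eventuallyEq_of_mem (isOpen_Ub.mem_nhds zero_Ub) hid)
  have h2 : tay (fun z => Complex.sin (Real.pi * z) ^ n * (Cf z * Df z)) = (X * hs) ^ n * (tay Cf * tay Df) := by
    rw [tay_mul (f := fun z => Complex.sin (Real.pi * z) ^ n) (g := fun z => Cf z * Df z) (an_s.pow n) (hC.mul hD),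
      tay_pow an_s, tay_mul hC hD, hs_eq]
  have h3 : tay (fun z => z ^ n * Sf β z) = X ^ n * tay (Sf β) := by
    rw [tay_mul (f := fun z => z ^ n) (analyticAt_id.pow n) (an_Sf β), tay_pow (f := fun z => z) analyticAt_id, tay_id]
  rw [h2, h3, mul_pow, mul_assoc] at h1
  exact mul_left_cancel₀ (pow_ne_zero n X_ne_zero) h1

/-- a polynomial in the exponential of high order vanishes -/
lemma ord_lem {R : Polynomial ℂ} (hdeg : R.natDegree < n)
    (h : (X : ℂ⟦X⟧) ^ n ∣ tay fun z => R.eval (Complex.exp (2 * Real.pi * Complex.I * z))) : R = 0 := by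
  by_contra hR
  obtain ⟨R1, hR1, hR2⟩ := Polynomial.exists_eq_pow_rootMultiplicity_mul_and_not_dvd R hR 1
  set m := R.rootMultiplicity 1 with hm
  have hmn : m < n := by
    refine lt_of_le_of_lt ?_ hdeg
    have h1 : ((Polynomial.X - Polynomial.C (1 : ℂ)) ^ m).natDegree ≤ R.natDegree := by
      refine Polynomial.natDegree_le_of_dvd ⟨R1, hR1⟩ hR
    rwa [Polynomial.natDegree_pow, Polynomial.natDegree_X_sub_C, mul_one] at h1
  have hR10 : R1.eval 1 ≠ 0 := fun h0 => hR2 (Polynomial.dvd_iff_isRoot.2 h0)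
  have hde : Differentiable ℂ fun z : ℂ => Complex.exp (2 * Real.pi * Complex.I * z) :=
    Complex.differentiable_exp.comp ((differentiable_const _).mul differentiable_id)
  have ha1 : AnalyticAt ℂ (fun z : ℂ => Complex.exp (2 * Real.pi * Complex.I * z) - 1) 0 := (hde.sub_const 1).analyticAt 0
  have ha2 : AnalyticAt ℂ (fun z : ℂ => R1.eval (Complex.exp (2 * Real.pi * Complex.I * z))) 0 :=
    ((Polynomial.differentiable R1).comp hde).analyticAt 0
  set U : ℂ⟦X⟧ := PowerSeries.mk fun m => coeff (m + 1) (tay fun z => Complex.exp (2 * Real.pi * Complex.I * z) - 1) with hU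
  have hU1 : (tay fun z => Complex.exp (2 * Real.pi * Complex.I * z) - 1) = X * U := by
    ext m
    rcases m with _ | m
    · rw [coeff_zero_X_mul, coeff_zero_eq_constantCoeff_apply, tay_zero]
      simp
    · rw [coeff_succ_X_mul, hU, coeff_mk]
  have hU0 : constantCoeff U ≠ 0 := by
    rw [← coeff_zero_eq_constantCoeff_apply, hU, coeff_mk, coeff_tay]
    have h1 : HasDerivAt (fun z : ℂ => Complex.exp (2 * Real.pi * Complex.I * z) - 1)
        (Complex.exp (2 * Real.pi * Complex.I * 0) * (2 * Real.pi * Complex.I * 1)) 0 :=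
      (HasDerivAt.cexp ((hasDerivAt_id (0 : ℂ)).const_mul (2 * Real.pi * Complex.I))).sub_const 1
    simp only [zero_add, iteratedDeriv_one, Nat.factorial_one, Nat.cast_one, div_one]
    rw [h1.deriv]
    simp [Real.pi_ne_zero]
  have hfun : (fun z => R.eval (Complex.exp (2 * Real.pi * Complex.I * z))) = fun z =>
      (Complex.exp (2 * Real.pi * Complex.I * z) - 1) ^ m * R1.eval (Complex.exp (2 * Real.pi * Complex.I * z)) := by
    funext z
    conv_lhs => rw [hR1]
    rw [Polynomial.eval_mul, Polynomial.eval_pow, Polynomial.eval_sub, Polynomial.eval_X, Polynomial.eval_C]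
  rw [hfun, tay_mul (f := fun z => (Complex.exp (2 * Real.pi * Complex.I * z) - 1) ^ m) (ha1.pow m) ha2,
    tay_pow ha1, hU1, mul_pow] at h
  obtain ⟨W, hW⟩ := h
  have h1 : (X : ℂ⟦X⟧) ^ m * (U ^ m * tay fun z => R1.eval (Complex.exp (2 * Real.pi * Complex.I * z))) =
      X ^ m * (X ^ (n - m) * W) := by
    rw [← mul_assoc, hW, ← mul_assoc, ← pow_add]
    congr 2
    omega
  have h2 := mul_left_cancel₀ (pow_ne_zero m X_ne_zero) h1
  have h3 := congrArg constantCoeff h2
  rw [map_mul, map_pow, tay_zero, map_mul, map_pow, constantCoeff_X, zero_pow (by omega), zero_mul, mul_zero,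
    Complex.exp_zero] at h3
  exact mul_ne_zero (pow_ne_zero _ hU0) hR10 h3

/-- the polynomial of the local monodromy at infinity -/
noncomputable def pm (β : Fin n → ℚ) : Polynomial ℂ :=
  ∏ j, (Polynomial.X - Polynomial.C (Complex.exp (2 * Real.pi * Complex.I * ((β j : ℚ) : ℂ))))

lemma pm_eval (β : Fin n → ℚ) (hβ : ∑ j, β j = 0) (z : ℂ) :
    (pm β).eval (Complex.exp (2 * Real.pi * Complex.I * z)) =
      (Complex.exp (Real.pi * Complex.I * z) * (2 * Complex.I)) ^ n * Sf β z := by
  unfold pm Sf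
  have e0 : (Complex.exp (Real.pi * Complex.I * z) * (2 * Complex.I)) ^ n =
      ∏ _j : Fin n, (Complex.exp (Real.pi * Complex.I * z) * (2 * Complex.I)) := by
    rw [Finset.prod_const, Finset.card_univ, Fintype.card_fin]
  have e1 : ∏ j, Complex.exp (Real.pi * Complex.I * ((β j : ℚ) : ℂ)) = 1 := by
    rw [← Complex.exp_sum, ← Finset.mul_sum]
    have : ∑ j, ((β j : ℚ) : ℂ) = 0 := by exact_mod_cast congrArg (fun q : ℚ => (q : ℂ)) hβ
    rw [this, mul_zero, Complex.exp_zero]
  rw [e0, ← Finset.prod_mul_distrib, Polynomial.eval_prod]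
  calc ∏ j, (Polynomial.X - Polynomial.C (Complex.exp (2 * Real.pi * Complex.I * ((β j : ℚ) : ℂ)))).eval
        (Complex.exp (2 * Real.pi * Complex.I * z)) =
      ∏ j, (Complex.exp (Real.pi * Complex.I * ((β j : ℚ) : ℂ)) * (Complex.exp (Real.pi * Complex.I * z) * (2 * Complex.I) *
        Complex.sin (Real.pi * (z - ((β j : ℚ) : ℂ))))) := by
        refine Finset.prod_congr rfl fun j _ => ?_
        rw [Polynomial.eval_sub, Polynomial.eval_X, Polynomial.eval_C, Complex.sin]
        set b : ℂ := ((β j : ℚ) : ℂ)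
        have h1 : Complex.exp (Real.pi * Complex.I * b) * (Complex.exp (Real.pi * Complex.I * z) * (2 * Complex.I) *
            ((Complex.exp (-(Real.pi * (z - b)) * Complex.I) - Complex.exp (Real.pi * (z - b) * Complex.I)) * Complex.I / 2)) =
            (Complex.exp (Real.pi * Complex.I * b) * Complex.exp (Real.pi * Complex.I * z) *
              Complex.exp (Real.pi * (z - b) * Complex.I)) -
            (Complex.exp (Real.pi * Complex.I * b) * Complex.exp (Real.pi * Complex.I * z) *
              Complex.exp (-(Real.pi * (z - b)) * Complex.I)) := by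
          linear_combination (Complex.exp (Real.pi * Complex.I * b) * Complex.exp (Real.pi * Complex.I * z) *
            (Complex.exp (-(Real.pi * (z - b)) * Complex.I) - Complex.exp (Real.pi * (z - b) * Complex.I))) * Complex.I_sq
        rw [h1, ← Complex.exp_add, ← Complex.exp_add, ← Complex.exp_add]
        congr 2 <;> ring
    _ = _ := by rw [Finset.prod_mul_distrib, e1, one_mul]

lemma pm_monic (β : Fin n → ℚ) : (pm β).Monic := Polynomial.monic_prod_of_monic _ _ fun i _ => Polynomial.monic_X_sub_C _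

lemma pm_deg (β : Fin n → ℚ) : (pm β).natDegree = n := by
  unfold pm
  rw [Polynomial.natDegree_prod_of_monic _ _ fun i _ => Polynomial.monic_X_sub_C _]
  simp

/-- equality of the polynomials -/
lemma eqv_of_pm {β γ : Fin n → ℚ} (h : pm β = pm γ) : Eqv β γ := by
  classical
  have h1 : (Finset.univ.val.map fun j => Complex.exp (2 * Real.pi * Complex.I * ((β j : ℚ) : ℂ))) =
      Finset.univ.val.map fun j => Complex.exp (2 * Real.pi * Complex.I * ((γ j : ℚ) : ℂ)) := by
    have h2 : ∀ β : Fin n → ℚ, (pm β).roots =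
        Finset.univ.val.map fun j => Complex.exp (2 * Real.pi * Complex.I * ((β j : ℚ) : ℂ)) := by
      intro β
      have e1 : pm β = ((Finset.univ.val.map fun j : Fin n =>
          Complex.exp (2 * Real.pi * Complex.I * ((β j : ℚ) : ℂ))).map fun a => Polynomial.X - Polynomial.C a).prod := by
        rw [Multiset.map_map]
        rfl
      rw [e1, Polynomial.roots_multiset_prod_X_sub_C]
    rw [← h2, ← h2, h]
  have h2 : ∀ c : ℂ, Nonempty ({j // Complex.exp (2 * Real.pi * Complex.I * ((γ j : ℚ) : ℂ)) = c} ≃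
      {j // Complex.exp (2 * Real.pi * Complex.I * ((β j : ℚ) : ℂ)) = c}) := by
    intro c
    refine ⟨Fintype.equivOfCardEq ?_⟩
    have h3 := congrArg (Multiset.count c) h1
    rw [Multiset.count_map, Multiset.count_map] at h3
    rw [Fintype.card_subtype, Fintype.card_subtype]
    have h4 : ∀ f : Fin n → ℂ, (Multiset.filter (fun j => c = f j) Finset.univ.val).card =
        (Finset.univ.filter fun j => f j = c).card := by
      intro f
      rw [Finset.card_def, Finset.filter_val]
      congr 1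
      exact Multiset.filter_congr fun j _ => eq_comm
    rw [h4, h4] at h3
    exact h3.symm
  refine ⟨Equiv.ofFiberEquiv fun c => (h2 c).some, fun j => ?_⟩
  have h5 := Equiv.ofFiberEquiv_map (fun c => (h2 c).some) j
  rw [Complex.exp_eq_exp_iff_exists_int] at h5
  obtain ⟨m, hm⟩ := h5
  refine ⟨m, ?_⟩
  have hpi : (2 * Real.pi * Complex.I : ℂ) ≠ 0 := Complex.two_pi_I_ne_zero
  have h6 : (((β (Equiv.ofFiberEquiv (fun c => (h2 c).some) j) : ℚ)) : ℂ) - ((γ j : ℚ) : ℂ) = (m : ℂ) := by
    refine mul_left_cancel₀ hpi ?_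
    linear_combination hm
  exact_mod_cast h6

/-- **products of sines which agree to high order have equivalent parameters** -/
theorem sin_inj {β γ : Fin n → ℚ} (hβ : ∑ j, β j = 0) (hγ : ∑ j, γ j = 0)
    (h : (X : ℂ⟦X⟧) ^ n ∣ tay (Sf β) - tay (Sf γ)) : Eqv β γ := by
  refine eqv_of_pm (sub_eq_zero.1 ?_)
  rcases Nat.eq_zero_or_pos n with h0 | hpos
  · subst h0
    unfold pm
    simp
  have hde : Differentiable ℂ fun z : ℂ => (Complex.exp (Real.pi * Complex.I * z) * (2 * Complex.I)) ^ n :=
    ((Complex.differentiable_exp.comp ((differentiable_const _).mul differentiable_id)).mul_const _).pow n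
  have hva : AnalyticAt ℂ (fun z : ℂ => (Complex.exp (Real.pi * Complex.I * z) * (2 * Complex.I)) ^ n) 0 := hde.analyticAt 0
  refine ord_lem (n := n) ?_ ?_
  · have h1 : (pm β - pm γ).degree < (pm β).degree := by
      refine Polynomial.degree_sub_lt ?_ (pm_monic β).ne_zero ?_
      · rw [Polynomial.degree_eq_natDegree (pm_monic β).ne_zero, Polynomial.degree_eq_natDegree (pm_monic γ).ne_zero,
          pm_deg, pm_deg]
      · rw [(pm_monic β).leadingCoeff, (pm_monic γ).leadingCoeff]
    rw [Polynomial.degree_eq_natDegree (pm_monic β).ne_zero, pm_deg] at h1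
    rcases eq_or_ne (pm β - pm γ) 0 with h2 | h2
    · rw [h2, Polynomial.natDegree_zero]
      exact hpos
    · exact (Polynomial.natDegree_lt_iff_degree_lt h2).2 h1
  · have h1 : (fun z => (pm β - pm γ).eval (Complex.exp (2 * Real.pi * Complex.I * z))) = fun z =>
        (Complex.exp (Real.pi * Complex.I * z) * (2 * Complex.I)) ^ n * (Sf β z + (-1) * Sf γ z) := by
      funext z
      rw [Polynomial.eval_sub, pm_eval β hβ, pm_eval γ hγ]
      ring
    rw [h1, tay_mul (g := fun z => Sf β z + (-1) * Sf γ z) hva ((an_Sf β).add (analyticAt_const.mul (an_Sf γ))),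
      tay_add (g := fun z => (-1) * Sf γ z) (an_Sf β) (analyticAt_const.mul (an_Sf γ)), tay_const_mul _ (an_Sf γ),
      map_neg, map_one, neg_one_mul, ← sub_eq_add_neg]
    exact h.mul_left _

end Pool.Agent.E8helper43.HS
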