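import Pool.Agent.E8helper43.HS.Tay
import Pool.Agent.E8helper43.HS.Lim

/-!
# The limits of the coefficients and the product of sines
-/

set_option autoImplicit false
set_option maxHeartbeats 4000000

open Filter Topology PowerSeries

namespace Pool.Agent.E8helper43.HS

open Pool.Agent.Y119.HY (cm Sol kx aq hq Hq aq_succ)

variable {n : ℕ} {Q : Polynomial ℚ}

/-- the factors -/
noncomputable def gf (n : ℕ) (Q : Polynomial ℚ) (a : ℚ) (z : ℂ) : ℂ :=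
  (Q.map (algebraMap ℚ ℂ)).eval ((a : ℂ) + z) * (((a : ℂ) + z)⁻¹) ^ n

lemma TA_gf {a : ℚ} (ha : a ≠ 0) : TA (Polynomial.aeval (ka a) Q * ((ka a)⁻¹) ^ n) (gf n Q a) := by
  refine (TA_aeval a Q).mul (((TA_ka a).inv ?_).pow n)
  unfold ka
  simpa using ha

lemma gf_bound (hQ : QG n Q) : ∃ C : ℝ, 0 ≤ C ∧ ∀ (l : ℕ) (a : ℚ) (z : ℂ), |(a : ℝ)| = (l : ℝ) + 1 → ‖z‖ < 1 / 2 →
    ‖gf n Q a z - 1‖ ≤ C / ((l : ℝ) + 1) ^ 2 := by
  have hn := hQ.two
  obtain ⟨N, rfl⟩ := Nat.exists_eq_add_of_le' hn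
  refine ⟨4 * (2 ^ N * ∑ m ∈ Finset.range (N + 1), ‖((Q.coeff m : ℚ) : ℂ)‖), by positivity, fun l a z ha hz => ?_⟩
  set x : ℂ := (a : ℂ) + z with hx
  have hl : (0 : ℝ) < (l : ℝ) + 1 := by positivity
  have hl1 : (1 : ℝ) ≤ (l : ℝ) + 1 := by linarith [Nat.cast_nonneg (α := ℝ) l]
  have hxn : ((l : ℝ) + 1) / 2 ≤ ‖x‖ := by
    have h1 : ‖((a : ℚ) : ℂ)‖ = (l : ℝ) + 1 := by
      have : ((a : ℚ) : ℂ) = (((a : ℚ) : ℝ) : ℂ) := by push_cast; rfl
      rw [this, Complex.norm_real, Real.norm_eq_abs, ha]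
    have h2 : ‖((a : ℚ) : ℂ)‖ ≤ ‖x‖ + ‖z‖ := by
      have : ((a : ℚ) : ℂ) = x - z := by rw [hx]; ring
      rw [this]
      exact norm_sub_le _ _
    linarith
  have hx0 : x ≠ 0 := by
    intro h0
    rw [h0, norm_zero] at hxn
    linarith
  have hinv : ‖x⁻¹‖ ≤ 2 / ((l : ℝ) + 1) := by
    rw [norm_inv, inv_le_comm₀ (norm_pos_iff.2 hx0) (by positivity)]
    rw [inv_div]
    exact hxn
  have hinv2 : ‖x⁻¹‖ ≤ 2 := hinv.trans (by rw [div_le_iff₀ hl]; linarith)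
  -- the expansion
  have hexp : (Q.map (algebraMap ℚ ℂ)).eval x = ∑ m ∈ Finset.range (N + 1), ((Q.coeff m : ℚ) : ℂ) * x ^ m + x ^ (N + 2) := by
    rw [Polynomial.eval_map, Polynomial.eval₂_eq_sum_range, hQ.deg, Finset.sum_range_succ, Finset.sum_range_succ]
    have h1 : Q.coeff (N + 2) = 1 := by
      have := hQ.monic.coeff_natDegree
      rwa [hQ.deg] at this
    have h2 : Q.coeff (N + 1) = 0 := hQ.tr
    rw [h1, h2]
    simp
  have h3 : gf (N + 2) Q a z - 1 = ∑ m ∈ Finset.range (N + 1), ((Q.coeff m : ℚ) : ℂ) * ((x⁻¹) ^ (N - m) * (x⁻¹) ^ 2) := by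
    unfold gf
    rw [← hx, hexp, add_mul, ← mul_pow, mul_inv_cancel₀ hx0, one_pow, add_sub_cancel_right, Finset.sum_mul]
    refine Finset.sum_congr rfl fun m hm => ?_
    rw [Finset.mem_range] at hm
    rw [← pow_add, mul_assoc]
    congr 1
    have e1 : N + 2 = m + (N - m + 2) := by omega
    conv_lhs => rw [e1, pow_add]
    rw [← mul_assoc, ← mul_pow, mul_inv_cancel₀ hx0, one_pow, one_mul]
  rw [h3]
  refine (norm_sum_le _ _).trans ?_
  have h4 : ∀ m ∈ Finset.range (N + 1), ‖((Q.coeff m : ℚ) : ℂ) * ((x⁻¹) ^ (N - m) * (x⁻¹) ^ 2)‖ ≤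
      ‖((Q.coeff m : ℚ) : ℂ)‖ * (2 ^ N * (4 / ((l : ℝ) + 1) ^ 2)) := by
    intro m _
    rw [norm_mul, norm_mul, norm_pow, norm_pow]
    refine mul_le_mul_of_nonneg_left (mul_le_mul ?_ ?_ (by positivity) (by positivity)) (norm_nonneg _)
    · calc ‖x⁻¹‖ ^ (N - m) ≤ 2 ^ (N - m) := pow_le_pow_left₀ (norm_nonneg _) hinv2 _
        _ ≤ 2 ^ N := pow_le_pow_right₀ (by norm_num) (Nat.sub_le _ _)
    · calc ‖x⁻¹‖ ^ 2 ≤ (2 / ((l : ℝ) + 1)) ^ 2 := pow_le_pow_left₀ (norm_nonneg _) hinv _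
        _ = 4 / ((l : ℝ) + 1) ^ 2 := by rw [div_pow]; norm_num
  refine (Finset.sum_le_sum h4).trans (le_of_eq ?_)
  rw [← Finset.sum_mul]
  ring

/-- the ball -/
def Ub : Set ℂ := Metric.ball 0 (1 / 2)

lemma mem_Ub {z : ℂ} : z ∈ Ub ↔ ‖z‖ < 1 / 2 := by
  unfold Ub
  rw [Metric.mem_ball, dist_zero_right]

lemma zero_Ub : (0 : ℂ) ∈ Ub := by
  rw [mem_Ub, norm_zero]
  norm_num

lemma isOpen_Ub : IsOpen Ub := Metric.isOpen_ball

lemma gf_diff {a : ℚ} (ha : 1 ≤ |(a : ℝ)|) : DifferentiableOn ℂ (gf n Q a) Ub := by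
  intro z hz
  rw [mem_Ub] at hz
  refine DifferentiableAt.differentiableWithinAt ?_
  have h0 : ((a : ℂ) + z) ≠ 0 := by
    intro h0
    have h1 : ((a : ℚ) : ℂ) = -z := by linear_combination h0
    have h2 : ‖((a : ℚ) : ℂ)‖ = |(a : ℝ)| := by
      have : ((a : ℚ) : ℂ) = (((a : ℚ) : ℝ) : ℂ) := by push_cast; rfl
      rw [this, Complex.norm_real, Real.norm_eq_abs]
    rw [h1, norm_neg] at h2
    linarith
  unfold gf
  have h1 : DifferentiableAt ℂ (fun z : ℂ => (a : ℂ) + z) z := (differentiableAt_const _).add differentiableAt_id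
  exact ((Polynomial.differentiable _).differentiableAt.comp z h1).mul ((h1.inv h0).pow n)

/-- **convergence of the products** -/
theorem prod_lim (hQ : QG n Q) (a : ℕ → ℚ) (ha : ∀ l, |(a l : ℝ)| = (l : ℝ) + 1) :
    ∃ F : ℂ → ℂ, DifferentiableOn ℂ F Ub ∧
      (∀ z ∈ Ub, Tendsto (fun k => ∏ l ∈ Finset.range k, gf n Q (a l) z) atTop (𝓝 (F z))) ∧
      ∀ j, Tendsto (fun k => ((coeff j (∏ l ∈ Finset.range k,
        (Polynomial.aeval (ka (a l)) Q * ((ka (a l))⁻¹) ^ n)) : ℚ) : ℂ)) atTop (𝓝 (coeff j (tay F))) := by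
  obtain ⟨C, hC0, hC⟩ := gf_bound hQ
  have ha1 : ∀ l, 1 ≤ |(a l : ℝ)| := fun l => by
    rw [ha]
    linarith [Nat.cast_nonneg (α := ℝ) l]
  have hd : ∀ l, DifferentiableOn ℂ (gf n Q (a l)) Ub := fun l => gf_diff (ha1 l)
  have hu : Summable fun l : ℕ => C / ((l : ℝ) + 1) ^ 2 := by
    have h1 : Summable fun l : ℕ => 1 / ((l : ℝ)) ^ 2 := Real.summable_one_div_nat_pow.2 (by norm_num)
    have h2 := ((summable_nat_add_iff 1).2 h1).mul_left C
    refine h2.congr fun l => ?_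
    push_cast
    ring
  have h1 := Summable.hasProdLocallyUniformlyOn_nat_one_add (f := fun l z => gf n Q (a l) z - 1) isOpen_Ub hu
    (Eventually.of_forall fun l z hz => hC l (a l) z (ha l) (mem_Ub.1 hz))
    (fun l => ((hd l).continuousOn.sub continuousOn_const))
  have h2 := h1.tendstoLocallyUniformlyOn_finsetRange
  simp only [add_sub_cancel] at h2
  set F : ℂ → ℂ := fun z => ∏' l, gf n Q (a l) z with hF
  have hdk : ∀ k, DifferentiableOn ℂ (fun z => ∏ l ∈ Finset.range k, gf n Q (a l) z) Ub := fun k =>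
    DifferentiableOn.fun_finsetProd fun l _ => hd l
  refine ⟨F, ?_, fun z hz => h2.tendsto_at hz, fun j => ?_⟩
  · exact h2.differentiableOn (Eventually.of_forall hdk) isOpen_Ub
  · have h3 := tendsto_tay isOpen_Ub zero_Ub h2 hdk j
    refine h3.congr fun k => ?_
    have h4 : TA (∏ l ∈ Finset.range k, (Polynomial.aeval (ka (a l)) Q * ((ka (a l))⁻¹) ^ n))
        (fun z => ∏ l ∈ Finset.range k, gf n Q (a l) z) := TA.prod _ fun l _ => TA_gf (by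
      intro h0
      have := ha1 l
      rw [h0] at this
      norm_num at this)
    rw [h4.2, coeff_qx]

/-! ### the limits of the coefficients -/

lemma cc_eq (k : ℕ) : kx (k + 1) ^ n * aq n Q (k + 1) = Polynomial.aeval (ka 0) Q *
    ∏ l ∈ Finset.range k, (Polynomial.aeval (ka ((l : ℚ) + 1)) Q * ((ka ((l : ℚ) + 1))⁻¹) ^ n) := by
  have hk : ∀ l : ℕ, kx (l + 1) = ka ((l : ℚ) + 1) := by
    intro l
    unfold kx ka
    push_cast
    rfl
  have hk0 : kx 0 = ka 0 := by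
    unfold kx ka
    rw [Nat.cast_zero]
  induction k with
  | zero =>
    rw [aq_succ, Finset.range_zero, Finset.prod_empty, mul_one, hk0]
    unfold aq
    rw [Finset.range_zero, Finset.prod_empty, mul_one]
  | succ k ih =>
    rw [Finset.prod_range_succ, ← mul_assoc, ← ih, aq_succ, ← hk]
    have h := Pool.Agent.Y119.HY.kx_succ_mul_inv k
    calc Polynomial.aeval (kx (k + 1)) Q * aq n Q (k + 1) =
        Polynomial.aeval (kx (k + 1)) Q * aq n Q (k + 1) * (kx (k + 1) * (kx (k + 1))⁻¹) ^ n := by rw [h, one_pow, mul_one]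
      _ = _ := by ring

lemma dd_eq (k : ℕ) : dq n Q k =
    ∏ l ∈ Finset.range k, (Polynomial.aeval (ka (-((l : ℚ) + 1))) Q * ((ka (-((l : ℚ) + 1)))⁻¹) ^ n) := by
  unfold dq
  refine Finset.prod_congr rfl fun l _ => ?_
  have hk : ky (l + 1) = ka (-((l : ℚ) + 1)) := by
    unfold ky ka
    push_cast
    rfl
  rw [hk]

/-- limits of the coefficients of products -/
lemma tendsto_coeff_mul (p : ℚ⟦X⟧) {q : ℕ → ℚ⟦X⟧} {r : ℂ⟦X⟧}
    (h : ∀ j, Tendsto (fun k => ((coeff j (q k) : ℚ) : ℂ)) atTop (𝓝 (coeff j r))) (j : ℕ) :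
    Tendsto (fun k => ((coeff j (p * q k) : ℚ) : ℂ)) atTop (𝓝 (coeff j (qx p * r))) := by
  rw [PowerSeries.coeff_mul]
  have h1 : (fun k => ((coeff j (p * q k) : ℚ) : ℂ)) = fun k =>
      ∑ x ∈ Finset.HasAntidiagonal.antidiagonal j, coeff x.1 (qx p) * ((coeff x.2 (q k) : ℚ) : ℂ) := by
    funext k
    rw [PowerSeries.coeff_mul]
    push_cast
    exact Finset.sum_congr rfl fun x _ => by rw [coeff_qx]
  rw [h1]
  exact tendsto_finsetSum _ fun x _ => (h x.2).const_mul _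

/-- the partial products of the sine -/
noncomputable def Pk (k : ℕ) (z : ℂ) : ℂ := ∏ l ∈ Finset.range k, (1 - z ^ 2 / ((l : ℂ) + 1) ^ 2)

lemma Pk_lim (z : ℂ) : Tendsto (fun k => (Real.pi : ℂ) * z * Pk k z) atTop (𝓝 (Complex.sin (Real.pi * z))) :=
  Complex.tendsto_euler_sin_prod z

lemma QL_eval (β : Fin n → ℚ) (x : ℂ) : ((QL β).map (algebraMap ℚ ℂ)).eval x = ∏ j, (x - ((β j : ℚ) : ℂ)) := by
  unfold QL
  rw [Polynomial.map_prod, Polynomial.eval_prod]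
  refine Finset.prod_congr rfl fun j _ => ?_
  rw [Polynomial.map_sub, Polynomial.map_X, Polynomial.map_C, Polynomial.eval_sub, Polynomial.eval_X, Polynomial.eval_C]
  rfl

lemma fac_id (β : Fin n → ℚ) (l : ℕ) {z : ℂ} (hz : ‖z‖ < 1 / 2) :
    (1 - z ^ 2 / ((l : ℂ) + 1) ^ 2) ^ n * (gf n (QL β) ((l : ℚ) + 1) z * gf n (QL β) (-((l : ℚ) + 1)) z) =
      ∏ j, (1 - (z - ((β j : ℚ) : ℂ)) ^ 2 / ((l : ℂ) + 1) ^ 2) := by
  have hl : ((l : ℂ) + 1) ≠ 0 := by exact_mod_cast Nat.succ_ne_zero l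
  have hln : (1 : ℝ) ≤ ‖((l : ℂ) + 1)‖ := by
    have : ((l : ℂ) + 1) = (((l : ℝ) + 1 : ℝ) : ℂ) := by push_cast; rfl
    rw [this, Complex.norm_real, Real.norm_of_nonneg (by positivity)]
    linarith [Nat.cast_nonneg (α := ℝ) l]
  have h1 : ((l : ℂ) + 1) + z ≠ 0 := by
    intro h0
    have : ((l : ℂ) + 1) = -z := by linear_combination h0
    rw [this, norm_neg] at hln
    linarith
  have h2 : -((l : ℂ) + 1) + z ≠ 0 := by
    intro h0
    have : ((l : ℂ) + 1) = z := by linear_combination -h0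
    rw [this] at hln
    linarith
  unfold gf
  rw [QL_eval, QL_eval]
  push_cast
  have e1 : (1 - z ^ 2 / ((l : ℂ) + 1) ^ 2) ^ n * ((∏ j, (((l : ℂ) + 1) + z - ((β j : ℚ) : ℂ))) * ((((l : ℂ) + 1) + z)⁻¹) ^ n *
      ((∏ j, (-((l : ℂ) + 1) + z - ((β j : ℚ) : ℂ))) * ((-((l : ℂ) + 1) + z)⁻¹) ^ n)) =
      ((1 - z ^ 2 / ((l : ℂ) + 1) ^ 2) * (((l : ℂ) + 1) + z)⁻¹ * (-((l : ℂ) + 1) + z)⁻¹) ^ n *
      ((∏ j, (((l : ℂ) + 1) + z - ((β j : ℚ) : ℂ))) * (∏ j, (-((l : ℂ) + 1) + z - ((β j : ℚ) : ℂ)))) := by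
    rw [mul_pow, mul_pow]
    ring
  rw [e1, ← Finset.prod_mul_distrib]
  have e2 : (1 - z ^ 2 / ((l : ℂ) + 1) ^ 2) * (((l : ℂ) + 1) + z)⁻¹ * (-((l : ℂ) + 1) + z)⁻¹ = -(1 / ((l : ℂ) + 1) ^ 2) := by
    field_simp
    ring
  rw [e2]
  have e3 : (-(1 / ((l : ℂ) + 1) ^ 2)) ^ n = ∏ _j : Fin n, (-(1 / ((l : ℂ) + 1) ^ 2)) := by
    rw [Finset.prod_const, Finset.card_univ, Fintype.card_fin]
  rw [e3, ← Finset.prod_mul_distrib]
  refine Finset.prod_congr rfl fun j _ => ?_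
  field_simp
  ring

/-- **the limits**: the coefficients converge, and the product of the limits is a product of sines -/
theorem lims {β : Fin n → ℚ} (hQ : QG n (QL β)) : ∃ Cf Df : ℂ → ℂ, AnalyticAt ℂ Cf 0 ∧ AnalyticAt ℂ Df 0 ∧
    (∀ j, Tendsto (fun k => cc n (QL β) k j) atTop (𝓝 (coeff j (tay Cf)))) ∧
    (∀ j, Tendsto (fun k => dd n (QL β) k j) atTop (𝓝 (coeff j (tay Df)))) ∧
    ∀ z ∈ Ub, Complex.sin (Real.pi * z) ^ n * (Cf z * Df z) = z ^ n * ∏ j, Complex.sin (Real.pi * (z - ((β j : ℚ) : ℂ))) := by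
  obtain ⟨F, hF1, hF2, hF3⟩ := prod_lim hQ (fun l => (l : ℚ) + 1) (fun l => by
    push_cast
    rw [abs_of_nonneg (by positivity)])
  obtain ⟨D, hD1, hD2, hD3⟩ := prod_lim hQ (fun l => -((l : ℚ) + 1)) (fun l => by
    push_cast
    rw [abs_neg, abs_of_nonneg (by positivity)])
  set Qc : ℂ → ℂ := fun z => ((QL β).map (algebraMap ℚ ℂ)).eval ((((0 : ℚ)) : ℂ) + z) with hQc
  have hTQ : TA (Polynomial.aeval (ka 0) (QL β)) Qc := TA_aeval 0 (QL β)
  have hFa : AnalyticAt ℂ F 0 := hF1.analyticAt (isOpen_Ub.mem_nhds zero_Ub)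
  have hDa : AnalyticAt ℂ D 0 := hD1.analyticAt (isOpen_Ub.mem_nhds zero_Ub)
  refine ⟨fun z => Qc z * F z, D, hTQ.1.mul hFa, hDa, fun j => ?_, fun j => ?_, fun z hz => ?_⟩
  · rw [tay_mul hTQ.1 hFa, hTQ.2]
    have h1 := tendsto_coeff_mul (Polynomial.aeval (ka 0) (QL β)) hF3 j
    rw [← tendsto_add_atTop_iff_nat 1]
    refine h1.congr fun k => ?_
    unfold cc
    rw [cc_eq]
  · refine (hD3 j).congr fun k => ?_
    unfold dd
    rw [dd_eq]
  · have h1 := (hF2 z hz).mul (hD2 z hz)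
    have h2 : ∀ k, Pk k z ^ n * ((∏ l ∈ Finset.range k, gf n (QL β) ((l : ℚ) + 1) z) *
        ∏ l ∈ Finset.range k, gf n (QL β) (-((l : ℚ) + 1)) z) = ∏ j, Pk k (z - ((β j : ℚ) : ℂ)) := by
      intro k
      unfold Pk
      rw [← Finset.prod_pow, ← Finset.prod_mul_distrib, ← Finset.prod_mul_distrib, Finset.prod_comm]
      exact Finset.prod_congr rfl fun l _ => fac_id β l (mem_Ub.1 hz)
    have h3 : Tendsto (fun k => ((Real.pi : ℂ) * z * Pk k z) ^ n * (Qc z * ((∏ l ∈ Finset.range k, gf n (QL β) ((l : ℚ) + 1) z) *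
        ∏ l ∈ Finset.range k, gf n (QL β) (-((l : ℚ) + 1)) z))) atTop
        (𝓝 (Complex.sin (Real.pi * z) ^ n * (Qc z * (F z * D z)))) :=
      ((Pk_lim z).pow n).mul (h1.const_mul _)
    have h4 : Tendsto (fun k => z ^ n * ∏ j, ((Real.pi : ℂ) * (z - ((β j : ℚ) : ℂ)) * Pk k (z - ((β j : ℚ) : ℂ)))) atTop
        (𝓝 (z ^ n * ∏ j, Complex.sin (Real.pi * (z - ((β j : ℚ) : ℂ))))) :=
      (tendsto_finsetProd _ fun j _ => Pk_lim _).const_mul _
    have h5 : ∀ k, ((Real.pi : ℂ) * z * Pk k z) ^ n * (Qc z * ((∏ l ∈ Finset.range k, gf n (QL β) ((l : ℚ) + 1) z) *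
        ∏ l ∈ Finset.range k, gf n (QL β) (-((l : ℚ) + 1)) z)) =
        z ^ n * ∏ j, ((Real.pi : ℂ) * (z - ((β j : ℚ) : ℂ)) * Pk k (z - ((β j : ℚ) : ℂ))) := by
      intro k
      have e1 : Qc z = ∏ j, (z - ((β j : ℚ) : ℂ)) := by
        rw [hQc]
        simp only
        rw [QL_eval, Rat.cast_zero, zero_add]
      rw [Finset.prod_mul_distrib, ← h2 k, Finset.prod_mul_distrib, ← e1, Finset.prod_const, Finset.card_univ,
        Fintype.card_fin]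
      ring
    simp only [h5] at h3
    have h6 := tendsto_nhds_unique h3 h4
    rw [← h6]
    ring

end Pool.Agent.E8helper43.HS
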