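import Pool.Agent.Y119.HY.Grp
import Pool.Agent.H463R3.PSLn

/-!
# Density in the special linear group

`N` is a nilpotent matrix with `N ^ (n - 1) ≠ 0`, `v` a vector and `φ` a linear form with `φ v = 0`, `φ (N ^ (n - 1) v) ≠ 0`.
A monoid of matrices which is closed under specialisation of polynomial families and normalised by the `exp (c N)` and by the
transvections `1 + s v ⊗ φ` and which contains the transvections `1 + s N ^ (n - 1) v ⊗ φ N ^ (n - 1)` contains the special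
linear group, if the polynomial `φ (exp (c N) v)` in `c` is not odd.
-/

set_option autoImplicit false
set_option maxHeartbeats 4000000

open Matrix Pool.Agent.Y119.HY

namespace Pool.Agent.E8helper43.HS

variable {n : ℕ}

/-- transvections -/
noncomputable def tr (x ξ : Fin n → ℂ) (s : ℂ) : Matrix (Fin n) (Fin n) ℂ := 1 + s • vecMulVec x ξ

lemma tr_mulVec (x ξ y : Fin n → ℂ) (s : ℂ) : tr x ξ s *ᵥ y = y + (s * (ξ ⬝ᵥ y)) • x := by
  unfold tr
  rw [add_mulVec, one_mulVec, smul_mulVec, vecMulVec_mulVec]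
  congr 1
  ext i
  simp only [Pi.smul_apply, MulOpposite.smul_eq_mul_unop, MulOpposite.unop_op, smul_eq_mul]
  ring

lemma vecMul_tr (x ξ η : Fin n → ℂ) (s : ℂ) : η ᵥ* tr x ξ s = η + (s * (η ⬝ᵥ x)) • ξ := by
  unfold tr
  rw [vecMul_add, vecMul_one, vecMul_smul, vecMul_vecMulVec, smul_smul]

lemma tr_conj {g h : Matrix (Fin n) (Fin n) ℂ} (hgh : g * h = 1) (x ξ : Fin n → ℂ) (s : ℂ) :
    g * tr x ξ s * h = tr (g *ᵥ x) (ξ ᵥ* h) s := by
  unfold tr
  rw [mul_add, mul_one, add_mul, hgh, mul_smul_comm, smul_mul_assoc, mul_vecMulVec, vecMulVec_mul]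

lemma tr_mul (x ξ η : Fin n → ℂ) (h : ξ ⬝ᵥ x = 0) (s t : ℂ) : tr x ξ s * tr x η t = tr x (s • ξ + t • η) 1 := by
  have h1 : vecMulVec x ξ * vecMulVec x η = 0 := by
    rw [vecMulVec_mul_vecMulVec, h, zero_smul, vecMulVec_zero]
  unfold tr
  rw [mul_add, add_mul, add_mul, smul_mul_smul_comm, h1, vecMulVec_add, vecMulVec_smul, vecMulVec_smul]
  simp only [mul_one, one_mul, smul_zero, add_zero, one_smul]
  rw [add_assoc]

lemma tr_mul_left (x y ξ : Fin n → ℂ) (h : ξ ⬝ᵥ y = 0) (s t : ℂ) : tr x ξ s * tr y ξ t = tr (s • x + t • y) ξ 1 := by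
  have h1 : vecMulVec x ξ * vecMulVec y ξ = 0 := by
    rw [vecMulVec_mul_vecMulVec, h, zero_smul, vecMulVec_zero]
  unfold tr
  rw [mul_add, add_mul, add_mul, smul_mul_smul_comm, h1, add_vecMulVec, smul_vecMulVec, smul_vecMulVec]
  simp only [mul_one, one_mul, smul_zero, add_zero, one_smul]
  rw [add_assoc]

lemma tr_zero_right (x : Fin n → ℂ) (s : ℂ) : tr x 0 s = 1 := by
  unfold tr
  rw [vecMulVec_zero, smul_zero, add_zero]

lemma tr_zero_left (ξ : Fin n → ℂ) (s : ℂ) : tr 0 ξ s = 1 := by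
  unfold tr
  rw [zero_vecMulVec, smul_zero, add_zero]

lemma tr_smul_right (x ξ : Fin n → ℂ) (c s : ℂ) : tr x (c • ξ) s = tr x ξ (s * c) := by
  unfold tr
  rw [vecMulVec_smul, smul_smul]

lemma tr_smul_left (x ξ : Fin n → ℂ) (c s : ℂ) : tr (c • x) ξ s = tr x ξ (s * c) := by
  unfold tr
  rw [smul_vecMulVec, smul_smul]

lemma tr_mul_neg {x ξ : Fin n → ℂ} (h : ξ ⬝ᵥ x = 0) (s : ℂ) : tr x ξ s * tr x ξ (-s) = 1 := by
  rw [tr_mul x ξ ξ h, ← add_smul, add_neg_cancel, zero_smul, tr_zero_right]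

/-- the transvections in the direction `x`, `ξ` are in `S` -/
def Gd (S : Submonoid (Matrix (Fin n) (Fin n) ℂ)) (x ξ : Fin n → ℂ) : Prop := ξ ⬝ᵥ x = 0 ∧ ∀ s, tr x ξ s ∈ S

/-- `g` normalises `S` -/
def Nm (S : Submonoid (Matrix (Fin n) (Fin n) ℂ)) (g h : Matrix (Fin n) (Fin n) ℂ) : Prop :=
  g * h = 1 ∧ ∀ k ∈ S, g * k * h ∈ S

variable {S : Submonoid (Matrix (Fin n) (Fin n) ℂ)}

lemma Nm.mul {g h g' h' : Matrix (Fin n) (Fin n) ℂ} (hg : Nm S g h) (hg' : Nm S g' h') : Nm S (g * g') (h' * h) := by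
  refine ⟨?_, fun k hk => ?_⟩
  · calc g * g' * (h' * h) = g * (g' * h') * h := by simp only [Matrix.mul_assoc]
      _ = 1 := by rw [hg'.1, mul_one, hg.1]
  · have h1 := hg.2 _ (hg'.2 k hk)
    have h2 : g * g' * k * (h' * h) = g * (g' * k * h') * h := by simp only [Matrix.mul_assoc]
    rw [h2]
    exact h1

lemma Nm.gd {g h : Matrix (Fin n) (Fin n) ℂ} (hg : Nm S g h) {x ξ : Fin n → ℂ} (hx : Gd S x ξ) :
    Gd S (g *ᵥ x) (ξ ᵥ* h) := by
  have hhg : h * g = 1 := mul_eq_one_comm.1 hg.1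
  refine ⟨?_, fun s => ?_⟩
  · rw [dotProduct_mulVec, vecMul_vecMul, hhg, vecMul_one]
    exact hx.1
  · rw [← tr_conj hg.1]
    exact hg.2 _ (hx.2 s)

lemma Gd.nm {x ξ : Fin n → ℂ} (h : Gd S x ξ) (s : ℂ) : Nm S (tr x ξ s) (tr x ξ (-s)) :=
  ⟨tr_mul_neg h.1 s, fun _ hk => mul_mem (mul_mem (h.2 _) hk) (h.2 _)⟩

lemma Gd.smul_right {x ξ : Fin n → ℂ} (h : Gd S x ξ) (c : ℂ) : Gd S x (c • ξ) :=
  ⟨by rw [smul_dotProduct, h.1, smul_zero], fun s => by rw [tr_smul_right]; exact h.2 _⟩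

lemma Gd.smul_left {x ξ : Fin n → ℂ} (h : Gd S x ξ) (c : ℂ) : Gd S (c • x) ξ :=
  ⟨by rw [dotProduct_smul, h.1, smul_zero], fun s => by rw [tr_smul_left]; exact h.2 _⟩

lemma Gd.add_right {x ξ η : Fin n → ℂ} (h : Gd S x ξ) (h' : Gd S x η) : Gd S x (ξ + η) := by
  refine ⟨by rw [add_dotProduct, h.1, h'.1, add_zero], fun s => ?_⟩
  have h1 := tr_mul x ξ η h.1 s s
  have h2 : tr x (ξ + η) s = tr x (s • ξ + s • η) 1 := by
    rw [← smul_add, tr_smul_right, one_mul]
  rw [h2, ← h1]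
  exact mul_mem (h.2 _) (h'.2 _)

/-- the forms `ξ` with transvections in the direction `x`, `ξ` in `S` -/
def Wx (S : Submonoid (Matrix (Fin n) (Fin n) ℂ)) (x : Fin n → ℂ) : Submodule ℂ (Fin n → ℂ) where
  carrier := {ξ | Gd S x ξ}
  add_mem' := fun h h' => h.add_right h'
  zero_mem' := ⟨zero_dotProduct _, fun s => by rw [tr_zero_right]; exact one_mem _⟩
  smul_mem' := fun c _ h => h.smul_right c

lemma mem_Wx {x ξ : Fin n → ℂ} : ξ ∈ Wx S x ↔ Gd S x ξ := Iff.rfl

/-- the vectors `y` such that all transvections in the direction `y` are in `S` -/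
def Yx (S : Submonoid (Matrix (Fin n) (Fin n) ℂ)) : Submodule ℂ (Fin n → ℂ) where
  carrier := {y | ∀ η : Fin n → ℂ, η ⬝ᵥ y = 0 → Gd S y η}
  zero_mem' := fun η h => ⟨h, fun s => by rw [tr_zero_left]; exact one_mem _⟩
  smul_mem' := by
    intro c y hy η hη
    rcases eq_or_ne c 0 with h0 | h0
    · subst h0
      refine ⟨hη, fun s => ?_⟩
      rw [zero_smul, tr_zero_left]
      exact one_mem _
    · have h1 : η ⬝ᵥ y = 0 := by
        rw [dotProduct_smul, smul_eq_mul] at hη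
        exact (mul_eq_zero.1 hη).resolve_left h0
      exact (hy η h1).smul_left c
  add_mem' := by
    intro y y' hy hy' η hη
    by_cases h0 : ∀ ζ : Fin n → ℂ, ζ ⬝ᵥ y = 0 → ζ ⬝ᵥ y' = 0
    · -- dependent vectors
      by_cases hy0 : y = 0
      · rw [hy0, zero_add] at hη ⊢
        exact hy' η hη
      · obtain ⟨i, hi⟩ : ∃ i, y i ≠ 0 := by
          by_contra hcon
          push Not at hcon
          exact hy0 (funext hcon)
        have h1 : y' = (y' i / y i) • y := by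
          funext j
          have h2 := h0 (fun l => if l = j then y i else 0 - if l = i then y j else 0)
          rcases eq_or_ne j i with hji | hji
          · rw [hji, Pi.smul_apply, smul_eq_mul, div_mul_cancel₀ _ hi]
          · have h3 := h0 (y i • Pi.single j 1 - y j • Pi.single i 1) (by
              rw [sub_dotProduct, smul_dotProduct, smul_dotProduct, single_dotProduct, single_dotProduct]
              simp only [one_mul, smul_eq_mul]
              ring)
            rw [sub_dotProduct, smul_dotProduct, smul_dotProduct, single_dotProduct, single_dotProduct] at h3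
            simp only [one_mul, smul_eq_mul] at h3
            rw [Pi.smul_apply, smul_eq_mul]
            field_simp
            linear_combination h3
        rw [h1] at hη ⊢
        have h2 : y + (y' i / y i) • y = (1 + y' i / y i) • y := by rw [add_smul, one_smul]
        rw [h2] at hη ⊢
        rcases eq_or_ne (1 + y' i / y i) 0 with h3 | h3
        · rw [h3] at hη ⊢
          refine ⟨hη, fun s => ?_⟩
          rw [zero_smul, tr_zero_left]
          exact one_mem _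
        · have h4 : η ⬝ᵥ y = 0 := by
            rw [dotProduct_smul, smul_eq_mul] at hη
            exact (mul_eq_zero.1 hη).resolve_left h3
          exact (hy η h4).smul_left _
    · push Not at h0
      obtain ⟨ζ, hζ, hζ'⟩ := h0
      -- conjugation by a transvection in the direction `y`
      set t : ℂ := (ζ ⬝ᵥ y')⁻¹ with ht
      have hgy : Gd S y ζ := hy ζ hζ
      have hN := hgy.nm t
      have h1 : tr y ζ t *ᵥ y' = y + y' := by
        rw [tr_mulVec, ht, inv_mul_cancel₀ hζ', one_smul, add_comm]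
      have h2 : (η ᵥ* tr y ζ t) ⬝ᵥ y' = 0 := by
        rw [← dotProduct_mulVec, h1]
        exact hη
      have h3 := hN.gd (hy' _ h2)
      rw [h1, vecMul_vecMul, hN.1, vecMul_one] at h3
      exact h3

lemma mem_Yx {y : Fin n → ℂ} : y ∈ Yx S ↔ ∀ η : Fin n → ℂ, η ⬝ᵥ y = 0 → Gd S y η := Iff.rfl

lemma Nm.yx {g h : Matrix (Fin n) (Fin n) ℂ} (hg : Nm S g h) {y : Fin n → ℂ} (hy : y ∈ Yx S) : g *ᵥ y ∈ Yx S := by
  intro η hη
  have h2 : (η ᵥ* g) ⬝ᵥ y = 0 := by
    rw [← dotProduct_mulVec]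
    exact hη
  have h3 := hg.gd (hy _ h2)
  rw [vecMul_vecMul, hg.1, vecMul_one] at h3
  exact h3

/-- subspaces which are stable under `exp (c N)` are stable under `N` -/
lemma stable_of_E {N : Matrix (Fin n) (Fin n) ℂ} (hn : 2 ≤ n) (W : Submodule ℂ (Fin n → ℂ))
    (hW : ∀ c : ℂ, ∀ x ∈ W, E N c *ᵥ x ∈ W) {x : Fin n → ℂ} (hx : x ∈ W) : N *ᵥ x ∈ W := by
  by_contra hcon
  obtain ⟨l, hl1, hl2⟩ := Submodule.exists_le_ker_of_notMem hcon
  have h1 : pl N x l = 0 := by
    refine Polynomial.funext fun c => ?_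
    rw [pl_eval, Polynomial.eval_zero]
    exact LinearMap.mem_ker.1 (hl2 (hW c x hx))
  have h2 := pl_coeff (N := N) x l ⟨1, by omega⟩
  rw [h1, Polynomial.coeff_zero] at h2
  simp only [pow_one, Nat.factorial_one, Nat.cast_one, div_one] at h2
  exact hl1 h2.symm

lemma vecMul_E (N : Matrix (Fin n) (Fin n) ℂ) (φ : Fin n → ℂ) (c : ℂ) : φ ᵥ* E N c = E N.transpose c *ᵥ φ := by
  have h1 : E N.transpose c = (E N c).transpose := by
    unfold E
    rw [transpose_sum]
    refine Finset.sum_congr rfl fun i _ => ?_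
    rw [transpose_smul, transpose_pow]
  rw [h1, mulVec_transpose]

section main

variable {N : Matrix (Fin n) (Fin n) ℂ} {v φ : Fin n → ℂ} (hn : 2 ≤ n) (hN : N ^ n = 0) (hφv : φ ⬝ᵥ v = 0)
  (hκ : φ ⬝ᵥ (N ^ (n - 1) *ᵥ v) ≠ 0) (hE : ∀ c : ℂ, Nm S (E N c) (E N (-c)))
  (hvN : ∀ s : ℂ, Nm S (tr v φ s) (tr v φ (-s))) (hes : Gd S (N ^ (n - 1) *ᵥ v) (φ ᵥ* N ^ (n - 1)))
  (hodd : ∃ c : ℂ, φ ⬝ᵥ (E N (-c) *ᵥ v) ≠ -(φ ⬝ᵥ (E N c *ᵥ v)))

/-- the form `φ` -/
def lf (φ : Fin n → ℂ) : (Fin n → ℂ) →ₗ[ℂ] ℂ :=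
  { toFun := fun x => φ ⬝ᵥ x, map_add' := dotProduct_add φ, map_smul' := fun c x => by rw [dotProduct_smul]; rfl }

include hN in
lemma E_top (c : ℂ) (x : Fin n → ℂ) : E N c *ᵥ (N ^ (n - 1) *ᵥ x) = N ^ (n - 1) *ᵥ x := by
  rcases Nat.eq_zero_or_pos n with h0 | hpos
  · subst h0
    exact Subsingleton.elim _ _
  have h1 : N *ᵥ (N ^ (n - 1) *ᵥ x) = 0 := by
    rw [mulVec_mulVec, ← pow_succ', Nat.sub_add_cancel hpos, hN, zero_mulVec]
  obtain ⟨m, rfl⟩ := Nat.exists_eq_succ_of_ne_zero hpos.ne'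
  unfold E
  rw [Matrix.sum_mulVec, Finset.sum_range_succ']
  have h2 : ∀ i ∈ Finset.range m, ((c ^ (i + 1) / ((i + 1).factorial : ℂ)) • N ^ (i + 1)) *ᵥ (N ^ (m.succ - 1) *ᵥ x) = 0 := by
    intro i _
    rw [smul_mulVec, pow_succ N, ← mulVec_mulVec, h1, mulVec_zero, smul_zero]
  rw [Finset.sum_eq_zero h2, zero_add, pow_zero, pow_zero, Nat.factorial_zero, Nat.cast_one, div_one, one_smul, one_mulVec]

include hn hκ hodd in
lemma exists_c : ∃ c : ℂ, φ ⬝ᵥ (E N c *ᵥ v) ≠ 0 ∧ φ ⬝ᵥ (E N (-c) *ᵥ v) ≠ -(φ ⬝ᵥ (E N c *ᵥ v)) := by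
  set F := pl N v (lf φ) with hF
  have hFe : ∀ c, F.eval c = φ ⬝ᵥ (E N c *ᵥ v) := fun c => pl_eval v (lf φ) c
  have hF0 : F ≠ 0 := by
    intro h0
    have h1 := pl_coeff (N := N) v (lf φ) ⟨n - 1, by omega⟩
    rw [← hF, h0, Polynomial.coeff_zero] at h1
    have h2 : ((n - 1).factorial : ℂ) ≠ 0 := by exact_mod_cast (n - 1).factorial_ne_zero
    exact hκ ((div_eq_zero_iff.1 h1.symm).resolve_right h2)
  have hG0 : F.comp (-Polynomial.X) + F ≠ 0 := by
    intro h0
    obtain ⟨c, hc⟩ := hodd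
    apply hc
    have h1 := congrArg (Polynomial.eval c) h0
    rw [Polynomial.eval_add, Polynomial.eval_comp, Polynomial.eval_neg, Polynomial.eval_X, Polynomial.eval_zero, hFe,
      hFe] at h1
    linear_combination h1
  obtain ⟨c, hc⟩ : ∃ c, (F * (F.comp (-Polynomial.X) + F)).eval c ≠ 0 := by
    by_contra hcon
    push Not at hcon
    exact mul_ne_zero hF0 hG0 (Polynomial.funext fun c => by rw [hcon c, Polynomial.eval_zero])
  rw [Polynomial.eval_mul, Polynomial.eval_add, Polynomial.eval_comp, Polynomial.eval_neg, Polynomial.eval_X, hFe,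
    hFe] at hc
  refine ⟨c, left_ne_zero_of_mul hc, fun h => right_ne_zero_of_mul hc ?_⟩
  rw [h]
  ring

include hn hN hφv hκ hE hvN hes hodd in
/-- the highest weight vector -/
lemma e_mem : N ^ (n - 1) *ᵥ v ∈ Yx S := by
  set e := N ^ (n - 1) *ᵥ v with he
  set ψ := φ ᵥ* N ^ (n - 1) with hψ
  set κ := φ ⬝ᵥ e with hκd
  obtain ⟨c, hc1, hc2⟩ := exists_c (N := N) (v := v) (φ := φ) hn hκ hodd
  set f : ℂ → ℂ := fun c => φ ⬝ᵥ (E N c *ᵥ v) with hf
  have hEN : ∀ c, E N c * E N (-c) = 1 := fun c => E_mul_neg hN c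
  have hEe : ∀ c, E N c *ᵥ e = e := fun c => E_top hN c v
  -- the pair `q`
  set vc := E N c *ᵥ v with hvc
  set φc := φ ᵥ* E N (-c) with hφc
  have a1 : φ ⬝ᵥ vc = f c := rfl
  have a2 : φc ⬝ᵥ v = f (-c) := by rw [hφc, ← dotProduct_mulVec]
  have a3 : φc ⬝ᵥ vc = 0 := by
    rw [hφc, hvc, ← dotProduct_mulVec, mulVec_mulVec]
    have := hEN (-c)
    rw [neg_neg] at this
    rw [this, one_mulVec, hφv]
  set x := v + (f (-c) / f c) • vc with hx
  set ξ := φ - φc with hξ
  -- conjugation by the transvections with direction `vc`, `φc`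
  have hNc : ∀ s, Nm S (tr vc φc s) (tr vc φc (-s)) := by
    intro s
    have h1 := ((hE c).mul (hvN s)).mul (hE (-c))
    rw [neg_neg] at h1
    have h2 := hEN c
    have e1 : E N c * tr v φ s * E N (-c) = tr vc φc s := tr_conj h2 v φ s
    have e2 : E N c * (tr v φ (-s) * E N (-c)) = tr vc φc (-s) := by
      rw [← Matrix.mul_assoc]
      exact tr_conj h2 v φ (-s)
    rw [e1, e2] at h1
    exact h1
  have hNx : ∀ s, Nm S (tr x ξ s) (tr x ξ (-s)) := by
    intro s
    have h1 := ((hNc (f c)⁻¹).mul (hvN s)).mul (hNc (-(f c)⁻¹))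
    rw [neg_neg] at h1
    have e0 : tr vc φc (f c)⁻¹ * tr vc φc (-(f c)⁻¹) = 1 := tr_mul_neg a3 _
    have ex : tr vc φc (f c)⁻¹ *ᵥ v = x := by
      rw [tr_mulVec, a2, hx, div_eq_inv_mul]
    have eξ : φ ᵥ* tr vc φc (-(f c)⁻¹) = ξ := by
      rw [vecMul_tr, a1, neg_mul, inv_mul_cancel₀ hc1, neg_one_smul, hξ, sub_eq_add_neg]
    have e1 : tr vc φc (f c)⁻¹ * tr v φ s * tr vc φc (-(f c)⁻¹) = tr x ξ s := by
      rw [tr_conj e0, ex, eξ]
    have e2 : tr vc φc (f c)⁻¹ * (tr v φ (-s) * tr vc φc (-(f c)⁻¹)) = tr x ξ (-s) := by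
      rw [← Matrix.mul_assoc, tr_conj e0, ex, eξ]
    rw [e1, e2] at h1
    exact h1
  -- values
  have b1 : ξ ⬝ᵥ e = 0 := by
    rw [hξ, sub_dotProduct, hφc, ← dotProduct_mulVec, hEe, sub_self]
  have b2 : ψ ⬝ᵥ v = κ := by rw [hψ, ← dotProduct_mulVec]
  have hcomm : ∀ c, N ^ (n - 1) *ᵥ (E N c *ᵥ v) = e := by
    intro c
    rw [mulVec_mulVec]
    have h1 : N ^ (n - 1) * E N c = E N c * N ^ (n - 1) := by
      unfold E
      rw [Finset.mul_sum, Finset.sum_mul]
      refine Finset.sum_congr rfl fun i _ => ?_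
      rw [mul_smul_comm, smul_mul_assoc, ← pow_add, ← pow_add, add_comm]
    rw [h1, ← mulVec_mulVec]
    exact hEe c
  have b3 : ψ ⬝ᵥ vc = κ := by rw [hψ, ← dotProduct_mulVec, hvc, hcomm]
  have b4 : ψ ⬝ᵥ x ≠ 0 := by
    rw [hx, dotProduct_add, dotProduct_smul, b2, b3, smul_eq_mul]
    have h1 : κ + f (-c) / f c * κ = κ * (f c + f (-c)) / f c := by
      have : f c ≠ 0 := hc1
      field_simp
    rw [h1]
    refine div_ne_zero (mul_ne_zero hκ ?_) hc1
    intro h0
    exact hc2 (eq_neg_of_add_eq_zero_right h0)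
  -- `ξ` is in `W`
  have hψW : ψ ∈ Wx S e := hes
  have hξW : ξ ∈ Wx S e := by
    have h1 := (hNx 1).gd hes
    rw [tr_mulVec, b1, mul_zero, zero_smul, add_zero, vecMul_tr] at h1
    have h2 : ψ + (-1 * (ψ ⬝ᵥ x)) • ξ ∈ Wx S e := h1
    have h3 := (Wx S e).sub_mem h2 hψW
    rw [add_sub_cancel_left] at h3
    have h4 := (Wx S e).smul_mem (-1 * (ψ ⬝ᵥ x))⁻¹ h3
    rwa [smul_smul, inv_mul_cancel₀ (mul_ne_zero (by norm_num) b4), one_smul] at h4
  -- stability
  have hWE : ∀ c : ℂ, ∀ η ∈ Wx S e, E N.transpose c *ᵥ η ∈ Wx S e := by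
    intro c η hη
    have h1 := (hE (-c)).gd (mem_Wx.1 hη)
    rw [neg_neg, hEe, vecMul_E] at h1
    exact h1
  have hWN : ∀ η ∈ Wx S e, N.transpose *ᵥ η ∈ Wx S e := fun η hη => stable_of_E hn (Wx S e) hWE hη
  have hWN' : ∀ k : ℕ, ∀ η ∈ Wx S e, N.transpose ^ k *ᵥ η ∈ Wx S e := by
    intro k
    induction k with
    | zero => intro η hη; rwa [pow_zero, one_mulVec]
    | succ k ih =>
      intro η hη
      rw [pow_succ', ← mulVec_mulVec]
      exact hWN _ (ih η hη)
  have hNt : N.transpose ^ n = 0 := by rw [← transpose_pow, hN, transpose_zero]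
  -- the powers
  have hξe : ξ = -∑ i ∈ Finset.range (n - 1), (((-c) ^ (i + 1) / ((i + 1).factorial : ℂ)) • N.transpose ^ (i + 1) *ᵥ φ) := by
    rw [hξ, hφc, vecMul_E]
    unfold E
    obtain ⟨m, rfl⟩ := Nat.exists_eq_succ_of_ne_zero (show n ≠ 0 by omega)
    rw [Matrix.sum_mulVec, Finset.sum_range_succ', Nat.succ_sub_one]
    simp only [pow_zero, Nat.factorial_zero, Nat.cast_one, div_one, one_smul, one_mulVec, smul_mulVec]
    abel
  have hc0 : c ≠ 0 := by
    intro h0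
    apply hc1
    rw [hvc, h0, Pool.Agent.Y119.HY.E_zero hN, one_mulVec, hφv]
  have hpow : ∀ d : ℕ, ∀ m : ℕ, n ≤ m + d → 1 ≤ m → N.transpose ^ m *ᵥ φ ∈ Wx S e := by
    intro d
    induction d with
    | zero =>
      intro m hm _
      rw [pow_eq_zero_of_le (by omega) hNt, zero_mulVec]
      exact (Wx S e).zero_mem
    | succ d ih =>
      intro m hm hm1
      by_cases hmn : n ≤ m
      · rw [pow_eq_zero_of_le hmn hNt, zero_mulVec]
        exact (Wx S e).zero_mem
      have h1 := hWN' (m - 1) ξ hξW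
      obtain ⟨p, hp⟩ := Nat.exists_eq_succ_of_ne_zero (show n - 1 ≠ 0 by omega)
      rw [hξe, mulVec_neg, mulVec_sum, hp, Finset.sum_range_succ'] at h1
      simp only [mulVec_smul, mulVec_mulVec, ← pow_add] at h1
      have h2 : ∑ i ∈ Finset.range p, ((-c) ^ (i + 1 + 1) / ((i + 1 + 1).factorial : ℂ)) •
          (N.transpose ^ (m - 1 + (i + 1 + 1))) *ᵥ φ ∈ Wx S e := by
        refine Submodule.sum_mem _ fun i _ => (Wx S e).smul_mem _ (ih _ (by omega) (by omega))
      have h3 := (Wx S e).add_mem h1 h2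
      rw [neg_add, add_comm (-_) (-_), add_assoc, neg_add_cancel, add_zero] at h3
      rw [zero_add, pow_one, Nat.factorial_one, Nat.cast_one, div_one, neg_smul, neg_neg,
        Nat.sub_add_cancel hm1] at h3
      have h4 := (Wx S e).smul_mem c⁻¹ h3
      rwa [smul_smul, inv_mul_cancel₀ hc0, one_smul] at h4
  -- all forms which vanish at `e`
  intro η hη
  have hφ1 : (N.transpose ^ (n - 1)) *ᵥ φ ≠ 0 := by
    intro h0
    apply b4
    have h1 : ψ = (N.transpose ^ (n - 1)) *ᵥ φ := by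
      rw [hψ, ← transpose_pow, mulVec_transpose]
    rw [h1, h0, zero_dotProduct]
  have hspan := (chain_li hNt hφ1).span_eq_top_of_card_eq_finrank' (by simp)
  have hη' : η ∈ Submodule.span ℂ (Set.range fun i : Fin n => (N.transpose ^ (i : ℕ)) *ᵥ φ) := by
    rw [hspan]
    trivial
  obtain ⟨a, ha⟩ := (Submodule.mem_span_range_iff_exists_fun ℂ).1 hη'
  have h0n : 0 < n := by omega
  have hdot : ∀ i : Fin n, ((N.transpose ^ (i : ℕ)) *ᵥ φ) ⬝ᵥ e = if (i : ℕ) = 0 then κ else 0 := by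
    intro i
    rw [← transpose_pow, mulVec_transpose, ← dotProduct_mulVec, he, mulVec_mulVec, ← pow_add]
    split_ifs with h
    · rw [h, zero_add, hκd, he]
    · rw [pow_eq_zero_of_le (by omega) hN, zero_mulVec, dotProduct_zero]
  have ha0 : a ⟨0, h0n⟩ = 0 := by
    rw [← ha, sum_dotProduct] at hη
    simp only [smul_dotProduct, hdot, smul_eq_mul] at hη
    rw [Finset.sum_eq_single ⟨0, h0n⟩] at hη
    · rw [if_pos rfl] at hη
      exact (mul_eq_zero.1 hη).resolve_right hκ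
    · intro b _ hb
      rw [if_neg (fun h => hb (Fin.ext h)), mul_zero]
    · intro h
      exact absurd (Finset.mem_univ _) h
  have : η ∈ Wx S e := by
    rw [← ha]
    refine Submodule.sum_mem _ fun i _ => ?_
    by_cases hi : (i : ℕ) = 0
    · have : i = ⟨0, h0n⟩ := Fin.ext hi
      rw [this, ha0, zero_smul]
      exact (Wx S e).zero_mem
    · exact (Wx S e).smul_mem _ (hpow n i (by omega) (by omega))
  exact this

include hn hN hφv hκ hE hvN hes hodd in
/-- **Density.** -/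
theorem sl_all (g : Matrix (Fin n) (Fin n) ℂ) (hg : g.det = 1) : g ∈ S := by
  have he := e_mem hn hN hφv hκ hE hvN hes hodd
  have hv : v ∈ Yx S := by
    have h1 := (hvN 1).yx he
    rw [tr_mulVec, one_mul] at h1
    have h2 := (Yx S).sub_mem h1 he
    rw [add_sub_cancel_left] at h2
    have h3 := (Yx S).smul_mem (φ ⬝ᵥ (N ^ (n - 1) *ᵥ v))⁻¹ h2
    rwa [smul_smul, inv_mul_cancel₀ hκ, one_smul] at h3
  have htop : Yx S = ⊤ := by
    by_contra hcon
    obtain ⟨l, hl0, hl⟩ := Submodule.exists_le_ker_of_lt_top (Yx S) (lt_top_iff_ne_top.2 hcon)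
    have hv1 : (N ^ (n - 1)) *ᵥ v ≠ 0 := by
      intro h
      apply hκ
      rw [h, dotProduct_zero]
    refine pl_ne hN hv1 hl0 (Polynomial.funext fun c => ?_)
    rw [pl_eval, Polynomial.eval_zero]
    exact LinearMap.mem_ker.1 (hl ((hE c).yx hv))
  have hall : ∀ x ξ : Fin n → ℂ, ξ ⬝ᵥ x = 0 → ∀ s, tr x ξ s ∈ S := by
    intro x ξ h s
    have hx : x ∈ Yx S := by rw [htop]; trivial
    exact (hx ξ h).2 s
  have : Nontrivial (Fin n) := Fin.nontrivial_iff_two_le.2 hn
  refine Pool.Agent.H463R3.PSLn.transvection_induction (fun A : Matrix.SpecialLinearGroup (Fin n) ℂ => A.1 ∈ S)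
    (fun i j h c => ?_) (fun A B hA hB => ?_) ⟨g, hg⟩
  · have h1 := hall (Pi.single i 1) (Pi.single j 1) (by
      rw [single_dotProduct, one_mul, Pi.single_apply, if_neg (Ne.symm h)]) c
    have h2 : (SpecialLinearGroup.transvection h c).1 = tr (Pi.single i 1) (Pi.single j 1) c := by
      rw [SpecialLinearGroup.transvection_coe]
      unfold tr
      congr 1
      ext a b
      rw [Matrix.smul_apply, vecMulVec_apply, Matrix.single_apply, Pi.single_apply, Pi.single_apply]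
      by_cases ha : a = i
      · by_cases hb : b = j
        · simp [ha, hb]
        · simp [hb, Ne.symm hb]
      · simp [ha, Ne.symm ha]
    rw [h2]
    exact h1
  · show A.1 * B.1 ∈ S
    exact mul_mem hA hB

end main

/-- the top coefficient -/
lemma gd_top {N : Matrix (Fin n) (Fin n) ℂ} {v φ : Fin n → ℂ} (hn : 2 ≤ n) (hN : N ^ n = 0)
    (hE : ∀ c : ℂ, Nm S (E N c) (E N (-c)))
    (hcl : ∀ M : Matrix (Fin n) (Fin n) (Polynomial ℂ), (∀ c : ℂ, c ≠ 0 → M.map (Polynomial.eval c) ∈ S) →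
      M.map (Polynomial.eval 0) ∈ S) (hv : Gd S v φ) : Gd S (N ^ (n - 1) *ᵥ v) (φ ᵥ* N ^ (n - 1)) := by
  refine ⟨?_, ?_⟩
  · rw [dotProduct_mulVec, vecMul_vecMul, ← pow_add, pow_eq_zero_of_le (by omega) hN, vecMul_zero, zero_dotProduct]
  -- the polynomial families
  set P : Fin n → Polynomial ℂ := fun i => ∑ l ∈ Finset.range n, Polynomial.C ((N ^ l *ᵥ v) i / (l.factorial : ℂ)) *
    Polynomial.X ^ (n - 1 - l) with hP
  set R : Fin n → Polynomial ℂ := fun i => ∑ l ∈ Finset.range n, Polynomial.C ((-1) ^ l * (φ ᵥ* N ^ l) i / (l.factorial : ℂ)) *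
    Polynomial.X ^ (n - 1 - l) with hR
  have hPe : ∀ c : ℂ, c ≠ 0 → (fun i => (P i).eval c) = c ^ (n - 1) • (E N c⁻¹ *ᵥ v) := by
    intro c hc
    funext i
    rw [hP]
    simp only
    rw [Polynomial.eval_finsetSum, Pi.smul_apply]
    unfold E
    rw [Matrix.sum_mulVec, Finset.sum_apply, smul_eq_mul, Finset.mul_sum]
    refine Finset.sum_congr rfl fun l hl => ?_
    rw [Finset.mem_range] at hl
    simp only [Polynomial.eval_mul, Polynomial.eval_C, Polynomial.eval_pow, Polynomial.eval_X, smul_mulVec, Pi.smul_apply,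
      smul_eq_mul, inv_pow]
    have h1 : c ^ (n - 1) = c ^ (n - 1 - l) * c ^ l := by rw [← pow_add]; congr 1; omega
    rw [h1]
    field_simp
  have hRe : ∀ c : ℂ, c ≠ 0 → (fun i => (R i).eval c) = c ^ (n - 1) • (φ ᵥ* E N (-c⁻¹)) := by
    intro c hc
    funext i
    rw [hR]
    simp only
    rw [Polynomial.eval_finsetSum, Pi.smul_apply]
    unfold E
    rw [Matrix.vecMul_sum, Finset.sum_apply, smul_eq_mul, Finset.mul_sum]
    refine Finset.sum_congr rfl fun l hl => ?_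
    rw [Finset.mem_range] at hl
    simp only [Polynomial.eval_mul, Polynomial.eval_C, Polynomial.eval_pow, Polynomial.eval_X, vecMul_smul, Pi.smul_apply,
      smul_eq_mul]
    have h1 : c ^ (n - 1) = c ^ (n - 1 - l) * c ^ l := by rw [← pow_add]; congr 1; omega
    rw [h1, neg_pow c⁻¹, inv_pow]
    field_simp
  have hP0 : (fun i => (P i).eval 0) = ((n - 1).factorial : ℂ)⁻¹ • (N ^ (n - 1) *ᵥ v) := by
    funext i
    rw [hP]
    simp only
    rw [Polynomial.eval_finsetSum, Finset.sum_eq_single (n - 1)]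
    · simp only [Polynomial.eval_mul, Polynomial.eval_C, Polynomial.eval_pow, Polynomial.eval_X, Nat.sub_self, pow_zero,
        mul_one, Pi.smul_apply, smul_eq_mul]
      rw [div_eq_inv_mul]
    · intro l hl hl'
      rw [Finset.mem_range] at hl
      simp only [Polynomial.eval_mul, Polynomial.eval_C, Polynomial.eval_pow, Polynomial.eval_X]
      rw [zero_pow (by omega), mul_zero]
    · intro h
      exact absurd (Finset.mem_range.2 (by omega)) h
  have hR0 : (fun i => (R i).eval 0) = ((-1) ^ (n - 1) * ((n - 1).factorial : ℂ)⁻¹) • (φ ᵥ* N ^ (n - 1)) := by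
    funext i
    rw [hR]
    simp only
    rw [Polynomial.eval_finsetSum, Finset.sum_eq_single (n - 1)]
    · simp only [Polynomial.eval_mul, Polynomial.eval_C, Polynomial.eval_pow, Polynomial.eval_X, Nat.sub_self, pow_zero,
        mul_one, Pi.smul_apply, smul_eq_mul]
      rw [div_eq_inv_mul]
      ring
    · intro l hl hl'
      rw [Finset.mem_range] at hl
      simp only [Polynomial.eval_mul, Polynomial.eval_C, Polynomial.eval_pow, Polynomial.eval_X]
      rw [zero_pow (by omega), mul_zero]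
    · intro h
      exact absurd (Finset.mem_range.2 (by omega)) h
  have key : ∀ s : ℂ, tr (fun i => (P i).eval 0) (fun i => (R i).eval 0) s ∈ S := by
    intro s
    set M : Matrix (Fin n) (Fin n) (Polynomial ℂ) := 1 + (Polynomial.C s : Polynomial ℂ) • vecMulVec P R with hM
    have hMe : ∀ c : ℂ, M.map (Polynomial.eval c) = tr (fun i => (P i).eval c) (fun i => (R i).eval c) s := by
      intro c
      ext l k
      unfold tr
      rw [hM]
      simp only [Matrix.map_apply, Matrix.add_apply, Matrix.smul_apply, smul_eq_mul, vecMulVec_apply,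
        Polynomial.eval_add, Polynomial.eval_mul, Polynomial.eval_C]
      congr 1
      rw [Matrix.one_apply, Matrix.one_apply]
      split_ifs <;> simp
    rw [← hMe]
    refine hcl M fun c hc => ?_
    rw [hMe, hPe c hc, hRe c hc]
    exact (((hE c⁻¹).gd hv).smul_left _).smul_right _ |>.2 s
  intro s
  have hf : ((n - 1).factorial : ℂ) ≠ 0 := by exact_mod_cast (n - 1).factorial_ne_zero
  have hs : ((-1 : ℂ)) ^ (n - 1) ≠ 0 := pow_ne_zero _ (by norm_num)
  have h1 := key (s * ((n - 1).factorial : ℂ) * (((-1) ^ (n - 1))⁻¹ * ((n - 1).factorial : ℂ)))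
  rw [hP0, hR0, tr_smul_left, tr_smul_right] at h1
  have h2 : s * ((n - 1).factorial : ℂ) * (((-1) ^ (n - 1))⁻¹ * ((n - 1).factorial : ℂ)) * ((n - 1).factorial : ℂ)⁻¹ *
      ((-1) ^ (n - 1) * ((n - 1).factorial : ℂ)⁻¹) = s := by
    field_simp
  rwa [h2] at h1

end Pool.Agent.E8helper43.HS
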