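import Pool.Agent.E8helper43.HS.Odd

/-!
# The relations between the solutions are invariant under the special linear group
-/

set_option autoImplicit false
set_option maxHeartbeats 4000000

open Filter Topology Matrix

namespace Pool.Agent.E8helper43.HS

open Pool.Agent.Y119.HY (cm Sol Hf Ep E Ep_eval E_neg E_zero E_mul_neg E_add Yf Rel Gal Lens mem_Lens slit_Lens real_mem_Lens
  symm_Lens Hf_an Hf_zero exists_sol Am Bm kx aq hq Hq uc ps pl pl_eval pl_coeff mv_apply Ac_nil)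

variable {n : ℕ}

lemma Apow_vec (l : ℕ) (d : ℕ → ℂ) (i : Fin n) : (cm (Am n) ^ l *ᵥ fun j => d (n - 1 - j)) i =
    if (i : ℕ) + l < n then d (n - 1 - (i + l)) else 0 := by
  rw [← Pool.Agent.Y119.HY.cm_pow, mv_apply]
  split_ifs with h
  · rw [Finset.sum_eq_single ⟨(i : ℕ) + l, h⟩]
    · rw [Pool.Agent.Y119.HY.cm_apply, Pool.Agent.Y119.HY.Am_pow, if_pos rfl]
      simp
    · intro b _ hb
      rw [Pool.Agent.Y119.HY.cm_apply, Pool.Agent.Y119.HY.Am_pow, if_neg, Rat.cast_zero, zero_mul]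
      intro h'
      exact hb (Fin.ext h')
    · intro h'
      exact absurd (Finset.mem_univ _) h'
  · refine Finset.sum_eq_zero fun b _ => ?_
    rw [Pool.Agent.Y119.HY.cm_apply, Pool.Agent.Y119.HY.Am_pow, if_neg, Rat.cast_zero, zero_mul]
    have := b.2
    omega

/-- the pairing is a coefficient of the product -/
lemma pair_coeff {l : ℕ} (hl : l < n) (P R : PowerSeries ℂ) :
    (fun j : Fin n => PowerSeries.coeff (j : ℕ) P) ⬝ᵥ (cm (Am n) ^ l *ᵥ fun j => PowerSeries.coeff (n - 1 - (j : ℕ)) R) =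
      PowerSeries.coeff (n - 1 - l) (P * R) := by
  rw [PowerSeries.coeff_mul, Finset.Nat.sum_antidiagonal_eq_sum_range_succ_mk, dotProduct]
  simp only [Apow_vec l (fun m => PowerSeries.coeff m R), mul_ite, mul_zero]
  rw [← Finset.sum_range (fun i => if i + l < n then PowerSeries.coeff i P * PowerSeries.coeff (n - 1 - (i + l)) R else 0)]
  have hsub : Finset.range (n - 1 - l + 1) ⊆ Finset.range n := by
    intro i hi
    rw [Finset.mem_range] at hi ⊢
    omega
  rw [← Finset.sum_subset hsub]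
  · refine Finset.sum_congr rfl fun i hi => ?_
    rw [Finset.mem_range] at hi
    rw [if_pos (by omega)]
    congr 3
    omega
  · intro i hi hi'
    rw [Finset.mem_range] at hi
    rw [Finset.mem_range] at hi'
    rw [if_neg (by omega)]

/-- the data at one: the vector and the functional of the transvection with their pairings -/
theorem data_one {β : Fin n → ℚ} (h : BD β) : ∃ (v φ : Fin n → ℂ) (K : ℕ → Matrix (Fin n) (Fin n) ℂ)
    (M Mi : Matrix (Fin n) (Fin n) ℂ) (P : PowerSeries ℂ), φ ⬝ᵥ v = 0 ∧ M * Mi = 1 ∧ Mi * M = 1 ∧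
    v = Mi *ᵥ uc n ∧ φ = qc n (QL β) ᵥ* M ∧
    Sol (-vecMulVec (uc n) (qc n (QL β))) (-cm (Am n)) K ∧
    (∀ z ∈ Lens, Yf (cm (Am n)) (Hk (Hq n (QL β))) z = Yf (-vecMulVec (uc n) (qc n (QL β))) K (1 - z) * M) ∧
    (∀ l < n, φ ⬝ᵥ (cm (Am n) ^ l *ᵥ v) = PowerSeries.coeff (n - 1 - l) P) ∧ hs ^ n * P = tay (Sf β) := by
  have hQ := qg_of h
  have hn := h.two
  set u := uc n with hu
  set q := qc n (QL β) with hq
  have hqu : q ⬝ᵥ u = 0 := qc_uc hQ
  have hA : cm (Am n) ^ n = 0 := Ac_nil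
  have hB : (vecMulVec u q) ^ n = 0 := vv_pow hqu hn
  have hH : Sol (cm (Am n)) (vecMulVec u q) (Hk (Hq n (QL β))) := by
    have := sol_Hq hQ
    rwa [cm_Bm'] at this
  have hL : Sol (-(cm (Am n)).transpose) (-(vecMulVec u q).transpose) (Hk (Lq n (QL β))) := by
    have := sol_Lq hQ
    rwa [cm_Bm'] at this
  obtain ⟨K, hK⟩ := exists_sol (neg_nil hB) (-cm (Am n))
  obtain ⟨K', hK'⟩ := exists_sol (tr_nil hB) (cm (Am n)).transpose
  obtain ⟨M, Mi, hMMi, hMiM, hY, hYL⟩ := connect hA hB hH hL hK hK'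
  obtain ⟨Cf, Df, hCa, hDa, hC, hD, hid⟩ := lims hQ
  have hφ : q ᵥ* M = fun j : Fin n => PowerSeries.coeff (j : ℕ) (tay Cf) := by
    refine phi_lim hn hqu hA hH hK hY _ fun j => ?_
    simp only [hq, sum_qH hQ]
    exact hC j
  have hv : Mi *ᵥ u = fun j : Fin n => PowerSeries.coeff (n - 1 - (j : ℕ)) (tay Df) := by
    refine v_lim hn hqu hA hL hK' hYL _ fun j => ?_
    rw [← tendsto_add_atTop_iff_nat 1]
    simp only [hu, sum_uL hQ]
    exact hD _
  refine ⟨Mi *ᵥ u, q ᵥ* M, K, M, Mi, tay Cf * tay Df, ?_, hMMi, hMiM, rfl, rfl, hK, hY, fun l hl => ?_, ?_⟩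
  · rw [dotProduct_mulVec, vecMul_vecMul, hMMi, vecMul_one]
    exact hqu
  · rw [hφ, hv]
    exact pair_coeff hl _ _
  · exact lim_id hCa hDa hid

lemma sin_ne {β : Fin n → ℚ} (h : BD β) : Sf β 0 ≠ 0 := by
  unfold Sf
  refine Finset.prod_ne_zero_iff.2 fun j _ => ?_
  rw [Ne, Complex.sin_eq_zero_iff]
  rintro ⟨k, hk⟩
  have hpi : (Real.pi : ℂ) ≠ 0 := by exact_mod_cast Real.pi_ne_zero
  have h1 : ((β j : ℚ) : ℂ) = ((-k : ℤ) : ℂ) := by
    refine mul_left_cancel₀ hpi ?_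
    push_cast
    linear_combination -hk
  have h2 : β j = ((-k : ℤ) : ℚ) := by exact_mod_cast h1
  exact h.ni j _ h2

/-- the constant term of the product -/
lemma P0_ne {β : Fin n → ℚ} (h : BD β) {P : PowerSeries ℂ} (hP : hs ^ n * P = tay (Sf β)) : PowerSeries.coeff 0 P ≠ 0 := by
  intro h0
  have h1 := congrArg PowerSeries.constantCoeff hP
  rw [map_mul, tay_zero, ← PowerSeries.coeff_zero_eq_constantCoeff_apply P, h0, mul_zero] at h1
  exact sin_ne h h1.symm

/-- if the coefficients are related by a sign then the parameters are opposite -/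
lemma opp_of_coeff {β γ : Fin n → ℚ} (hβ : ∑ j, β j = 0) (hγ : ∑ j, γ j = 0) {P R : PowerSeries ℂ}
    (hP : hs ^ n * P = tay (Sf β)) (hR : hs ^ n * R = tay (Sf γ))
    (h : ∀ l < n, PowerSeries.coeff (n - 1 - l) P = -((-1) ^ l * PowerSeries.coeff (n - 1 - l) R)) :
    Eqv β fun j => -γ j := by
  refine sin_inj hβ (by rw [Finset.sum_neg_distrib, hγ, neg_zero]) ?_
  have h1 : tay (Sf β) - tay (Sf fun j => -γ j) = hs ^ n * (P - (-1) ^ n * PowerSeries.rescale (-1 : ℂ) R) := by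
    have h2 : hs ^ n * PowerSeries.rescale (-1 : ℂ) R = (-1) ^ n * tay (Sf fun j => -γ j) := by
      rw [← rescale_Sf, ← hR, map_mul, map_pow, hs_even]
    have h3 : ((-1 : PowerSeries ℂ)) ^ n * (-1) ^ n = 1 := by
      rw [← mul_pow]
      norm_num
    linear_combination (-1) ^ n * h2 - hP + tay (Sf fun j => -γ j) * h3
  rw [h1]
  refine Dvd.dvd.mul_left ?_ _
  rw [PowerSeries.X_pow_dvd_iff]
  intro m hm
  obtain ⟨l, rfl, hl⟩ : ∃ l, m = n - 1 - l ∧ l < n := ⟨n - 1 - m, by omega, by omega⟩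
  have e1 : ((-1 : PowerSeries ℂ)) ^ n = PowerSeries.C ((-1) ^ n) := by rw [map_pow, map_neg, map_one]
  rw [map_sub, e1, PowerSeries.coeff_C_mul, PowerSeries.coeff_rescale, h l hl]
  have e2 : ((-1 : ℂ)) ^ n * (-1) ^ (n - 1 - l) = -(-1) ^ l := by
    rw [← pow_add]
    have : n + (n - 1 - l) = 2 * (n - 1 - l) + (l + 1) := by omega
    rw [this, pow_add, pow_mul, neg_one_sq, one_pow, one_mul, pow_succ]
    ring
  linear_combination (-PowerSeries.coeff (n - 1 - l) R) * e2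

/-- if the coefficients agree then the parameters are equivalent -/
lemma eqv_of_coeff {β γ : Fin n → ℚ} (hβ : ∑ j, β j = 0) (hγ : ∑ j, γ j = 0) {P R : PowerSeries ℂ}
    (hP : hs ^ n * P = tay (Sf β)) (hR : hs ^ n * R = tay (Sf γ))
    (h : ∀ l < n, PowerSeries.coeff (n - 1 - l) P = PowerSeries.coeff (n - 1 - l) R) : Eqv β γ := by
  refine sin_inj hβ hγ ?_
  rw [← hP, ← hR, ← mul_sub]
  refine Dvd.dvd.mul_left ?_ _
  rw [PowerSeries.X_pow_dvd_iff]
  intro m hm
  obtain ⟨l, rfl, hl⟩ : ∃ l, m = n - 1 - l ∧ l < n := ⟨n - 1 - m, by omega, by omega⟩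
  rw [map_sub, h l hl, sub_self]

/-- the polynomial of the pairings -/
lemma fpoly (A : Matrix (Fin n) (Fin n) ℂ) (v φ : Fin n → ℂ) : ∃ F : Polynomial ℂ,
    (∀ c, F.eval c = φ ⬝ᵥ (E A c *ᵥ v)) ∧ ∀ l < n, F.coeff l = (φ ⬝ᵥ (A ^ l *ᵥ v)) / (l.factorial : ℂ) :=
  ⟨pl A v (lf φ), fun c => pl_eval v (lf φ) c, fun l hl => pl_coeff v (lf φ) ⟨l, hl⟩⟩

/-- the group of the matrices of determinant one -/
def SLs (n : ℕ) : Submonoid (Matrix (Fin n) (Fin n) ℂ) where
  carrier := {g | g.det = 1}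
  mul_mem' := fun {a b} ha hb => by
    show (a * b).det = 1
    have ha' : a.det = 1 := ha
    have hb' : b.det = 1 := hb
    rw [det_mul, ha', hb', one_mul]
  one_mem' := det_one

lemma mem_SLs {g : Matrix (Fin n) (Fin n) ℂ} : g ∈ SLs n ↔ g.det = 1 := Iff.rfl

/-- **All relations between the solutions are invariant under the special linear group.** -/
theorem sl_gal {β : Fin n → ℚ} (h : BD β) (hns : ¬ Eqv β fun j => -β j) (g : Matrix (Fin n) (Fin n) ℂ) (hg : g.det = 1) :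
    g ∈ Gal (Yf (cm (Am n)) (Hk (Hq n (QL β)))) := by
  have hn := h.two
  have hA : cm (Am n) ^ n = 0 := Ac_nil
  obtain ⟨v, φ, K, M, Mi, P, hφv, hMMi, hMiM, hv, hφ, hK, hY, hpair, hP⟩ := data_one h
  have hH : Sol (cm (Am n)) (vecMulVec (uc n) (qc n (QL β))) (Hk (Hq n (QL β))) := by
    have := sol_Hq (qg_of h)
    rwa [cm_Bm'] at this
  have hgd : Gd (Gal (Yf (cm (Am n)) (Hk (Hq n (QL β))))) v φ := by
    rw [hv, hφ]
    exact tv_mem hn (qc_uc (qg_of h)) hK hMMi hY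
  have hE : ∀ c : ℂ, Nm (Gal (Yf (cm (Am n)) (Hk (Hq n (QL β))))) (E (cm (Am n)) c) (E (cm (Am n)) (-c)) := fun c =>
    ⟨E_mul_neg hA c, fun g hg => Pool.Agent.Y119.HY.conj_E hA hH c g hg⟩
  refine sl_all hn hA hφv ?_ hE (fun s => hgd.nm s)
    (gd_top hn hA hE (Pool.Agent.Y119.HY.Gal_closed _) hgd) ?_ g hg
  · rw [hpair (n - 1) (by omega), Nat.sub_self]
    exact P0_ne h hP
  · by_contra hcon
    push Not at hcon
    apply hns
    obtain ⟨F, hF1, hF2⟩ := fpoly (cm (Am n)) v φ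
    have h1 : F.comp (Polynomial.C (-1) * Polynomial.X) = -F := Polynomial.funext fun c => by
      rw [Polynomial.eval_comp, Polynomial.eval_mul, Polynomial.eval_C, Polynomial.eval_X, neg_one_mul, hF1,
        Polynomial.eval_neg, hF1]
      exact hcon c
    refine opp_of_coeff h.sum h.sum hP hP fun l hl => ?_
    have h2 := congrArg (fun p => Polynomial.coeff p l) h1
    simp only [Polynomial.comp_C_mul_X_coeff, Polynomial.coeff_neg] at h2
    rw [hF2 l hl, hpair l hl] at h2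
    have h3 : (l.factorial : ℂ) ≠ 0 := by exact_mod_cast l.factorial_ne_zero
    field_simp at h2
    linear_combination h2

end Pool.Agent.E8helper43.HS
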