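import Mathlib

/-!
# Taylor series and limits of products
-/

set_option autoImplicit false
set_option maxHeartbeats 4000000

open Filter Topology PowerSeries

namespace Pool.Agent.E8helper43.HS

/-- Taylor series at zero -/
noncomputable def tay (f : ℂ → ℂ) : ℂ⟦X⟧ := PowerSeries.mk fun n => iteratedDeriv n f 0 / (n.factorial : ℂ)

lemma coeff_tay (f : ℂ → ℂ) (n : ℕ) : coeff n (tay f) = iteratedDeriv n f 0 / (n.factorial : ℂ) := by
  rw [tay, coeff_mk]

lemma tay_congr {f g : ℂ → ℂ} (h : f =ᶠ[𝓝 0] g) : tay f = tay g := by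
  ext n
  rw [coeff_tay, coeff_tay, h.iteratedDeriv_eq]

lemma tay_mul {f g : ℂ → ℂ} (hf : AnalyticAt ℂ f 0) (hg : AnalyticAt ℂ g 0) :
    tay (fun z => f z * g z) = tay f * tay g := by
  ext n
  rw [coeff_tay, iteratedDeriv_fun_mul hf.contDiffAt hg.contDiffAt, PowerSeries.coeff_mul,
    Finset.Nat.sum_antidiagonal_eq_sum_range_succ_mk, Finset.sum_div]
  apply Finset.sum_congr rfl; intro i hi
  have hi' : i ≤ n := by simpa [Nat.lt_succ_iff] using hi
  rw [coeff_tay, coeff_tay]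
  have h1 : (n.choose i : ℂ) * (i.factorial : ℂ) * ((n-i).factorial : ℂ) = (n.factorial : ℂ) := by
    exact_mod_cast Nat.choose_mul_factorial_mul_factorial hi'
  have h2 : (i.factorial : ℂ) ≠ 0 := by exact_mod_cast i.factorial_ne_zero
  have h3 : ((n-i).factorial : ℂ) ≠ 0 := by exact_mod_cast (n-i).factorial_ne_zero
  have h4 : (n.factorial : ℂ) ≠ 0 := by exact_mod_cast n.factorial_ne_zero
  field_simp
  rw [← h1]; ring

lemma tay_add {f g : ℂ → ℂ} (hf : AnalyticAt ℂ f 0) (hg : AnalyticAt ℂ g 0) :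
    tay (fun z => f z + g z) = tay f + tay g := by
  ext n
  rw [coeff_tay, iteratedDeriv_fun_add hf.contDiffAt hg.contDiffAt, map_add, coeff_tay, coeff_tay, add_div]

lemma tay_const (c : ℂ) : tay (fun _ => c) = PowerSeries.C c := by
  ext n
  rw [coeff_tay, coeff_C, iteratedDeriv_const]
  by_cases h : n = 0
  · subst h; simp
  · simp [h]

lemma tay_id : tay (fun z => z) = X := by
  ext n
  rw [coeff_tay, coeff_X, iteratedDeriv_fun_id_zero]
  by_cases h : n = 1
  · subst h; simp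
  · simp [h]

lemma tay_const_mul {f : ℂ → ℂ} (c : ℂ) (hf : AnalyticAt ℂ f 0) :
    tay (fun z => c * f z) = PowerSeries.C c * tay f := by
  rw [tay_mul analyticAt_const hf, tay_const]

lemma tay_zero (f : ℂ → ℂ) : constantCoeff (tay f) = f 0 := by
  rw [← coeff_zero_eq_constantCoeff_apply, coeff_tay]; simp

lemma tay_pow {f : ℂ → ℂ} (hf : AnalyticAt ℂ f 0) (m : ℕ) : tay (fun z => f z ^ m) = tay f ^ m := by
  induction m with
  | zero => simp only [pow_zero]; rw [tay_const, map_one]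
  | succ m ih =>
    simp only [pow_succ]
    rw [tay_mul (f := fun z => f z ^ m) (hf.pow m) hf, ih]

lemma tay_prod {ι : Type*} (s : Finset ι) {f : ι → ℂ → ℂ} (hf : ∀ i ∈ s, AnalyticAt ℂ (f i) 0) :
    tay (fun z => ∏ i ∈ s, f i z) = ∏ i ∈ s, tay (f i) := by
  classical
  induction s using Finset.induction_on with
  | empty => simp only [Finset.prod_empty]; rw [tay_const, map_one]
  | insert a s ha ih =>
    simp only [Finset.prod_insert ha]
    rw [tay_mul (hf a (Finset.mem_insert_self _ _))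
      (Finset.analyticAt_fun_prod _ fun i hi => hf i (Finset.mem_insert_of_mem hi)),
      ih fun i hi => hf i (Finset.mem_insert_of_mem hi)]

/-- the Taylor coefficients of `f (- z)` -/
lemma coeff_tay_neg (f : ℂ → ℂ) (m : ℕ) : coeff m (tay fun z => f (-z)) = (-1) ^ m * coeff m (tay f) := by
  rw [coeff_tay, coeff_tay, iteratedDeriv_comp_neg, neg_zero, smul_eq_mul, mul_div_assoc]

/-- convergence of the Taylor coefficients -/
lemma tendsto_tay {U : Set ℂ} (hU : IsOpen U) (h0 : (0 : ℂ) ∈ U) {F : ℕ → ℂ → ℂ} {f : ℂ → ℂ}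
    (hF : TendstoLocallyUniformlyOn F f atTop U) (hd : ∀ k, DifferentiableOn ℂ (F k) U) (j : ℕ) :
    Tendsto (fun k => coeff j (tay (F k))) atTop (𝓝 (coeff j (tay f))) := by
  have h1 : ∀ j, TendstoLocallyUniformlyOn (fun k => iteratedDeriv j (F k)) (iteratedDeriv j f) atTop U ∧
      ∀ k, DifferentiableOn ℂ (iteratedDeriv j (F k)) U := by
    intro j
    induction j with
    | zero => simpa only [iteratedDeriv_zero] using ⟨hF, hd⟩
    | succ j ih =>
      obtain ⟨h2, h3⟩ := ih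
      refine ⟨?_, fun k => ?_⟩
      · have h4 := h2.deriv (Eventually.of_forall h3) hU
        simp only [iteratedDeriv_succ]
        exact h4
      · rw [iteratedDeriv_succ]
        exact (h3 k).deriv hU
  simp only [coeff_tay]
  exact ((h1 j).1.tendsto_at h0).div_const _

/-! ### rational power series as Taylor series -/

/-- complexification of rational power series -/
noncomputable def qx : ℚ⟦X⟧ →+* ℂ⟦X⟧ := PowerSeries.map (algebraMap ℚ ℂ)

lemma coeff_qx (p : ℚ⟦X⟧) (j : ℕ) : coeff j (qx p) = ((coeff j p : ℚ) : ℂ) := by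
  unfold qx
  rw [coeff_map]
  rfl

/-- `f` has the Taylor series `p` -/
def TA (p : ℚ⟦X⟧) (f : ℂ → ℂ) : Prop := AnalyticAt ℂ f 0 ∧ tay f = qx p

lemma TA.mul {p q : ℚ⟦X⟧} {f g : ℂ → ℂ} (hf : TA p f) (hg : TA q g) : TA (p * q) fun z => f z * g z :=
  ⟨hf.1.mul hg.1, by rw [tay_mul hf.1 hg.1, hf.2, hg.2, map_mul]⟩

lemma TA.add {p q : ℚ⟦X⟧} {f g : ℂ → ℂ} (hf : TA p f) (hg : TA q g) : TA (p + q) fun z => f z + g z :=
  ⟨hf.1.add hg.1, by rw [tay_add hf.1 hg.1, hf.2, hg.2, map_add]⟩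

lemma TA.const (c : ℚ) : TA (C c) fun _ => (c : ℂ) :=
  ⟨analyticAt_const, by
    rw [tay_const]
    unfold qx
    rw [PowerSeries.map_C]
    rfl⟩

lemma TA.X : TA X fun z => z :=
  ⟨analyticAt_id, by
    rw [tay_id]
    unfold qx
    rw [PowerSeries.map_X]⟩

lemma TA.pow {p : ℚ⟦X⟧} {f : ℂ → ℂ} (hf : TA p f) (m : ℕ) : TA (p ^ m) fun z => f z ^ m :=
  ⟨hf.1.pow m, by rw [tay_pow hf.1, hf.2, map_pow]⟩

lemma TA.prod {ι : Type*} (s : Finset ι) {p : ι → ℚ⟦X⟧} {f : ι → ℂ → ℂ} (h : ∀ i ∈ s, TA (p i) (f i)) :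
    TA (∏ i ∈ s, p i) fun z => ∏ i ∈ s, f i z :=
  ⟨Finset.analyticAt_fun_prod _ fun i hi => (h i hi).1, by
    rw [tay_prod _ fun i hi => (h i hi).1, map_prod]
    exact Finset.prod_congr rfl fun i hi => (h i hi).2⟩

lemma TA.sum {ι : Type*} (s : Finset ι) {p : ι → ℚ⟦X⟧} {f : ι → ℂ → ℂ} (h : ∀ i ∈ s, TA (p i) (f i)) :
    TA (∑ i ∈ s, p i) fun z => ∑ i ∈ s, f i z := by
  classical
  induction s using Finset.induction_on with
  | empty =>
    simp only [Finset.sum_empty]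
    have := TA.const 0
    simpa using this
  | insert a s ha ih =>
    simp only [Finset.sum_insert ha]
    exact (h a (Finset.mem_insert_self _ _)).add (ih fun i hi => h i (Finset.mem_insert_of_mem hi))

lemma TA.inv {p : ℚ⟦X⟧} {f : ℂ → ℂ} (hf : TA p f) (h0 : constantCoeff p ≠ 0) : TA p⁻¹ fun z => (f z)⁻¹ := by
  have hf0 : f 0 ≠ 0 := by
    rw [← tay_zero f, hf.2, ← coeff_zero_eq_constantCoeff_apply, coeff_qx]
    rw [← coeff_zero_eq_constantCoeff_apply] at h0
    exact_mod_cast h0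
  have ha : AnalyticAt ℂ (fun z => (f z)⁻¹) 0 := hf.1.inv hf0
  refine ⟨ha, ?_⟩
  have h1 : tay f * tay (fun z => (f z)⁻¹) = 1 := by
    rw [← tay_mul hf.1 ha, ← map_one (C (R := ℂ)), ← tay_const]
    refine tay_congr ?_
    filter_upwards [hf.1.continuousAt.eventually_ne hf0] with z hz
    rw [mul_inv_cancel₀ hz]
  have h2 : tay f * qx p⁻¹ = 1 := by
    rw [hf.2, ← map_mul, PowerSeries.mul_inv_cancel p h0, map_one]
  calc tay (fun z => (f z)⁻¹) = (tay f * qx p⁻¹) * tay (fun z => (f z)⁻¹) := by rw [h2, one_mul]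
    _ = (tay f * tay (fun z => (f z)⁻¹)) * qx p⁻¹ := by ring
    _ = qx p⁻¹ := by rw [h1, one_mul]

/-- `a + ε` -/
noncomputable def ka (a : ℚ) : ℚ⟦X⟧ := C a + X

lemma TA_ka (a : ℚ) : TA (ka a) fun z => (a : ℂ) + z := (TA.const a).add TA.X

lemma TA_aeval (a : ℚ) (Q : Polynomial ℚ) :
    TA (Polynomial.aeval (ka a) Q) fun z => (Q.map (algebraMap ℚ ℂ)).eval ((a : ℂ) + z) := by
  have h1 : Polynomial.aeval (ka a) Q = ∑ i ∈ Finset.range (Q.natDegree + 1), C (Q.coeff i) * ka a ^ i := by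
    rw [Polynomial.aeval_eq_sum_range]
    exact Finset.sum_congr rfl fun i _ => by rw [PowerSeries.smul_eq_C_mul]
  have h2 : (fun z : ℂ => (Q.map (algebraMap ℚ ℂ)).eval ((a : ℂ) + z)) =
      fun z => ∑ i ∈ Finset.range (Q.natDegree + 1), ((Q.coeff i : ℚ) : ℂ) * ((a : ℂ) + z) ^ i := by
    funext z
    rw [Polynomial.eval_map, Polynomial.eval₂_eq_sum_range]
    rfl
  rw [h1, h2]
  exact TA.sum _ fun i _ => (TA.const _).mul ((TA_ka a).pow i)

end Pool.Agent.E8helper43.HS
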